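import Mathlib

/-! Tools for Herstein's conjecture on periodic multiplicative commutators. -/

set_option autoImplicit false

namespace Pool.Agent.Helper656.Her

open Polynomial

universe u

/-- every multiplicative commutator has a positive power in the centre -/
def HH (D : Type u) [DivisionRing D] : Prop :=
  ∀ x y : D, x ≠ 0 → y ≠ 0 →
    ∃ n : ℕ, 0 < n ∧ (x * y * x⁻¹ * y⁻¹) ^ n ∈ Subring.center D

/-- every element of finite multiplicative order is central -/
def RR (D : Type u) [DivisionRing D] : Prop :=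
  ∀ (w : D) (k : ℕ), 0 < k → w ^ k = 1 → w ∈ Subring.center D


theorem exField (D : Type u) [DivisionRing D] (S : Set D) (hS : ∀ a ∈ S, ∀ b ∈ S, a * b = b * a) :
    ∃ (K : Type u) (_ : Field K) (f : K →+* D), (∀ a ∈ S, ∃ z, f z = a) ∧
      (∀ a ∈ Subring.center D, ∃ z, f z = a) := by
  classical
  let T : Subring D := Subring.centralizer ((Subring.centralizer S : Subring D) : Set D)
  have hSC : S ⊆ (Subring.centralizer S : Subring D) := by
    intro a ha
    rw [SetLike.mem_coe, Subring.mem_centralizer_iff]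
    intro g hg
    exact hS g hg a ha
  have hTC : T ≤ Subring.centralizer S := Subring.centralizer_le _ _ hSC
  have hmemT : ∀ a : D, a ∈ T ↔ ∀ g ∈ (Subring.centralizer S : Subring D), g * a = a * g := by
    intro a
    exact Subring.mem_centralizer_iff
  have hcomm : ∀ a b : T, a * b = b * a := by
    intro a b
    apply Subtype.ext
    exact ((hmemT a).1 a.2 b (hTC b.2)).symm
  have hinv : ∀ a ∈ T, a⁻¹ ∈ T := by
    intro a ha
    rw [hmemT]
    intro g hg
    have h1 : Commute g a := (hmemT a).1 ha g hg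
    exact h1.inv_right₀
  let R : Ring T := inferInstance
  let CR : CommRing T := { R with mul_comm := hcomm }
  have hF : @IsField T CR.toSemiring := by
    refine ⟨⟨0, 1, ?_⟩, hcomm, ?_⟩
    · intro h
      have := congrArg Subtype.val h
      exact zero_ne_one this
    · intro a ha
      have ha0 : (a : D) ≠ 0 := by
        intro h
        apply ha
        exact Subtype.ext h
      refine ⟨⟨(a : D)⁻¹, hinv a a.2⟩, ?_⟩
      apply Subtype.ext
      exact mul_inv_cancel₀ ha0
  refine ⟨T, @IsField.toField T CR.toRing hF, T.subtype, ?_, ?_⟩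
  · intro a ha
    refine ⟨⟨a, ?_⟩, rfl⟩
    rw [hmemT]
    intro g hg
    exact ((Subring.mem_centralizer_iff.1 hg) a ha).symm
  · intro a ha
    refine ⟨⟨a, ?_⟩, rfl⟩
    exact Subring.center_le_centralizer _ ha


theorem hA (D : Type u) [DivisionRing D]
    (h : ∀ x y : D, x ≠ 0 → y ≠ 0 → x * y * x⁻¹ * y⁻¹ ∈ Subring.center D) :
    ∀ a b : D, a * b = b * a := by
  intro a b
  by_contra hne
  have ha : a ≠ 0 := by
    rintro rfl
    apply hne; simp
  have hb : b ≠ 0 := by
    rintro rfl
    apply hne; simp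
  have hb1 : b + 1 ≠ 0 := by
    intro h1
    have : b = -1 := eq_neg_of_add_eq_zero_left h1
    apply hne
    rw [this]; simp
  obtain ⟨c, hc⟩ : ∃ c, c = a * b * a⁻¹ * b⁻¹ := ⟨_, rfl⟩
  obtain ⟨c', hc'⟩ : ∃ c', c' = a * (b + 1) * a⁻¹ * (b + 1)⁻¹ := ⟨_, rfl⟩
  have hcc := h a b ha hb
  have hcc' := h a (b + 1) ha hb1
  rw [← hc, Subring.mem_center_iff] at hcc
  rw [← hc', Subring.mem_center_iff] at hcc'
  have h1 : c * b = a * b * a⁻¹ := by
    rw [hc, mul_assoc, inv_mul_cancel₀ hb, mul_one]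
  have h2 : c' * (b + 1) = a * (b + 1) * a⁻¹ := by
    rw [hc', mul_assoc, inv_mul_cancel₀ hb1, mul_one]
  have h3 : a * (b + 1) * a⁻¹ = a * b * a⁻¹ + 1 := by
    rw [mul_add, mul_one, add_mul, mul_inv_cancel₀ ha]
  have h4 : c * b + 1 = c' * b + c' := by
    rw [h1, ← h3, ← h2, mul_add, mul_one]
  have h5 : (c - c') * b = c' - 1 := by
    rw [sub_mul, sub_eq_sub_iff_add_eq_add, h4, add_comm]
  by_cases hcd : c = c'
  · rw [hcd, sub_self, zero_mul] at h5
    have h6 : c' = 1 := (sub_eq_zero.1 h5.symm)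
    rw [hcd, h6, one_mul] at h1
    apply hne
    have h7 : b * a = a * b * a⁻¹ * a := by rw [← h1]
    rw [mul_assoc (a * b), inv_mul_cancel₀ ha, mul_one] at h7
    exact h7.symm
  · have hd : c - c' ≠ 0 := sub_ne_zero.2 hcd
    apply hne
    apply mul_left_cancel₀ hd
    have e1 : (c - c') * (a * b) = a * ((c - c') * b) := by
      rw [← mul_assoc, ← mul_assoc, sub_mul, mul_sub, hcc a, hcc' a]
    have e2 : (c - c') * (b * a) = (c' - 1) * a := by
      rw [← mul_assoc, h5]
    rw [e1, e2, h5, mul_sub, sub_mul, hcc' a, mul_one, one_mul]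


theorem hB_core (D : Type u) [DivisionRing D] (K : Type u) [CommRing K] (φ : K →+* D)
    (hφ : Function.Injective φ) (ζ : K) (m : ℕ) (hm : 0 < m) (hζ : IsPrimitiveRoot ζ m)
    (z : D) (hz : z * φ ζ ≠ φ ζ * z) :
    ∃ x : D, x ≠ 0 ∧ ∃ j : ℕ, x * φ ζ = φ ζ ^ j * x ∧ φ ζ ^ j ≠ φ ζ := by
  classical
  have : IsDomain K := Function.Injective.isDomain φ hφ
  letI : Module K D := Module.compHom D φ
  have hsmul : ∀ (a : K) (x : D), a • x = φ a * x := fun _ _ => rfl
  let T : D →ₗ[K] D :=
    { toFun := fun x => x * φ ζ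
      map_add' := fun x y => add_mul _ _ _
      map_smul' := fun a x => by
        simp only [hsmul, RingHom.id_apply, mul_assoc] }
  have hT : ∀ x, T x = x * φ ζ := fun _ => rfl
  have hTp : ∀ (n : ℕ) (x : D), (T ^ n) x = x * φ ζ ^ n := by
    intro n
    induction n with
    | zero => intro x; simp
    | succ n ih =>
      intro x
      rw [pow_succ, Module.End.mul_apply, ih, hT, pow_succ', mul_assoc]
  have hζm : φ ζ ^ m = 1 := by rw [← map_pow, hζ.pow_eq_one, map_one]
  have hlin : ∀ (a : K) (x : D), (aeval T (X - C a)) x = T x - a • x := by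
    intro a x
    rw [map_sub, aeval_X, aeval_C, LinearMap.sub_apply, Module.algebraMap_end_apply]
  have claim : ∀ (s : Finset K) (z : D), z ≠ 0 → (aeval T (∏ a ∈ s, (X - C a))) z = 0 →
      ∃ a ∈ s, ∃ x : D, x ≠ 0 ∧ T x = a • x := by
    intro s
    induction s using Finset.induction_on with
    | empty =>
      intro z hz0 h
      simp at h
      exact absurd h hz0
    | insert a s ha ih =>
      intro z hz0 h
      rw [Finset.prod_insert ha, map_mul, Module.End.mul_apply, hlin] at h
      by_cases hy : (aeval T (∏ a ∈ s, (X - C a))) z = 0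
      · obtain ⟨b, hb, x, hx, hx2⟩ := ih z hz0 hy
        exact ⟨b, Finset.mem_insert_of_mem hb, x, hx, hx2⟩
      · exact ⟨a, Finset.mem_insert_self _ _, _, hy, sub_eq_zero.1 h⟩
  have hprod := X_pow_sub_one_eq_prod hm hζ
  have hmem : ζ ∈ nthRootsFinset m (1 : K) := hζ.mem_nthRootsFinset hm
  rw [← Finset.prod_erase_mul _ _ hmem] at hprod
  have hz1 : T z - ζ • z ≠ 0 := by
    rw [hT, hsmul, sub_ne_zero]; exact hz
  have hk : (aeval T (∏ a ∈ (nthRootsFinset m (1 : K)).erase ζ, (X - C a))) (T z - ζ • z) = 0 := by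
    rw [← hlin, ← Module.End.mul_apply, ← map_mul, ← hprod, map_sub, map_pow, aeval_X, map_one,
      LinearMap.sub_apply, hTp, hζm, mul_one, Module.End.one_apply, sub_self]
  obtain ⟨a, ha, x, hx, hx2⟩ := claim _ _ hz1 hk
  rw [Finset.mem_erase] at ha
  have : NeZero m := ⟨hm.ne'⟩
  obtain ⟨i, -, hi⟩ := hζ.eq_pow_of_pow_eq_one ((mem_nthRootsFinset hm 1).1 ha.2)
  refine ⟨x, hx, i, ?_, ?_⟩
  · rw [← map_pow, hi, ← hsmul, ← hx2, hT]
  · rw [← map_pow, hi]
    intro h
    exact ha.1 (hφ h)

theorem hB (D : Type u) [DivisionRing D] (w : D) (k : ℕ) (hk : 0 < k) (hw : w ^ k = 1)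
    (hnc : w ∉ Subring.center D) :
    ∃ x : D, x ≠ 0 ∧ ∃ j : ℕ, x * w = w ^ j * x ∧ w ^ j ≠ w := by
  have hfo : IsOfFinOrder w := isOfFinOrder_iff_pow_eq_one.2 ⟨k, hk, hw⟩
  have hm : 0 < orderOf w := hfo.orderOf_pos
  obtain ⟨z, hz⟩ : ∃ z : D, z * w ≠ w * z := by
    by_contra hcon
    push Not at hcon
    exact hnc (Subring.mem_center_iff.2 hcon)
  let S : Subring D := Subring.centralizer {w}
  have hwS : w ∈ S := by
    rw [Subring.mem_centralizer_iff]
    intro g hg
    rw [Set.mem_singleton_iff.1 hg]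
  let w1 : S := ⟨w, hwS⟩
  have hw1 : w1 ∈ Subring.center S := by
    rw [Subring.mem_center_iff]
    intro g
    apply Subtype.ext
    have := (Subring.mem_centralizer_iff.1 g.2) w rfl
    exact this.symm
  let w2 : Subring.center S := ⟨w1, hw1⟩
  let φ : Subring.center S →+* D := S.subtype.comp (Subring.center S).subtype
  have hφ : Function.Injective φ := by
    intro a b h
    apply Subtype.ext
    apply Subtype.ext
    exact h
  have hφw : φ w2 = w := rfl
  have hprim : IsPrimitiveRoot w2 (orderOf w) := by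
    refine ⟨?_, fun l hl => ?_⟩
    · apply hφ
      rw [map_pow, hφw, map_one, pow_orderOf_eq_one]
    · apply orderOf_dvd_of_pow_eq_one
      have := congrArg φ hl
      rwa [map_pow, hφw, map_one] at this
  have := hB_core D (Subring.center S) φ hφ w2 (orderOf w) hm hprim z (by rw [hφw]; exact hz)
  rwa [hφw] at this


theorem fieldC0_ne {K : Type u} [Field K] [CharZero K] (a : K) (ha : ∃ k : ℕ, 0 < k ∧ a ^ k = 1)
    (l : ℕ) (hl : 2 ≤ l) : a + l ≠ 0 := by
  obtain ⟨k, hk, hak⟩ := ha
  intro h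
  have h1 : a = -(l : K) := eq_neg_of_add_eq_zero_left h
  have h2 : (l : K) ^ (2 * k) = 1 := by
    have : (a ^ k) ^ 2 = 1 := by rw [hak, one_pow]
    rw [h1, ← pow_mul, mul_comm k 2, pow_mul, neg_sq, ← pow_mul] at this
    exact this
  have h3 : l ^ (2 * k) = 1 := by exact_mod_cast h2
  have h4 : 1 < l ^ (2 * k) := Nat.one_lt_pow (by omega) (by omega)
  omega

theorem fieldC0 (K : Type u) [Field K] [CharZero K] (a b c : K)
    (ha : ∃ k : ℕ, 0 < k ∧ a ^ k = 1) (hb : ∃ k : ℕ, 0 < k ∧ b ^ k = 1)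
    (hc : ∃ k : ℕ, 0 < k ∧ c ^ k = 1)
    (h : ∀ l : ℕ, 2 ≤ l → ∃ n : ℕ, 0 < n ∧ ((b + l) ^ 2) ^ n = ((a + l) * (c + l)) ^ n) :
    a = b := by
  classical
  have hint : ∀ x : K, (∃ k : ℕ, 0 < k ∧ x ^ k = 1) → IsIntegral ℚ x := by
    rintro x ⟨k, hk, hx⟩
    refine ⟨X ^ k - C 1, monic_X_pow_sub_C 1 hk.ne', ?_⟩
    simp [hx]
  have hfd : FiniteDimensional ℚ (IntermediateField.adjoin ℚ ({a, b, c} : Set K)) := by
    apply IntermediateField.finiteDimensional_adjoin
    intro x hx
    rcases hx with rfl | rfl | rfl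
    · exact hint _ ha
    · exact hint _ hb
    · exact hint _ hc
  set L := IntermediateField.adjoin ℚ ({a, b, c} : Set K) with hL
  haveI : NumberField L := ⟨⟩
  have haL : a ∈ L := IntermediateField.subset_adjoin _ _ (by simp)
  have hbL : b ∈ L := IntermediateField.subset_adjoin _ _ (by simp)
  have hcL : c ∈ L := IntermediateField.subset_adjoin _ _ (by simp)
  have hfin := NumberField.Embeddings.finite_of_norm_le L ℂ 1
  have key : ∀ l : ℕ, ∃ r : {x : L | IsIntegral ℤ x ∧ ∀ φ : L →+* ℂ, ‖φ x‖ ≤ 1},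
      (b + ((l + 2 : ℕ) : K)) ^ 2 =
        ((r : L) : K) * ((a + ((l + 2 : ℕ) : K)) * (c + ((l + 2 : ℕ) : K))) := by
    intro l
    have hane := fieldC0_ne a ha (l + 2) (by omega)
    have hcne := fieldC0_ne c hc (l + 2) (by omega)
    obtain ⟨n, hn, hn2⟩ := h (l + 2) (by omega)
    have hne : (a + ((l + 2 : ℕ) : K)) * (c + ((l + 2 : ℕ) : K)) ≠ 0 := mul_ne_zero hane hcne
    set r : K := (b + ((l + 2 : ℕ) : K)) ^ 2 /
      ((a + ((l + 2 : ℕ) : K)) * (c + ((l + 2 : ℕ) : K))) with hr
    have hrn : r ^ n = 1 := by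
      rw [hr, div_pow, hn2, div_self (pow_ne_zero _ hne)]
    have hrL : r ∈ L := by
      have hlL : ((l + 2 : ℕ) : K) ∈ L := natCast_mem L _
      exact L.div_mem (_root_.pow_mem (L.add_mem hbL hlL) 2)
        (L.mul_mem (L.add_mem haL hlL) (L.add_mem hcL hlL))
    have hrn' : (⟨r, hrL⟩ : L) ^ n = 1 := Subtype.ext (by simpa using hrn)
    refine ⟨⟨⟨r, hrL⟩, ?_, ?_⟩, ?_⟩
    · refine ⟨X ^ n - C 1, monic_X_pow_sub_C 1 hn.ne', ?_⟩
      simp [hrn']
    · intro φ
      have h1 : (φ ⟨r, hrL⟩) ^ n = 1 := by rw [← map_pow, hrn', map_one]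
      have h2 : ‖φ ⟨r, hrL⟩‖ ^ n = 1 := by rw [← norm_pow, h1, norm_one]
      exact ((pow_eq_one_iff_of_nonneg (norm_nonneg _) hn.ne').1 h2).le
    · simp only
      rw [hr, div_mul_cancel₀ _ hne]
  choose f hf using key
  haveI : Finite {x : L | IsIntegral ℤ x ∧ ∀ φ : L →+* ℂ, ‖φ x‖ ≤ 1} := hfin
  obtain ⟨y, hy⟩ := Finite.exists_infinite_fiber f
  set P : K[X] := (X + C b) ^ 2 - C ((y : L) : K) * ((X + C a) * (X + C c)) with hP
  have hroot : Set.Infinite {x : K | IsRoot P x} := by
    have hinj : Function.Injective (fun l : ℕ => ((l + 2 : ℕ) : K)) := by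
      intro l m hlm
      have : l + 2 = m + 2 := Nat.cast_injective (R := K) hlm
      omega
    have h1 : Set.Infinite ((fun l : ℕ => ((l + 2 : ℕ) : K)) '' (f ⁻¹' {y})) :=
      (Set.infinite_coe_iff.1 hy).image hinj.injOn
    refine h1.mono ?_
    rintro _ ⟨l, hl, rfl⟩
    have hl' : f l = y := hl
    have h2 := hf l
    rw [hl'] at h2
    simp only [Set.mem_setOf_eq, IsRoot.def, hP, eval_sub, eval_mul, eval_pow, eval_add, eval_X,
      eval_C]
    rw [add_comm _ b, add_comm _ a, add_comm _ c, h2, sub_self]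
  have hP0 : P = 0 := Polynomial.eq_zero_of_infinite_isRoot P hroot
  have h5 : P.eval (-a) = 0 := by rw [hP0, eval_zero]
  simp only [hP, eval_sub, eval_mul, eval_pow, eval_add, eval_X, eval_C, neg_add_cancel, zero_mul,
    mul_zero, sub_zero] at h5
  have h6 : -a + b = 0 := pow_eq_zero_iff (two_ne_zero) |>.1 h5
  linear_combination -h6


theorem fieldCp (K : Type u) [Field K] (p : ℕ) (hp : p.Prime) [CharP K p] (a b c h : K)
    (ha : ∃ k : ℕ, 0 < k ∧ a ^ k = 1) (hb : ∃ k : ℕ, 0 < k ∧ b ^ k = 1)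
    (hc : ∃ k : ℕ, 0 < k ∧ c ^ k = 1)
    (hh : ∀ t : ℕ, 0 < t → h ^ t ≠ 1) (hh0 : h ≠ 0)
    (hr : ∃ n : ℕ, 0 < n ∧ ((b + h) ^ 2) ^ n = ((a + h) * (c + h)) ^ n) :
    a = b := by
  classical
  haveI : Fact p.Prime := ⟨hp⟩
  letI : Algebra (ZMod p) K := ZMod.algebra K p
  have hmem : ∀ y : K, (∃ k : ℕ, 0 < k ∧ y ^ k = 1) → y ∈ algebraicClosure (ZMod p) K := by
    rintro y ⟨k, hk, hy⟩
    rw [mem_algebraicClosure_iff]
    have h1 : IsIntegral (ZMod p) (y ^ k) := by
      rw [hy]; exact isIntegral_one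
    exact (IsIntegral.of_pow hk h1).isAlgebraic
  have hnot : h ∉ algebraicClosure (ZMod p) K := by
    intro hmem'
    rw [mem_algebraicClosure_iff] at hmem'
    haveI : FiniteDimensional (ZMod p) (IntermediateField.adjoin (ZMod p) {h}) :=
      IntermediateField.adjoin.finiteDimensional hmem'.isIntegral
    haveI : Finite (IntermediateField.adjoin (ZMod p) {h}) := Module.finite_of_finite (ZMod p)
    letI : Fintype (IntermediateField.adjoin (ZMod p) {h}) := Fintype.ofFinite _
    have hx : (⟨h, IntermediateField.mem_adjoin_simple_self (ZMod p) h⟩ :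
        IntermediateField.adjoin (ZMod p) {h}) ≠ 0 := by
      intro h0
      exact hh0 (congrArg Subtype.val h0)
    have h2 := FiniteField.pow_card_sub_one_eq_one _ hx
    have h3 := congrArg Subtype.val h2
    have h4 : h ^ (Fintype.card (IntermediateField.adjoin (ZMod p) {h}) - 1) = 1 := by
      simpa using h3
    refine hh _ ?_ h4
    have := Fintype.one_lt_card (α := IntermediateField.adjoin (ZMod p) {h})
    omega
  have key : ∀ α β γ : algebraicClosure (ZMod p) K,
      (α : K) * h ^ 2 + (β : K) * h + (γ : K) = 0 → α = 0 ∧ β = 0 ∧ γ = 0 := by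
    intro α β γ he
    by_contra hne
    apply hnot
    rw [mem_algebraicClosure_iff]
    have h1 : IsAlgebraic (algebraicClosure (ZMod p) K) h := by
      refine ⟨C α * X ^ 2 + C β * X + C γ, ?_, ?_⟩
      · intro h0
        apply hne
        refine ⟨?_, ?_, ?_⟩
        · have := congrArg (fun q => q.coeff 2) h0
          simpa [coeff_X, coeff_C] using this
        · have := congrArg (fun q => q.coeff 1) h0
          simpa [coeff_X, coeff_C] using this
        · have := congrArg (fun q => q.coeff 0) h0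
          simpa [coeff_X, coeff_C] using this
      · simpa [aeval_def] using he
    exact IsAlgebraic.restrictScalars (ZMod p) h1
  have hA := hmem a ha
  have hB := hmem b hb
  have hC := hmem c hc
  have hah : a + h ≠ 0 := by
    intro h0
    apply hnot
    have : h = -a := by linear_combination h0
    rw [this]
    exact neg_mem hA
  have hch : c + h ≠ 0 := by
    intro h0
    apply hnot
    have : h = -c := by linear_combination h0
    rw [this]
    exact neg_mem hC
  obtain ⟨n, hn, hr⟩ := hr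
  have hac : (a + h) * (c + h) ≠ 0 := mul_ne_zero hah hch
  set r : K := (b + h) ^ 2 / ((a + h) * (c + h)) with hrdef
  have hrn : r ^ n = 1 := by
    rw [hrdef, div_pow, hr, div_self (pow_ne_zero _ hac)]
  have hR := hmem r ⟨n, hn, hrn⟩
  have heq : (b + h) ^ 2 = r * ((a + h) * (c + h)) := by
    rw [hrdef, div_mul_cancel₀ _ hac]
  have hk := key (1 - ⟨r, hR⟩) (⟨b, hB⟩ + ⟨b, hB⟩ - ⟨r, hR⟩ * (⟨a, hA⟩ + ⟨c, hC⟩))
    (⟨b, hB⟩ ^ 2 - ⟨r, hR⟩ * (⟨a, hA⟩ * ⟨c, hC⟩)) (by
      push_cast
      linear_combination heq)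
  obtain ⟨k1, k2, k3⟩ := hk
  have k1' := congrArg Subtype.val k1
  have k2' := congrArg Subtype.val k2
  have k3' := congrArg Subtype.val k3
  push_cast at k1' k2' k3'
  have hr1 : r = 1 := by linear_combination -k1'
  rw [hr1] at k2' k3'
  have hsq : (a - b) ^ 2 = 0 := by
    linear_combination (-a) * k2' + k3'
  exact sub_eq_zero.mp (pow_eq_zero_iff (by norm_num) |>.mp hsq)


theorem hC0 (D : Type u) [DivisionRing D] (H : HH D) [CharZero D] (w x : D) (hx : x ≠ 0)
    (k : ℕ) (hk : 0 < k) (hw : w ^ k = 1) (j : ℕ) (hj : x * w = w ^ j * x) : w ^ j = w := by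
  obtain ⟨K, hK, f, hf, -⟩ := exField D {w} (by
    intro a ha b hb
    rw [Set.mem_singleton_iff.mp ha, Set.mem_singleton_iff.mp hb])
  obtain ⟨z, hz⟩ := hf w rfl
  have hinj : Function.Injective f := f.injective
  have : CharZero K := f.charZero
  have hzk : z ^ k = 1 := by
    apply hinj
    rw [map_pow, hz, hw, map_one]
  have hxi : ∀ i : ℕ, x * w ^ i = w ^ (j * i) * x := by
    intro i
    induction i with
    | zero => simp
    | succ i ih =>
      rw [pow_succ, ← mul_assoc, ih, mul_assoc, hj, ← mul_assoc, ← pow_add, mul_add, mul_one]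
  have hne : ∀ (u : K), u ^ k = 1 → ∀ l : ℕ, 2 ≤ l → u + l ≠ 0 := by
    intro u hu l hl h0
    have h1 : u = -(l : K) := eq_neg_of_add_eq_zero_left h0
    rw [h1] at hu
    have h2 : ((-(l : ℤ)) ^ k : ℤ) = 1 := by
      have : (((-(l : ℤ)) ^ k : ℤ) : K) = ((1 : ℤ) : K) := by push_cast; exact hu
      exact_mod_cast this
    have h3 := congrArg Int.natAbs h2
    rw [Int.natAbs_pow, Int.natAbs_neg, Int.natAbs_natCast, Int.natAbs_one] at h3
    have h4 : l = 1 := (Nat.pow_eq_one.mp h3).resolve_right hk.ne'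
    omega
  have hpow : ∀ i : ℕ, (z ^ i) ^ k = 1 := by
    intro i
    rw [← pow_mul, mul_comm, pow_mul, hzk, one_pow]
  have key : z = z ^ j := by
    refine fieldC0 K z (z ^ j) (z ^ (j * j)) ⟨k, hk, hzk⟩ ⟨k, hk, hpow j⟩ ⟨k, hk, hpow (j * j)⟩ ?_
    intro l hl
    have hz0 : z + l ≠ 0 := hne z hzk l hl
    have hz1 : z ^ j + l ≠ 0 := hne _ (hpow j) l hl
    have hfz : f (z + l) = w + l := by rw [map_add, hz, map_natCast]
    have hfz1 : f (z ^ j + l) = w ^ j + l := by rw [map_add, map_pow, hz, map_natCast]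
    have hfz2 : f (z ^ (j * j) + l) = w ^ (j * j) + l := by rw [map_add, map_pow, hz, map_natCast]
    have hw0 : w + (l : D) ≠ 0 := by
      rw [← hfz]; exact (map_ne_zero f).mpr hz0
    have hw1 : w ^ j + (l : D) ≠ 0 := by
      rw [← hfz1]; exact (map_ne_zero f).mpr hz1
    obtain ⟨n, hn, hc⟩ := H x (w + l) hx hw0
    have hcx : ∀ i : ℕ, x * (w ^ i + l) = (w ^ (j * i) + l) * x := by
      intro i
      rw [mul_add, add_mul, hxi, (Nat.cast_commute l x).eq]
    have e1 : x * (w + l) * x⁻¹ = w ^ j + l := by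
      have := hcx 1
      rw [pow_one, mul_one] at this
      rw [this, mul_assoc, mul_inv_cancel₀ hx, mul_one]
    have e2 : x * (w ^ j + l) * x⁻¹ = w ^ (j * j) + l := by
      rw [hcx j, mul_assoc, mul_inv_cancel₀ hx, mul_one]
    rw [e1] at hc
    have e3 : x * ((w ^ j + l) * (w + (l : D))⁻¹) * x⁻¹ = (w ^ (j * j) + l) * (w ^ j + (l : D))⁻¹ := by
      rw [← e2]
      nth_rewrite 3 [← e1]
      rw [mul_inv_rev, mul_inv_rev, inv_inv]
      simp only [mul_assoc]
      rw [inv_mul_cancel_left₀ hx]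
    have e4 : x * ((w ^ j + l) * (w + (l : D))⁻¹) ^ n * x⁻¹ =
        (x * ((w ^ j + l) * (w + (l : D))⁻¹) * x⁻¹) ^ n := by
      generalize (w ^ j + l) * (w + (l : D))⁻¹ = y
      clear * - hx
      induction n with
      | zero => simp [hx]
      | succ n ih =>
        rw [pow_succ (x * y * x⁻¹), ← ih, pow_succ]
        simp only [mul_assoc]
        rw [inv_mul_cancel_left₀ hx]
    have e5 : x * ((w ^ j + l) * (w + (l : D))⁻¹) ^ n * x⁻¹ = ((w ^ j + l) * (w + (l : D))⁻¹) ^ n := by
      have := (Subring.mem_center_iff.mp hc) x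
      rw [this, mul_assoc, mul_inv_cancel₀ hx, mul_one]
    have e6 : ((w ^ (j * j) + l) * (w ^ j + (l : D))⁻¹) ^ n = ((w ^ j + l) * (w + (l : D))⁻¹) ^ n := by
      rw [← e3, ← e4, e5]
    have e7 : ((z ^ (j * j) + l) * (z ^ j + (l : K))⁻¹) ^ n = ((z ^ j + l) * (z + (l : K))⁻¹) ^ n := by
      apply hinj
      rw [map_pow, map_pow, map_mul, map_mul, map_inv₀, map_inv₀, hfz, hfz1, hfz2]
      exact e6
    refine ⟨n, hn, ?_⟩
    have h1 : (z ^ j + (l : K)) * ((z ^ j + (l : K)) * (z + (l : K))) ≠ 0 := by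
      exact mul_ne_zero hz1 (mul_ne_zero hz1 hz0)
    have h2 : ((z ^ j + (l : K)) ^ 2) ^ n = (((z ^ j + l) * (z + (l : K))⁻¹) * ((z ^ j + l) * (z + l))) ^ n := by
      congr 1
      field_simp
    have h3 : ((z + (l : K)) * (z ^ (j * j) + l)) ^ n =
        (((z ^ (j * j) + l) * (z ^ j + (l : K))⁻¹) * ((z ^ j + l) * (z + l))) ^ n := by
      congr 1
      field_simp
    rw [h2, h3, mul_pow ((z ^ j + l) * (z + (l : K))⁻¹), mul_pow ((z ^ (j * j) + l) * (z ^ j + (l : K))⁻¹), e7]
  rw [← hz, ← map_pow, ← key]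


theorem hCp_semi {D : Type u} [DivisionRing D] {w x : D} {j : ℕ} (hj : x * w = w ^ j * x)
    (b c : ℕ) : x ^ b * w ^ c = w ^ (c * j ^ b) * x ^ b := by
  have h : SemiconjBy x w (w ^ j) := hj
  induction b with
  | zero => simp
  | succ b ih =>
    have h2 : x * w ^ (c * j ^ b) = (w ^ j) ^ (c * j ^ b) * x := h.pow_right _
    calc x ^ (b + 1) * w ^ c = x * (x ^ b * w ^ c) := by rw [pow_succ', mul_assoc]
      _ = x * w ^ (c * j ^ b) * x ^ b := by rw [ih, mul_assoc]
      _ = w ^ (c * j ^ (b + 1)) * x ^ (b + 1) := by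
        rw [h2, ← pow_mul, mul_assoc, ← pow_succ']
        congr 2
        ring

theorem hCp_fin {D : Type u} [DivisionRing D] (p : ℕ) (hp : p.Prime) [CharP D p] {w x : D} {j : ℕ}
    (hj : x * w = w ^ j * x) (k m : ℕ) (hk : 0 < k) (hm : 0 < m) (hw : w ^ k = 1)
    (hxm : x ^ m = 1) : w * x = x * w := by
  classical
  have : Fact p.Prime := ⟨hp⟩
  letI : Algebra (ZMod p) D := ZMod.algebra D p
  let M : Submonoid D :=
    { carrier := {g | ∃ a b : ℕ, g = w ^ a * x ^ b}
      one_mem' := ⟨0, 0, by simp⟩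
      mul_mem' := by
        rintro _ _ ⟨a, b, rfl⟩ ⟨c, d, rfl⟩
        refine ⟨a + c * j ^ b, b + d, ?_⟩
        calc w ^ a * x ^ b * (w ^ c * x ^ d) = w ^ a * (x ^ b * w ^ c) * x ^ d := by
              simp only [mul_assoc]
          _ = w ^ (a + c * j ^ b) * x ^ (b + d) := by
              rw [hCp_semi hj, pow_add, pow_add]; simp only [mul_assoc] }
  have hMf : (M : Set D).Finite := by
    refine ((Finset.range k ×ˢ Finset.range m).image fun q => w ^ q.1 * x ^ q.2).finite_toSet.subset ?_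
    rintro _ ⟨a, b, rfl⟩
    simp only [Finset.coe_image, Set.mem_image, Finset.mem_coe, Finset.mem_product,
      Finset.mem_range, Prod.exists]
    refine ⟨a % k, b % m, ⟨Nat.mod_lt _ hk, Nat.mod_lt _ hm⟩, ?_⟩
    rw [← pow_eq_pow_mod a hw, ← pow_eq_pow_mod b hxm]
  let A := Algebra.adjoin (ZMod p) ({w, x} : Set D)
  have hcl : (Submonoid.closure ({w, x} : Set D) : Set D) ⊆ M := by
    have : Submonoid.closure ({w, x} : Set D) ≤ M := by
      rw [Submonoid.closure_le]
      rintro g (rfl | rfl)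
      · exact ⟨1, 0, by simp⟩
      · exact ⟨0, 1, by simp⟩
    exact this
  have hfm : (Subalgebra.toSubmodule A).FG := by
    rw [Algebra.adjoin_eq_span]
    exact Submodule.fg_span (hMf.subset hcl)
  haveI : Module.Finite (ZMod p) (Subalgebra.toSubmodule A) := Module.Finite.iff_fg.2 hfm
  haveI hfin : Finite (Subalgebra.toSubmodule A) := Module.finite_of_finite (ZMod p)
  haveI : Finite A := hfin
  haveI : IsDomain A := inferInstance
  have hF : IsField A := Finite.isDomain_to_isField A
  have hwA : w ∈ A := Algebra.subset_adjoin (by simp)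
  have hxA : x ∈ A := Algebra.subset_adjoin (by simp)
  have := hF.mul_comm ⟨w, hwA⟩ ⟨x, hxA⟩
  exact congrArg Subtype.val this

theorem hCp (D : Type u) [DivisionRing D] (H : HH D) (p : ℕ) (hp : p.Prime) [CharP D p]
    (w x : D) (hx : x ≠ 0)
    (k : ℕ) (hk : 0 < k) (hw : w ^ k = 1) (j : ℕ) (hj : x * w = w ^ j * x) : w ^ j = w := by
  have hw0 : w ≠ 0 := by
    rintro rfl
    rw [zero_pow hk.ne'] at hw
    exact zero_ne_one hw
  -- pigeonhole
  obtain ⟨s1, s2, hs, he⟩ : ∃ s1 s2 : ℕ, s1 < s2 ∧ w ^ (j ^ s1) = w ^ (j ^ s2) := by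
    have hmaps : ∀ s ∈ Finset.range (k + 1), (j ^ s) % k ∈ Finset.range k := fun s _ =>
      Finset.mem_range.2 (Nat.mod_lt _ hk)
    obtain ⟨a, _, b, _, hab, h⟩ := Finset.exists_ne_map_eq_of_card_lt_of_maps_to
      (by simp) hmaps
    have h' : w ^ (j ^ a) = w ^ (j ^ b) := by
      rw [pow_eq_pow_mod _ hw, h, ← pow_eq_pow_mod _ hw]
    rcases lt_or_gt_of_ne hab with h2 | h2
    · exact ⟨a, b, h2, h'⟩
    · exact ⟨b, a, h2, h'.symm⟩
  obtain ⟨s, hs0, hcomm⟩ : ∃ s : ℕ, 0 < s ∧ x ^ s * w = w * x ^ s := by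
    refine ⟨s2 - s1, by omega, ?_⟩
    have e1 := hCp_semi hj s1 1
    have e2 := hCp_semi hj s2 1
    rw [pow_one, one_mul] at e1 e2
    have hx1 : x ^ s1 ≠ 0 := pow_ne_zero _ hx
    apply mul_left_cancel₀ hx1
    have e3 : x ^ s2 = x ^ s1 * x ^ (s2 - s1) := by rw [← pow_add]; congr 1; omega
    rw [← mul_assoc, ← e3, e2, ← he, e3, ← mul_assoc, ← e1, mul_assoc]
  set h := x ^ s with hh
  have hh0 : h ≠ 0 := pow_ne_zero _ hx
  have hxh : x * h = h * x := by rw [hh, ← pow_succ', ← pow_succ]
  by_cases hc : ∀ t : ℕ, 0 < t → h ^ t ≠ 1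
  · obtain ⟨K, _, f, hS, -⟩ := exField D {w, h} (by
      rintro a (rfl | rfl) b (rfl | rfl)
      · rfl
      · exact hcomm.symm
      · exact hcomm
      · rfl)
    obtain ⟨z, hz⟩ := hS w (by simp)
    obtain ⟨y, hy⟩ := hS h (by simp)
    have finj : Function.Injective f := f.injective
    haveI : CharP K p := f.charP finj p
    have hzk : z ^ k = 1 := finj (by rw [map_pow, hz, hw, map_one])
    have hy0 : y ≠ 0 := by rintro rfl; rw [map_zero] at hy; exact hh0 hy.symm
    have hyt : ∀ t : ℕ, 0 < t → y ^ t ≠ 1 := fun t ht h1 => hc t ht (by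
      rw [← hy, ← map_pow, h1, map_one])
    -- sums are nonzero
    have hne : ∀ i : ℕ, z ^ i + y ≠ 0 := by
      intro i h0
      have e : y = - z ^ i := by linear_combination h0
      refine hyt (2 * k) (by omega) ?_
      rw [e, pow_mul, neg_sq, ← pow_mul, ← pow_mul,
        show i * (2 * k) = k * (2 * i) by ring, pow_mul, hzk, one_pow]
    have hwz : ∀ i : ℕ, w ^ i + h = f (z ^ i + y) := fun i => by
      rw [map_add, map_pow, hz, hy]
    have hxc : ∀ i : ℕ, x * (w ^ i + h) = (w ^ (i * j) + h) * x := by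
      intro i
      have := hCp_semi hj 1 i
      rw [pow_one, pow_one] at this
      rw [mul_add, add_mul, this, hxh]
    obtain ⟨n, hn, hcen⟩ := H x (w ^ 1 + h) hx (by
      rw [hwz]; exact fun h0 => hne 1 (finj (by rw [h0, map_zero])))
    have hq : x * (w ^ 1 + h) * x⁻¹ * (w ^ 1 + h)⁻¹ = f ((z ^ j + y) * (z ^ 1 + y)⁻¹) := by
      rw [hxc, mul_assoc _ x, mul_inv_cancel₀ hx, mul_one, one_mul, map_mul, map_inv₀, ← hwz, ← hwz]
    rw [hq, ← map_pow, Subring.mem_center_iff] at hcen
    have hc1 := hcen x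
    -- conjugation of the quotient
    have hconj : x * f ((z ^ j + y) * (z ^ 1 + y)⁻¹) =
        f ((z ^ (j * j) + y) * (z ^ j + y)⁻¹) * x := by
      have e1 : x * f (z ^ j + y) = f (z ^ (j * j) + y) * x := by
        rw [← hwz, ← hwz]; exact hxc j
      have e2 : x * f (z ^ 1 + y) = f (z ^ j + y) * x := by
        rw [← hwz, ← hwz]
        have := hxc 1
        rwa [one_mul] at this
      have hn1 : f (z ^ 1 + y) ≠ 0 := fun h0 => hne 1 (finj (by rw [h0, map_zero]))
      have hnj : f (z ^ j + y) ≠ 0 := fun h0 => hne j (finj (by rw [h0, map_zero]))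
      have e3 : x * (f (z ^ 1 + y))⁻¹ = (f (z ^ j + y))⁻¹ * x := by
        rw [eq_inv_mul_iff_mul_eq₀ hnj, ← mul_assoc, ← e2, mul_assoc, mul_inv_cancel₀ hn1, mul_one]
      rw [map_mul, map_mul, map_inv₀, map_inv₀, ← mul_assoc, e1, mul_assoc, e3, mul_assoc]
    have hsc : SemiconjBy x (f ((z ^ j + y) * (z ^ 1 + y)⁻¹))
        (f ((z ^ (j * j) + y) * (z ^ j + y)⁻¹)) := hconj
    have hscn := (hsc.pow_right n).eq
    rw [← map_pow, ← map_pow, hc1] at hscn
    have hfin := finj (mul_right_cancel₀ hx hscn)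
    have hres := fieldCp K p hp z (z ^ j) (z ^ (j * j)) y ⟨k, hk, hzk⟩
      ⟨k, hk, by rw [← pow_mul, mul_comm, pow_mul, hzk, one_pow]⟩
      ⟨k, hk, by rw [← pow_mul, mul_comm, pow_mul, hzk, one_pow]⟩ hyt hy0 ⟨n, hn, ?_⟩
    · rw [← hz, ← map_pow, ← hres]
    · have h1 := hne 1
      have h2 := hne j
      rw [pow_one] at h1 hfin
      have h1n : (z + y) ^ n ≠ 0 := pow_ne_zero _ h1
      have h2n : (z ^ j + y) ^ n ≠ 0 := pow_ne_zero _ h2
      rw [mul_pow, mul_pow, inv_pow, inv_pow] at hfin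
      rw [mul_pow, ← pow_mul, mul_comm 2 n, pow_mul]
      field_simp at hfin
      first
        | linear_combination hfin
        | linear_combination -hfin
  · push Not at hc
    obtain ⟨t, ht, hht⟩ := hc
    have hxm : x ^ (s * t) = 1 := by rw [pow_mul]; exact hht
    have hwx := hCp_fin p hp hj k (s * t) hk (Nat.mul_pos hs0 ht) hw hxm
    rw [← hwx] at hj
    exact (mul_right_cancel₀ hx hj).symm


theorem hR (D : Type u) [DivisionRing D] (H : HH D) : RR D := by
  intro w k hk hw
  by_contra hnc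
  obtain ⟨x, hx, j, hj, hne⟩ := hB D w k hk hw hnc
  obtain ⟨q, hq⟩ := CharP.exists D
  rcases CharP.char_is_prime_or_zero D q with hp | h0
  · exact hne (hCp D H q hp w x hx k hk hw j hj)
  · subst h0
    haveI : CharZero D := CharP.charP_to_charZero D
    exact hne (hC0 D H w x hx k hk hw j hj)

theorem eig (D : Type u) [DivisionRing D] (p : ℕ) (hp : p.Prime) (z : D)
    (hz : z ∈ Subring.center D) (hzp : z ^ p = 1) (hz1 : z ≠ 1) (v : D)
    (hv : v ^ p ∈ Subring.center D) (hnc : v ∉ Subring.center D) :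
    ∃ x : D, x ≠ 0 ∧ ∃ e : D, e ∈ Subring.center D ∧ e ^ p = 1 ∧ e ≠ 1 ∧ v * x = e * x * v := by
  haveI : Fact p.Prime := ⟨hp⟩
  have hzc : ∀ g : D, g * z = z * g := Subring.mem_center_iff.1 hz
  have hvc : ∀ g : D, g * v ^ p = v ^ p * g := Subring.mem_center_iff.1 hv
  have hv0 : v ≠ 0 := by
    rintro rfl
    exact hnc (Subring.zero_mem _)
  have hord : orderOf z = p := orderOf_eq_prime hzp hz1
  have hzk : ∀ k : ℕ, 0 < k → k < p → z ^ k ≠ 1 := by
    intro k hk hkp h
    have h1 := orderOf_dvd_of_pow_eq_one h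
    rw [hord] at h1
    exact absurd (Nat.le_of_dvd hk h1) (not_le.2 hkp)
  have hzkc : ∀ (k : ℕ) (g : D), g * z ^ k = z ^ k * g := by
    intro k g
    exact (Commute.pow_right (show Commute g z from hzc g) k).eq
  -- the prime is invertible
  have hp0 : (p : D) ≠ 0 := by
    intro h
    haveI : CharP D p := (CharP.charP_iff_prime_eq_zero hp).2 h
    have h1 : (z - 1) ^ p = z ^ p - 1 ^ p := sub_pow_char_of_commute p (Commute.one_right z)
    rw [hzp, one_pow, sub_self] at h1
    have h2 := pow_eq_zero_iff hp.ne_zero |>.1 h1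
    exact hz1 (sub_eq_zero.1 h2)
  -- an element not commuting with v
  obtain ⟨a, ha⟩ : ∃ a : D, a * v ≠ v * a := by
    by_contra hcon
    push Not at hcon
    exact hnc (Subring.mem_center_iff.2 hcon)
  set S : ℕ → D := fun k => v ^ k * a * (v ^ k)⁻¹ with hS
  have hS0 : S 0 = a := by simp [hS]
  have hSp : S p = a := by
    have h1 : v ^ p ≠ 0 := pow_ne_zero _ hv0
    simp only [hS]
    rw [← hvc a, mul_assoc, mul_inv_cancel₀ h1, mul_one]
  have hSs : ∀ k, v * S k * v⁻¹ = S (k + 1) := by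
    intro k
    simp only [hS]
    rw [pow_succ' v k, mul_inv_rev]
    simp only [mul_assoc]
  set X : ℕ → D := fun i => ∑ k ∈ Finset.range p, z ^ (i * k) * S k with hX
  have hXe : ∀ i, z ^ i * (v * X i * v⁻¹) = X i := by
    intro i
    have h1 : z ^ i * (v * X i * v⁻¹) = ∑ k ∈ Finset.range p, z ^ (i * (k + 1)) * S (k + 1) := by
      simp only [hX]
      rw [Finset.mul_sum, Finset.sum_mul, Finset.mul_sum]
      apply Finset.sum_congr rfl
      intro k _
      rw [← hSs k, mul_add, mul_one, pow_add]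
      have h2 : v * (z ^ (i * k) * S k) * v⁻¹ = z ^ (i * k) * (v * S k * v⁻¹) := by
        rw [← mul_assoc v, hzkc (i * k) v]
        simp only [mul_assoc]
      rw [h2, ← mul_assoc, ← pow_add, ← pow_add, add_comm i (i * k)]
    rw [h1]
    have h3 := Finset.sum_range_succ' (fun k => z ^ (i * k) * S k) p
    have h4 := Finset.sum_range_succ (fun k => z ^ (i * k) * S k) p
    rw [h3] at h4
    have h5 : z ^ (i * p) * S p = z ^ (i * 0) * S 0 := by
      rw [hSp, hS0, mul_comm i p, pow_mul, hzp, one_pow, mul_zero, pow_zero]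
    rw [h5] at h4
    exact add_right_cancel h4
  by_cases hex : ∃ i, 0 < i ∧ i < p ∧ X i ≠ 0
  · obtain ⟨i, hi0, hip, hXi⟩ := hex
    refine ⟨X i, hXi, z ^ (p - i), Subring.pow_mem _ hz _, ?_, hzk _ (by omega) (by omega), ?_⟩
    · rw [← pow_mul, mul_comm, pow_mul, hzp, one_pow]
    · have h1 := hXe i
      have h2 : z ^ (p - i) * z ^ i = 1 := by
        rw [← pow_add, Nat.sub_add_cancel hip.le, hzp]
      have h3 : v * X i * v⁻¹ = z ^ (p - i) * X i := by
        calc v * X i * v⁻¹ = (z ^ (p - i) * z ^ i) * (v * X i * v⁻¹) := by rw [h2, one_mul]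
          _ = z ^ (p - i) * (z ^ i * (v * X i * v⁻¹)) := by rw [mul_assoc]
          _ = _ := by rw [h1]
      calc v * X i = v * X i * v⁻¹ * v := by rw [mul_assoc (v * X i), inv_mul_cancel₀ hv0, mul_one]
        _ = z ^ (p - i) * X i * v := by rw [h3]
  · exfalso
    push Not at hex
    have h1 : ∑ i ∈ Finset.range p, X i = X 0 := by
      rw [Finset.sum_eq_single 0]
      · intro i hi hi0
        exact hex i (Nat.pos_of_ne_zero hi0) (Finset.mem_range.1 hi)
      · intro h
        exact absurd (Finset.mem_range.2 hp.pos) h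
    have h2 : ∑ i ∈ Finset.range p, X i = (p : D) * a := by
      simp only [hX]
      rw [Finset.sum_comm, Finset.sum_eq_single 0]
      · simp [hS0]
      · intro k hk hk0
        rw [← Finset.sum_mul]
        have h3 : (∑ i ∈ Finset.range p, z ^ (i * k)) = 0 := by
          have h4 : (∑ i ∈ Finset.range p, (z ^ k) ^ i) * (z ^ k - 1) = (z ^ k) ^ p - 1 :=
            geom_sum_mul (z ^ k) p
          rw [← pow_mul, mul_comm k p, pow_mul, hzp, one_pow, sub_self] at h4
          have h5 : z ^ k - 1 ≠ 0 :=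
            sub_ne_zero.2 (hzk k (Nat.pos_of_ne_zero hk0) (Finset.mem_range.1 hk))
          have h6 := (mul_eq_zero.1 h4).resolve_right h5
          rw [← h6]
          apply Finset.sum_congr rfl
          intro i _
          rw [← pow_mul, mul_comm]
        rw [h3, zero_mul]
      · intro h
        exact absurd (Finset.mem_range.2 hp.pos) h
    have h3 := hXe 0
    rw [pow_zero, one_mul, ← h1, h2] at h3
    have h6 : v * ((p : D) * a) * v⁻¹ = (p : D) * (v * a * v⁻¹) := by
      rw [← mul_assoc v, ← (Nat.cast_commute p v).eq]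
      simp only [mul_assoc]
    have h4 : (p : D) * (v * a * v⁻¹) = (p : D) * a := by
      rw [← h6]; exact h3
    have h5 := mul_left_cancel₀ hp0 h4
    apply ha
    calc a * v = v * a * v⁻¹ * v := by rw [h5]
      _ = v * a := by rw [mul_assoc (v * a), inv_mul_cancel₀ hv0, mul_one]


theorem eF_transfer (D : Type u) [DivisionRing D] (x e om : D) (he : e ∈ Subring.center D)
    (hom : om ∈ Subring.center D) :
    ∃ (R0 : Type u) (_ : CommRing R0) (_ : IsDomain R0) (f : R0 →+* D),
      Function.Injective f ∧ ∃ x' e' om' : R0, f x' = x ∧ f e' = e ∧ f om' = om := by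
  have hcomm : ∀ a ∈ ({x, e, om} : Set D), ∀ b ∈ ({x, e, om} : Set D), a * b = b * a := by
    have h1 : ∀ g : D, g * e = e * g := Subring.mem_center_iff.mp he
    have h2 : ∀ g : D, g * om = om * g := Subring.mem_center_iff.mp hom
    intro a ha b hb
    simp only [Set.mem_insert_iff, Set.mem_singleton_iff] at ha hb
    rcases ha with rfl | rfl | rfl <;> rcases hb with rfl | rfl | rfl <;>
      first
      | rfl
      | exact h1 _
      | exact h2 _
      | exact (h1 _).symm
      | exact (h2 _).symm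
  let : CommRing (Subring.closure ({x, e, om} : Set D)) :=
    Subring.closureCommRingOfComm hcomm
  refine ⟨Subring.closure ({x, e, om} : Set D), inferInstance, ?_,
    (Subring.closure ({x, e, om} : Set D)).subtype, Subtype.val_injective,
    ⟨x, Subring.subset_closure (by simp)⟩, ⟨e, Subring.subset_closure (by simp)⟩,
    ⟨om, Subring.subset_closure (by simp)⟩, rfl, rfl, rfl⟩
  exact (inferInstance : IsDomain (Subring.closure ({x, e, om} : Set D)))

theorem eF_comm {R0 : Type u} [CommRing R0] [IsDomain R0] (x e om : R0) (hx : x ≠ 0)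
    (he0 : e ≠ 0) (he1 : e ≠ 1) (hee : e * e ≠ 1)
    (h1 : (e * (e * x) + 1) * (x + 1) = om * ((e * x + 1) * (e * x + 1)))
    (h2 : (e * (e * (e * x)) + 1) * (e * x + 1) =
      om * ((e * (e * x) + 1) * (e * (e * x) + 1)))
    (h3 : (e * (e * (e * (e * x))) + 1) * (e * (e * x) + 1) =
      om * ((e * (e * (e * x)) + 1) * (e * (e * (e * x)) + 1))) : False := by
  have he1' : 1 - e ≠ 0 := fun h => he1 (by linear_combination -h)
  have hee' : 1 - e * e ≠ 0 := fun h => hee (by linear_combination -h)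
  have k1 : (e ^ 2 * (1 - om)) * x * (1 + e) + (e ^ 2 + 1 - 2 * om * e) = 0 := by
    have : x * (1 - e) * ((e ^ 2 * (1 - om)) * x * (1 + e) + (e ^ 2 + 1 - 2 * om * e)) = 0 := by
      linear_combination h1 - h2
    rcases mul_eq_zero.mp this with h | h
    · exact absurd h (mul_ne_zero hx he1')
    · exact h
  have k2 : (e ^ 2 * (1 - om)) * (e * x) * (1 + e) + (e ^ 2 + 1 - 2 * om * e) = 0 := by
    have : e * x * (1 - e) *
        ((e ^ 2 * (1 - om)) * (e * x) * (1 + e) + (e ^ 2 + 1 - 2 * om * e)) = 0 := by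
      linear_combination h2 - h3
    rcases mul_eq_zero.mp this with h | h
    · exact absurd h (mul_ne_zero (mul_ne_zero he0 hx) he1')
    · exact h
  have k3 : 1 - om = 0 := by
    have : (e ^ 2 * x * (1 - e * e)) * (1 - om) = 0 := by
      linear_combination k1 - k2
    rcases mul_eq_zero.mp this with h | h
    · exact absurd h (mul_ne_zero (mul_ne_zero (pow_ne_zero 2 he0) hx) hee')
    · exact h
  have k4 : (1 - e) * (1 - e) = 0 := by
    linear_combination k1 - (e ^ 2 * x * (1 + e)) * k3 - 2 * e * k3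
  rcases mul_eq_zero.mp k4 with h | h <;> exact he1' h

theorem eigFalse (D : Type u) [DivisionRing D] (H : HH D) (R : RR D) (v x e : D) (hv : v ≠ 0)
    (hx : x ≠ 0) (he : e ∈ Subring.center D) (he0 : e ≠ 0) (he1 : e ≠ 1)
    (h : v * x = e * x * v) : False := by
  have ec : ∀ g : D, g * e = e * g := Subring.mem_center_iff.mp he
  let σ : D →+* D :=
    { toFun := fun y => v * y * v⁻¹
      map_one' := by simp [hv]
      map_zero' := by simp
      map_add' := by intro a b; simp only [mul_add, add_mul]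
      map_mul' := by
        intro a b
        have : v⁻¹ * v = 1 := inv_mul_cancel₀ hv
        calc v * (a * b) * v⁻¹ = v * a * 1 * b * v⁻¹ := by noncomm_ring
          _ = v * a * (v⁻¹ * v) * b * v⁻¹ := by rw [this]
          _ = v * a * v⁻¹ * (v * b * v⁻¹) := by noncomm_ring }
  have σdef : ∀ y, σ y = v * y * v⁻¹ := fun y => rfl
  have σx : σ x = e * x := by
    rw [σdef, h, mul_assoc, mul_inv_cancel₀ hv, mul_one]
  have σc : ∀ z ∈ Subring.center D, σ z = z := by
    intro z hz
    rw [σdef, Subring.mem_center_iff.mp hz v, mul_assoc, mul_inv_cancel₀ hv, mul_one]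
  have σe : σ e = e := σc e he
  set A := x + 1 with hA
  set B := e * x + 1 with hB
  set C := e * (e * x) + 1 with hC
  have σA : σ A = B := by rw [hA, map_add, σx, map_one]
  have σB : σ B = C := by rw [hB, map_add, map_mul, σx, map_one, σe]
  have A0 : A ≠ 0 := by
    intro h0
    have hx1 : x = -1 := eq_neg_of_add_eq_zero_left h0
    have h1 : e * x = x := by
      rw [← σx, hx1, map_neg, map_one]
    exact he1 (mul_right_cancel₀ hx (by rw [h1, one_mul]))
  have B0 : B ≠ 0 := by
    rw [← σA]; exact (map_ne_zero σ).mpr A0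
  have C0 : C ≠ 0 := by
    rw [← σB]; exact (map_ne_zero σ).mpr B0
  have exc : Commute (e * x) x := by
    change e * x * x = x * (e * x)
    rw [← mul_assoc x e x, ec x]
  have eexc : Commute (e * (e * x)) x := by
    change e * (e * x) * x = x * (e * (e * x))
    rw [← mul_assoc x e (e * x), ec x, mul_assoc e (e * x) x, exc.eq, mul_assoc e x]
  have eexc2 : Commute (e * (e * x)) (e * x) := by
    change e * (e * x) * (e * x) = e * x * (e * (e * x))
    have := ec (e * x)
    calc e * (e * x) * (e * x) = ((e * x) * e) * (e * x) := by rw [this]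
      _ = e * x * (e * (e * x)) := by rw [mul_assoc (e * x) e (e * x)]
  have cBA : Commute B A :=
    (exc.add_right (Commute.one_right _)).add_left (Commute.one_left _)
  have cCA : Commute C A :=
    (eexc.add_right (Commute.one_right _)).add_left (Commute.one_left _)
  have cCB : Commute C B :=
    (eexc2.add_right (Commute.one_right _)).add_left (Commute.one_left _)
  obtain ⟨n, hn, hc⟩ := H v A hv A0
  have hq : v * A * v⁻¹ * A⁻¹ = B * A⁻¹ := by rw [← σdef A, σA]
  rw [hq, (cBA.inv_right₀).mul_pow] at hc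
  set c := B ^ n * A⁻¹ ^ n with hcdef
  have cc : ∀ g : D, g * c = c * g := Subring.mem_center_iff.mp hc
  have e1 : B ^ n = c * A ^ n := by
    rw [hcdef, mul_assoc, ← (Commute.refl A).inv_left₀.mul_pow, inv_mul_cancel₀ A0, one_pow,
      mul_one]
  have e2 : C ^ n = c * B ^ n := by
    have := congrArg σ e1
    rwa [map_pow, map_mul, map_pow, σB, σA, σc c hc] at this
  clear_value c
  by_cases hee : e * e = 1
  · rcases mul_self_eq_one_iff.mp hee with h1 | h1
    · exact he1 h1
    have hCA : C = A := by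
      rw [hC, ← mul_assoc, hee, one_mul]
    rw [hCA] at e2
    have e3 : A ^ n * A ^ n = B ^ n * B ^ n := by
      calc A ^ n * A ^ n = c * B ^ n * A ^ n := by rw [← e2]
        _ = c * (B ^ n * A ^ n) := by rw [mul_assoc]
        _ = c * (A ^ n * B ^ n) := by rw [(cBA.pow_pow n n).eq]
        _ = c * A ^ n * B ^ n := by rw [mul_assoc c]
        _ = B ^ n * B ^ n := by rw [← e1]
    have hw : (B * A⁻¹) ^ (2 * n) = 1 := by
      rw [(cBA.inv_right₀).mul_pow, two_mul, pow_add, ← e3, pow_add]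
      have : A * A⁻¹ = 1 := mul_inv_cancel₀ A0
      calc A ^ n * A ^ n * (A⁻¹ ^ n * A⁻¹ ^ n) = (A ^ n * A ^ n) * (A⁻¹ ^ n * A⁻¹ ^ n) := rfl
        _ = A ^ (n + n) * A⁻¹ ^ (n + n) := by rw [pow_add, pow_add]
        _ = (A * A⁻¹) ^ (n + n) := ((Commute.refl A).inv_right₀.mul_pow _).symm
        _ = 1 := by rw [this, one_pow]
    have wc := R (B * A⁻¹) (2 * n) (by omega) hw
    set w := B * A⁻¹ with hwdef
    have f1 : B = w * A := by rw [hwdef, mul_assoc, inv_mul_cancel₀ A0, mul_one]
    have f2 : A = w * B := by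
      have := congrArg σ f1
      rwa [σB, hCA, map_mul, σA, σc w wc] at this
    clear_value w
    have f3 : A * A = B * B := by
      calc A * A = w * B * A := by rw [← f2]
        _ = w * (B * A) := by rw [mul_assoc]
        _ = w * (A * B) := by rw [cBA.eq]
        _ = w * A * B := by rw [mul_assoc w]
        _ = B * B := by rw [← f1]
    have f4 : (2 : D) * (2 * x) = 0 := by
      have : A * A - B * B = 2 * (2 * x) := by
        rw [hA, hB, h1]
        noncomm_ring
      rw [← this, f3, sub_self]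
    have h2 : (2 : D) = 0 := by
      rcases mul_eq_zero.mp f4 with h | h
      · exact h
      · rcases mul_eq_zero.mp h with h | h
        · exact h
        · exact absurd h hx
    apply he1
    rw [h1]
    have : (1 : D) + 1 = 0 := by rw [one_add_one_eq_two, h2]
    exact neg_eq_of_add_eq_zero_left this
  · have g1 : (C * A) ^ n = (B * B) ^ n := by
      rw [cCA.mul_pow, (Commute.refl B).mul_pow, e2]
      calc c * B ^ n * A ^ n = c * (B ^ n * A ^ n) := by rw [mul_assoc]
        _ = c * (A ^ n * B ^ n) := by rw [(cBA.pow_pow n n).eq]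
        _ = c * A ^ n * B ^ n := by rw [mul_assoc c]
        _ = B ^ n * B ^ n := by rw [← e1]
    have cc1 : Commute (C * A) (B * B) :=
      ((cCB.mul_right cCB).mul_left (cBA.symm.mul_right cBA.symm))
    have BB0 : B * B ≠ 0 := mul_ne_zero B0 B0
    have g2 : (C * A * (B * B)⁻¹) ^ n = 1 := by
      rw [(cc1.inv_right₀).mul_pow, g1, ← (Commute.refl (B * B)).inv_right₀.mul_pow,
        mul_inv_cancel₀ BB0, one_pow]
    have oc := R _ n hn g2
    set om := C * A * (B * B)⁻¹ with homdef
    have g3 : C * A = om * (B * B) := by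
      rw [homdef, mul_assoc, inv_mul_cancel₀ BB0, mul_one]
    have σom := σc om oc
    clear_value om
    obtain ⟨R0, _, _, f, hf, x', e', om', hfx, hfe, hfo⟩ := eF_transfer D x e om he oc
    have q1 : f ((e' * (e' * x') + 1) * (x' + 1)) =
        f (om' * ((e' * x' + 1) * (e' * x' + 1))) := by
      simp only [map_mul, map_add, map_one, hfx, hfe, hfo]
      exact g3
    have g4 : (e * (e * (e * x)) + 1) * (e * x + 1) =
        om * ((e * (e * x) + 1) * (e * (e * x) + 1)) := by
      have := congrArg σ g3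
      rw [map_mul, map_mul, map_mul, σA, σB, σom] at this
      simp only [hB, hC, map_add, map_mul, σe, σx, map_one] at this
      exact this
    have q2 : f ((e' * (e' * (e' * x')) + 1) * (e' * x' + 1)) =
        f (om' * ((e' * (e' * x') + 1) * (e' * (e' * x') + 1))) := by
      simp only [map_mul, map_add, map_one, hfx, hfe, hfo]
      exact g4
    have g5 : (e * (e * (e * (e * x))) + 1) * (e * (e * x) + 1) =
        om * ((e * (e * (e * x)) + 1) * (e * (e * (e * x)) + 1)) := by
      have := congrArg σ g4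
      simp only [map_add, map_mul, σe, σx, map_one, σom] at this
      exact this
    have q3 : f ((e' * (e' * (e' * (e' * x'))) + 1) * (e' * (e' * x') + 1)) =
        f (om' * ((e' * (e' * (e' * x')) + 1) * (e' * (e' * (e' * x')) + 1))) := by
      simp only [map_mul, map_add, map_one, hfx, hfe, hfo]
      exact g5
    refine eF_comm x' e' om' ?_ ?_ ?_ ?_ (hf q1) (hf q2) (hf q3)
    · rintro rfl
      exact hx (by rw [← hfx, map_zero])
    · rintro rfl
      exact he0 (by rw [← hfe, map_zero])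
    · rintro rfl
      exact he1 (by rw [← hfe, map_one])
    · intro hh
      exact hee (by rw [← hfe, ← map_mul, hh, map_one])


/-- M1 -/
theorem hM1 (D : Type u) [DivisionRing D] (H : HH D) (R : RR D) (p : ℕ) (hp : p.Prime) (z : D)
    (hz : z ∈ Subring.center D) (hzp : z ^ p = 1) (hz1 : z ≠ 1) (v : D)
    (hv : v ^ p ∈ Subring.center D) : v ∈ Subring.center D := by
  by_contra hnc
  obtain ⟨x, hx, e, he, hep, he1, h⟩ := eig D p hp z hz hzp hz1 v hv hnc
  have hv0 : v ≠ 0 := by
    rintro rfl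
    exact hnc (Subring.zero_mem _)
  have he0 : e ≠ 0 := by
    rintro rfl
    rw [zero_pow hp.ne_zero] at hep
    exact zero_ne_one hep
  exact eigFalse D H R v x e hv0 hx he he0 he1 h

theorem cyc_dvd {F : Type*} [Field F] (p : ℕ) (hp : p.Prime) (hpF : (p : F) ≠ 0) (g : F[X])
    (hg : 1 ≤ g.natDegree) (hgd : g ∣ cyclotomic p F) :
    cyclotomic p F ∣ ∏ i ∈ Finset.Ico 1 p, g.comp (X ^ i) := by
  have hpK : (p : AlgebraicClosure F) ≠ 0 := by
    intro h
    apply hpF
    have h1 : algebraMap F (AlgebraicClosure F) (p : F) = 0 := by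
      rw [map_natCast]; exact h
    exact (map_eq_zero _).mp h1
  have : NeZero (p : AlgebraicClosure F) := ⟨hpK⟩
  have : NeZero p := ⟨hp.ne_zero⟩
  rw [← Polynomial.map_dvd_map' (algebraMap F (AlgebraicClosure F))]
  rw [Polynomial.map_cyclotomic]
  have hgm : (g.map (algebraMap F (AlgebraicClosure F))).degree ≠ 0 := by
    rw [Polynomial.degree_map]
    have hg0 : g ≠ 0 := by
      rintro rfl
      simp at hg
    rw [Polynomial.degree_eq_natDegree hg0]
    intro h
    have h2 : g.natDegree = 0 := by exact_mod_cast h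
    omega
  obtain ⟨z, hz⟩ := IsAlgClosed.exists_root (g.map (algebraMap F (AlgebraicClosure F))) hgm
  have hzc : IsRoot (cyclotomic p (AlgebraicClosure F)) z := by
    have h1 := Polynomial.map_dvd (algebraMap F (AlgebraicClosure F)) hgd
    rw [Polynomial.map_cyclotomic] at h1
    exact hz.dvd h1
  have hzp : IsPrimitiveRoot z p := (Polynomial.isRoot_cyclotomic_iff).mp hzc
  rw [Polynomial.cyclotomic_eq_prod_X_sub_primitiveRoots hzp]
  refine Finset.prod_dvd_of_coprime ?_ ?_
  · intro a _ b _ hab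
    exact Polynomial.isCoprime_X_sub_C_of_isUnit_sub (sub_ne_zero.mpr hab).isUnit
  · intro μ hμ
    rw [Polynomial.dvd_iff_isRoot]
    have hμ' := (mem_primitiveRoots hp.pos).mp hμ
    obtain ⟨i, hi, hcop, hμi⟩ := (hμ'.isPrimitiveRoot_iff).mp hzp
    have hi0 : 1 ≤ i := by
      rcases Nat.eq_zero_or_pos i with h | h
      · subst h
        rw [Nat.coprime_zero_left] at hcop
        exact absurd hcop hp.one_lt.ne'
      · exact h
    rw [Polynomial.map_prod, Polynomial.IsRoot, Polynomial.eval_prod]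
    refine Finset.prod_eq_zero (Finset.mem_Ico.mpr ⟨hi0, hi⟩) ?_
    rw [Polynomial.map_comp, Polynomial.eval_comp, Polynomial.map_pow, Polynomial.map_X,
      Polynomial.eval_pow, Polynomial.eval_X, hμi]
    exact hz

/-- conjugation by `v` as a linear map over the centre -/
def conjL {D : Type u} [DivisionRing D] (v : D) : Module.End (Subring.center D) D where
  toFun y := v * y * v⁻¹
  map_add' a b := by rw [mul_add, add_mul]
  map_smul' c a := by
    have hc : ∀ t : D, t * (c : D) = (c : D) * t := fun t => Subring.mem_center_iff.mp c.2 t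
    simp only [Subring.smul_def, smul_eq_mul, RingHom.id_apply]
    rw [← mul_assoc v, hc v]
    simp only [mul_assoc]

theorem conjL_pow {D : Type u} [DivisionRing D] (v : D) (k : ℕ) (y : D) :
    ((conjL v) ^ k) y = v ^ k * y * (v ^ k)⁻¹ := by
  induction k generalizing y with
  | zero => simp
  | succ n ih =>
    rw [pow_succ, Module.End.mul_apply, ih]
    show v ^ n * (v * y * v⁻¹) * (v ^ n)⁻¹ = v ^ (n + 1) * y * (v ^ (n + 1))⁻¹
    rw [pow_succ, mul_inv_rev]
    simp only [mul_assoc]

theorem exists_of_prod {ι : Type*} {F V : Type*} [CommRing F] [AddCommGroup V] [Module F V]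
    (L : List ι) (T : ι → Module.End F V) (y : V) (hy : y ≠ 0)
    (h : (L.map T).prod y = 0) : ∃ i ∈ L, ∃ x : V, x ≠ 0 ∧ T i x = 0 := by
  induction L with
  | nil => exact absurd (by simpa using h) hy
  | cons a L ih =>
    rw [List.map_cons, List.prod_cons, Module.End.mul_apply] at h
    by_cases h0 : (L.map T).prod y = 0
    · obtain ⟨i, hi, x, hx, hx'⟩ := ih h0
      exact ⟨i, List.mem_cons_of_mem _ hi, x, hx, hx'⟩
    · exact ⟨a, List.mem_cons_self, _, h0, h⟩

theorem hM2a (D : Type u) [DivisionRing D] (p : ℕ) (hp : p.Prime) (hpD : (p : D) ≠ 0)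
    (g : (Subring.center D)[X]) (hg : 1 ≤ g.natDegree)
    (hgd : g ∣ cyclotomic p (Subring.center D)) (v : D)
    (hv : v ^ p ∈ Subring.center D) (hnc : v ∉ Subring.center D) :
    ∃ i : ℕ, v ^ i ∉ Subring.center D ∧ ∃ x : D, x ≠ 0 ∧
      ∑ k ∈ Finset.range (g.natDegree + 1),
        (g.coeff k : D) * ((v ^ i) ^ k * x * ((v ^ i) ^ k)⁻¹) = 0 := by
  have hv0 : v ≠ 0 := by
    rintro rfl
    exact hnc (Subring.center D).zero_mem
  have hpF : ((p : ℕ) : Subring.center D) ≠ 0 := by
    intro h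
    apply hpD
    have := congrArg (fun t : Subring.center D => (t : D)) h
    simpa using this
  have hdvd := cyc_dvd (F := Subring.center D) p hp hpF g hg hgd
  obtain ⟨R, hR⟩ := hdvd
  -- (X - 1) * prod kills
  have hsp : (conjL v) ^ p = 1 := by
    ext y
    rw [conjL_pow]
    have hc : v ^ p * y = y * v ^ p := (Subring.mem_center_iff.mp hv y).symm
    rw [hc, mul_assoc, mul_inv_cancel₀ (pow_ne_zero _ hv0), mul_one]
    rfl
  have : Fact p.Prime := ⟨hp⟩
  have hkill : aeval (conjL v) ((∏ i ∈ Finset.Ico 1 p, g.comp (X ^ i)) * (X - 1)) = 0 := by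
    have h1 : (∏ i ∈ Finset.Ico 1 p, g.comp (X ^ i)) * (X - 1) =
        R * (X ^ p - 1 : (Subring.center D)[X]) := by
      rw [hR, ← Polynomial.cyclotomic_prime_mul_X_sub_one (Subring.center D) p]
      ring
    rw [h1, map_mul]
    have h2 : aeval (conjL v) (X ^ p - 1 : (Subring.center D)[X]) = 0 := by
      rw [map_sub, map_pow, aeval_X, map_one, hsp, sub_self]
    rw [h2, mul_zero]
  obtain ⟨y, hy⟩ : ∃ y : D, v * y * v⁻¹ ≠ y := by
    by_contra hcon
    push Not at hcon
    apply hnc
    rw [Subring.mem_center_iff]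
    intro t
    have := hcon t
    calc t * v = (v * t * v⁻¹) * v := by rw [this]
      _ = v * t := by rw [mul_assoc, inv_mul_cancel₀ hv0, mul_one]
  have hy1 : conjL v y - y ≠ 0 := sub_ne_zero.mpr hy
  have hk2 : (((Finset.Ico 1 p).toList.map
      (fun i => aeval (conjL v) (g.comp (X ^ i)))).prod) (conjL v y - y) = 0 := by
    have h3 := congrArg (fun T : Module.End (Subring.center D) D => T y) hkill
    rw [map_mul, map_sub, aeval_X, map_one] at h3
    have h4 : (aeval (conjL v) (∏ i ∈ Finset.Ico 1 p, g.comp (X ^ i))) (conjL v y - y) = 0 := by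
      simpa [Module.End.mul_apply] using h3
    have h5 : (∏ i ∈ Finset.Ico 1 p, g.comp (X ^ i)) =
        ((Finset.Ico 1 p).toList.map (fun i => g.comp (X ^ i))).prod :=
      (Finset.prod_map_toList _ _).symm
    rw [h5, map_list_prod, List.map_map] at h4
    exact h4
  obtain ⟨i, hi, x, hx, hx'⟩ := exists_of_prod _ _ _ hy1 hk2
  rw [Finset.mem_toList, Finset.mem_Ico] at hi
  refine ⟨i, ?_, x, hx, ?_⟩
  · intro hvi
    apply hnc
    have hcop : Nat.Coprime i p := by
      rw [Nat.coprime_comm]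
      exact (Nat.Prime.coprime_iff_not_dvd hp).mpr
        (fun h => absurd (Nat.le_of_dvd hi.1 h) (not_le.mpr hi.2))
    obtain ⟨m, hm⟩ : ∃ m, i * m % p = 1 := by
      have h := Nat.exists_mul_mod_eq_one_of_coprime hcop hp.one_lt
      obtain ⟨m, _, hm⟩ := h
      exact ⟨m, hm⟩
    have hm2 : p * (i * m / p) + 1 = i * m := by
      have := Nat.div_add_mod (i * m) p
      rw [hm] at this
      exact this
    have hc1 : v ^ (i * m) ∈ Subring.center D := by
      rw [pow_mul]
      exact (Subring.center D).pow_mem hvi m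
    have hc2 : v ^ (p * (i * m / p)) ∈ Subring.center D := by
      rw [pow_mul]
      exact (Subring.center D).pow_mem hv _
    rw [Subring.mem_center_iff]
    intro t
    have hne : v ^ (p * (i * m / p)) ≠ 0 := pow_ne_zero _ hv0
    apply mul_left_cancel₀ hne
    have e1 := Subring.mem_center_iff.mp hc1 t
    have e2 := Subring.mem_center_iff.mp hc2 t
    have hPQ : v ^ (p * (i * m / p)) * v = v ^ (i * m) := by
      rw [← pow_succ, hm2]
    rw [← mul_assoc, ← e2, mul_assoc, hPQ, e1, ← hPQ, mul_assoc]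
  · have h6 : aeval (conjL v) (g.comp (X ^ i)) = aeval ((conjL v) ^ i) g := by
      rw [aeval_comp, map_pow, aeval_X]
    rw [h6, aeval_eq_sum_range] at hx'
    rw [LinearMap.sum_apply] at hx'
    rw [← hx']
    refine Finset.sum_congr rfl (fun k _ => ?_)
    have h7 : ((conjL v ^ i) ^ k) x = (v ^ i) ^ k * x * ((v ^ i) ^ k)⁻¹ := by
      rw [← pow_mul, conjL_pow, pow_mul]
    rw [LinearMap.smul_apply, h7, Subring.smul_def, smul_eq_mul]


lemma coe_comm (D : Type u) [DivisionRing D] (a : Subring.center D) (z : D) :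
    (a : D) * z = z * (a : D) := (Subring.mem_center_iff.1 a.2 z).symm

lemma finish (D : Type u) [DivisionRing D] (H : HH D) (R : RR D) (p : ℕ) (hp : p.Prime)
    (hpD : (p : D) ≠ 0) (g : (Subring.center D)[X]) (hgd : g ∣ cyclotomic p (Subring.center D))
    (v x y : D) (hv0 : v ≠ 0) (hx : x ≠ 0) (hy0 : y ≠ 0) (hvx : v * x = y * x * v)
    (hgy : g.eval₂ (Subring.center D).subtype y = 0) : False := by
  haveI := Fact.mk hp
  let φ := eval₂RingHom' (Subring.center D).subtype y (fun a => coe_comm D a y)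
  have h0 : φ g = 0 := hgy
  obtain ⟨q, hq⟩ := hgd
  have h1 : φ (cyclotomic p (Subring.center D)) = 0 := by rw [hq, map_mul, h0, zero_mul]
  have h2 : y ^ p = 1 := by
    have h3 := congrArg φ (cyclotomic_prime_mul_X_sub_one (Subring.center D) p)
    rw [map_mul, h1, zero_mul, map_sub, map_pow, map_one] at h3
    have hX : φ X = y := eval₂_X _ _
    rw [hX] at h3
    exact sub_eq_zero.1 h3.symm
  have h4 : y ≠ 1 := by
    rintro rfl
    have h5 : φ (cyclotomic p (Subring.center D)) =
        (Subring.center D).subtype (eval 1 (cyclotomic p (Subring.center D))) := eval₂_at_one _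
    rw [h1, eval_one_cyclotomic_prime] at h5
    apply hpD
    simpa using h5.symm
  exact eigFalse D H R v x y hv0 hx (R y p hp.pos h2) hy0 h4 hvx

theorem hM2b (D : Type u) [DivisionRing D] (H : HH D) (R : RR D) (p : ℕ) (hp : p.Prime)
    (hpD : (p : D) ≠ 0) (g : (Subring.center D)[X]) (hg : 1 ≤ g.natDegree)
    (hg2 : g.natDegree ≤ 2) (hgd : g ∣ cyclotomic p (Subring.center D)) (v : D)
    (hv : v ^ p ∈ Subring.center D) (hnc : v ∉ Subring.center D) (x : D) (hx : x ≠ 0)
    (h : ∑ k ∈ Finset.range (g.natDegree + 1),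
        (g.coeff k : D) * (v ^ k * x * (v ^ k)⁻¹) = 0) : False := by
  have hv0 : v ≠ 0 := by
    rintro rfl
    exact hnc (Subring.zero_mem _)
  obtain ⟨y, hy⟩ : ∃ y, y = v * x * v⁻¹ * x⁻¹ := ⟨_, rfl⟩
  have hy0 : y ≠ 0 := by
    rw [hy]
    exact mul_ne_zero (mul_ne_zero (mul_ne_zero hv0 hx) (inv_ne_zero hv0)) (inv_ne_zero hx)
  have hyx : v * x * v⁻¹ = y * x := by rw [hy, inv_mul_cancel_right₀ hx]
  have hvx : v * x = y * x * v := by rw [← hyx, inv_mul_cancel_right₀ hv0]
  have hdeg : g.natDegree = 1 ∨ g.natDegree = 2 := by omega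
  rcases hdeg with hd | hd
  · refine finish D H R p hp hpD g hgd v x y hv0 hx hy0 hvx ?_
    rw [hd] at h
    simp only [Finset.sum_range_succ, Finset.range_zero, Finset.sum_empty, zero_add, pow_zero,
      one_mul, inv_one, mul_one, pow_one] at h
    rw [hyx] at h
    have h1 : ((g.coeff 0 : D) + (g.coeff 1 : D) * y) * x = 0 := by
      rw [add_mul, mul_assoc]; exact h
    rw [eval₂_eq_sum_range, hd]
    simp only [Finset.sum_range_succ, Finset.range_zero, Finset.sum_empty, zero_add, pow_zero,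
      mul_one, pow_one]
    exact (mul_eq_zero.1 h1).resolve_right hx
  · rw [hd] at h
    simp only [Finset.sum_range_succ, Finset.range_zero, Finset.sum_empty, zero_add, pow_zero,
      one_mul, inv_one, mul_one, pow_one] at h
    rw [hyx] at h
    obtain ⟨s, hs⟩ : ∃ s, s = v * y * v⁻¹ := ⟨_, rfl⟩
    have hs0 : s ≠ 0 := by
      rw [hs]; exact mul_ne_zero (mul_ne_zero hv0 hy0) (inv_ne_zero hv0)
    have h2 : v ^ 2 * x * (v ^ 2)⁻¹ = s * y * x := by
      rw [pow_two, mul_inv_rev]
      have e1 : v * v * x * (v⁻¹ * v⁻¹) = v * (v * x * v⁻¹) * v⁻¹ := by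
        simp only [mul_assoc]
      rw [e1, hyx, hs]
      have e2 : v * y * v⁻¹ * y * x = v * y * v⁻¹ * (v * x * v⁻¹) := by rw [hyx, mul_assoc]
      rw [e2]
      simp only [mul_assoc]
      rw [inv_mul_cancel_left₀ hv0]
    rw [h2] at h
    have h1 : (g.coeff 0 : D) + (g.coeff 1 : D) * y + (g.coeff 2 : D) * (s * y) = 0 := by
      have : ((g.coeff 0 : D) + (g.coeff 1 : D) * y + (g.coeff 2 : D) * (s * y)) * x = 0 := by
        rw [add_mul, add_mul, mul_assoc (g.coeff 1 : D), mul_assoc (g.coeff 2 : D)]; exact h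
      exact (mul_eq_zero.1 this).resolve_right hx
    have hc2 : (g.coeff 2 : D) ≠ 0 := by
      intro h0
      have h0' : g.coeff 2 = 0 := Subtype.ext h0
      have : g.leadingCoeff = 0 := by rw [leadingCoeff, hd]; exact h0'
      rw [leadingCoeff_eq_zero] at this
      rw [this] at hd
      simp at hd
    have hcy : ∀ a : Subring.center D, Commute (a : D) y := fun a => coe_comm D a y
    have hcomm1 : Commute ((g.coeff 2 : D) * (s * y)) y := by
      have : (g.coeff 2 : D) * (s * y) = -((g.coeff 0 : D) + (g.coeff 1 : D) * y) := by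
        rw [eq_neg_iff_add_eq_zero, add_comm]; exact h1
      rw [this]
      exact (((hcy _).add_left ((hcy _).mul_left (Commute.refl y)))).neg_left
    have hcomm2 : s * y * y = y * (s * y) := by
      have e1 : (g.coeff 2 : D) * (s * y * y) = (g.coeff 2 : D) * (y * (s * y)) := by
        have := hcomm1.eq
        rw [mul_assoc] at this
        rw [this, ← mul_assoc y, ← (hcy (g.coeff 2)).eq, mul_assoc]
      exact mul_left_cancel₀ hc2 e1
    have hcomm : Commute s y := by
      show s * y = y * s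
      apply mul_right_cancel₀ hy0
      rw [hcomm2, mul_assoc]
    obtain ⟨n, hn, hcen⟩ := H v x hv0 hx
    rw [← hy] at hcen
    have hsn : ∀ k : ℕ, s ^ k = v * y ^ k * v⁻¹ := by
      intro k
      induction k with
      | zero => rw [pow_zero, pow_zero, mul_one, mul_inv_cancel₀ hv0]
      | succ k ih =>
        rw [pow_succ, ih, hs, pow_succ]
        simp only [mul_assoc]
        rw [inv_mul_cancel_left₀ hv0]
    have hsn' : s ^ n = y ^ n := by
      rw [hsn, Subring.mem_center_iff.1 hcen v, mul_assoc, mul_inv_cancel₀ hv0, mul_one]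
    have hom : (s * y⁻¹) ^ n = 1 := by
      rw [(hcomm.inv_right₀).mul_pow, hsn', inv_pow, mul_inv_cancel₀ (pow_ne_zero n hy0)]
    have homc := R _ n hn hom
    have hvy : v * y = s * y⁻¹ * y * v := by
      rw [inv_mul_cancel_right₀ hy0, hs, inv_mul_cancel_right₀ hv0]
    by_cases h1' : s * y⁻¹ = 1
    · have hsy : s = y := by
        have := congrArg (· * y) h1'
        simpa [inv_mul_cancel_right₀ hy0] using this
      refine finish D H R p hp hpD g hgd v x y hv0 hx hy0 hvx ?_
      rw [eval₂_eq_sum_range, hd]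
      simp only [Finset.sum_range_succ, Finset.range_zero, Finset.sum_empty, zero_add, pow_zero,
        mul_one, pow_one]
      rw [hsy] at h1
      rw [pow_two]
      exact h1
    · exact eigFalse D H R v y (s * y⁻¹) hv0 hy0 homc
        (mul_ne_zero hs0 (inv_ne_zero hy0)) h1' hvy


theorem hM2 (D : Type u) [DivisionRing D] (H : HH D) (R : RR D) (p : ℕ) (hp : p.Prime)
    (hpD : (p : D) ≠ 0) (g : (Subring.center D)[X]) (hg : 1 ≤ g.natDegree)
    (hg2 : g.natDegree ≤ 2) (hgd : g ∣ cyclotomic p (Subring.center D)) (v : D)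
    (hv : v ^ p ∈ Subring.center D) : v ∈ Subring.center D := by
  by_contra hnc
  obtain ⟨i, hi, x, hx, h⟩ := hM2a D p hp hpD g hg hgd v hv hnc
  refine hM2b D H R p hp hpD g hg hg2 hgd (v ^ i) ?_ hi x hx h
  rw [← pow_mul, mul_comm, pow_mul]
  exact Subring.pow_mem _ hv i

theorem hMpa (D : Type u) [DivisionRing D] (p : ℕ) (hp : p.Prime) [CharP D p] (v : D)
    (hv : v ^ p ∈ Subring.center D) (hnc : v ∉ Subring.center D) :
    ∃ u : D, v * u = (u + 1) * v := by
  classical
  haveI : Fact p.Prime := ⟨hp⟩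
  letI : Algebra (ZMod p) D := ZMod.algebra D p
  set L : Module.End (ZMod p) D := LinearMap.mulLeft (ZMod p) v with hL
  set R : Module.End (ZMod p) D := LinearMap.mulRight (ZMod p) v with hR
  have hcomm : Commute L R := by
    ext a
    simp [hL, hR, Module.End.mul_apply, mul_assoc]
  haveI : CharP (Module.End (ZMod p) D) p :=
    charP_of_injective_algebraMap
      (algebraMap (ZMod p) (Module.End (ZMod p) D)).injective p
  have hpow : (L - R) ^ p = 0 := by
    rw [sub_pow_char_of_commute p hcomm, hL, hR,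
      LinearMap.pow_mulLeft, LinearMap.pow_mulRight]
    ext a
    simp only [LinearMap.sub_apply, LinearMap.mulLeft_apply, LinearMap.mulRight_apply,
      LinearMap.zero_apply]
    rw [(Subring.mem_center_iff.mp hv a), sub_self]
  have hap : ∀ a, (L - R) a = v * a - a * v := fun a => rfl
  have hex0 : ∃ a0 : D, (L - R) a0 ≠ 0 := by
    by_contra hcon
    push_neg at hcon
    apply hnc
    rw [Subring.mem_center_iff]
    intro g
    have := hcon g
    rw [hap] at this
    exact (sub_eq_zero.mp this).symm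
  obtain ⟨a0, ha0⟩ := hex0
  have hexm : ∃ m : ℕ, ((L - R) ^ m) a0 = 0 := ⟨p, by rw [hpow]; rfl⟩
  have hm0 : Nat.find hexm ≠ 0 := by
    intro h0
    have := Nat.find_spec hexm
    rw [h0, pow_zero] at this
    apply ha0
    have h1 : a0 = 0 := this
    rw [h1, map_zero]
  have hm1 : Nat.find hexm ≠ 1 := by
    intro h0
    have := Nat.find_spec hexm
    rw [h0, pow_one] at this
    exact ha0 this
  obtain ⟨m, hm⟩ : ∃ m, Nat.find hexm = m + 2 := ⟨Nat.find hexm - 2, by omega⟩
  have hspec := Nat.find_spec hexm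
  rw [hm] at hspec
  have hmin : ((L - R) ^ (m + 1)) a0 ≠ 0 := Nat.find_min hexm (by omega)
  set a : D := ((L - R) ^ m) a0 with ha
  have hb : ((L - R) ^ (m + 1)) a0 = v * a - a * v := by
    rw [pow_succ', Module.End.mul_apply]
    exact hap a
  set b : D := v * a - a * v with hbdef
  have hb0 : b ≠ 0 := by rw [← hb]; exact hmin
  have hvb : v * b = b * v := by
    have h1 : ((L - R) ^ (m + 2)) a0 = v * b - b * v := by
      rw [pow_succ', Module.End.mul_apply, hb]
      exact hap b
    rw [hspec] at h1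
    exact sub_eq_zero.mp h1.symm
  have hvbi : v * b⁻¹ = b⁻¹ * v := by
    have : Commute v b := hvb
    exact this.inv_right₀
  refine ⟨a * b⁻¹ * v, ?_⟩
  have hva : v * a = a * v + b := by rw [hbdef]; abel
  calc v * (a * b⁻¹ * v) = (v * a) * b⁻¹ * v := by simp only [mul_assoc]
    _ = (a * v + b) * b⁻¹ * v := by rw [hva]
    _ = a * (v * b⁻¹) * v + b * b⁻¹ * v := by rw [add_mul, add_mul]; simp only [mul_assoc]
    _ = a * (b⁻¹ * v) * v + 1 * v := by rw [hvbi, mul_inv_cancel₀ hb0]
    _ = (a * b⁻¹ * v + 1) * v := by rw [add_mul]; simp only [mul_assoc]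


theorem hMpb (D : Type u) [DivisionRing D] (H : HH D) (R : RR D) (v u : D) (hv : v ≠ 0)
    (h : v * u = (u + 1) * v) : False := by
  have hu : u ≠ 0 := by
    rintro rfl
    rw [mul_zero, zero_add, one_mul] at h
    exact hv h.symm
  have hu1 : u + 1 ≠ 0 := by
    intro h1
    rw [h1, zero_mul] at h
    exact (mul_ne_zero hv hu) h
  have h2 : v * (u + 1) = (u + 2) * v := by
    rw [mul_add, h]; noncomm_ring
  have h3 : v * (u + 2) = (u + 3) * v := by
    rw [mul_add, h]; noncomm_ring
  have hu2 : u + 2 ≠ 0 := by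
    intro h1
    rw [h1, zero_mul] at h2
    exact (mul_ne_zero hv hu1) h2
  have hq : v * u * v⁻¹ * u⁻¹ = (u + 1) * u⁻¹ := by
    rw [h, mul_assoc (u + 1) v v⁻¹, mul_inv_cancel₀ hv, mul_one]
  obtain ⟨n, hn, hc⟩ := H v u hv hu
  rw [hq] at hc
  have c1 : Commute u (u + 1) := (Commute.refl u).add_right (Commute.one_right u)
  have c2 : Commute u (u + 2) := (Commute.refl u).add_right (Commute.ofNat_right u 2)
  have c12 : Commute (u + 1) (u + 2) := by
    have : u + 2 = (u + 1) + 1 := by rw [add_assoc]; norm_num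
    rw [this]
    exact (Commute.refl _).add_right (Commute.one_right _)
  have hsemi : v * u⁻¹ = (u + 1)⁻¹ * v := by
    have e1 : (u + 1) * (v * u⁻¹) = v := by
      rw [← mul_assoc, ← h, mul_assoc, mul_inv_cancel₀ hu, mul_one]
    calc v * u⁻¹ = (u + 1)⁻¹ * ((u + 1) * (v * u⁻¹)) := by
          rw [← mul_assoc, inv_mul_cancel₀ hu1, one_mul]
      _ = (u + 1)⁻¹ * v := by rw [e1]
  set q : D := (u + 1) * u⁻¹ with hqd
  set s : D := (u + 2) * (u + 1)⁻¹ with hsd
  have hs0 : s ≠ 0 := mul_ne_zero hu2 (inv_ne_zero hu1)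
  have hvq : SemiconjBy v q s := by
    show v * q = s * v
    rw [hqd, ← mul_assoc, h2, mul_assoc, hsemi, hsd, mul_assoc]
  have hpow := hvq.pow_right n
  have hcen : v * q ^ n = q ^ n * v := (Subring.mem_center_iff.mp hc) v
  have hqs : q ^ n = s ^ n := by
    have e1 : q ^ n * v = s ^ n * v := by rw [← hcen]; exact hpow
    exact mul_right_cancel₀ hv e1
  have cq : Commute q s := by
    have a1 : Commute (u + 1) s := c12.mul_right (Commute.refl _).inv_right₀
    have a2 : Commute u s := c2.mul_right c1.inv_right₀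
    exact a1.mul_left a2.inv_left₀
  have homn : (q * s⁻¹) ^ n = 1 := by
    rw [(cq.inv_right₀).mul_pow, inv_pow, hqs, mul_inv_cancel₀ (pow_ne_zero n hs0)]
  have hom := R (q * s⁻¹) n hn homn
  set om : D := q * s⁻¹ with homd
  have homc : ∀ z : D, z * om = om * z := fun z => (Subring.mem_center_iff.mp hom) z
  have e0 : om * s = q := by rw [homd, mul_assoc, inv_mul_cancel₀ hs0, mul_one]
  have eq1 : om * ((u + 2) * u) = (u + 1) * (u + 1) := by
    have f1 : om * (u + 2) = (u + 1) * u⁻¹ * (u + 1) := by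
      calc om * (u + 2) = om * ((u + 2) * (u + 1)⁻¹ * (u + 1)) := by
            rw [mul_assoc (u + 2), inv_mul_cancel₀ hu1, mul_one]
        _ = om * s * (u + 1) := by rw [hsd, mul_assoc om]
        _ = (u + 1) * u⁻¹ * (u + 1) := by rw [e0]
    calc om * ((u + 2) * u) = om * (u + 2) * u := (mul_assoc _ _ _).symm
      _ = (u + 1) * u⁻¹ * (u + 1) * u := by rw [f1]
      _ = (u + 1) * u⁻¹ * (u * (u + 1)) := by rw [mul_assoc ((u + 1) * u⁻¹), ← c1.eq]
      _ = (u + 1) * (u⁻¹ * u) * (u + 1) := by simp only [mul_assoc]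
      _ = (u + 1) * (u + 1) := by rw [inv_mul_cancel₀ hu, mul_one]
  have eq2 : om * ((u + 3) * (u + 1)) = (u + 2) * (u + 2) := by
    have f1 : v * (om * ((u + 2) * u)) = v * ((u + 1) * (u + 1)) := by rw [eq1]
    have f2 : v * (om * ((u + 2) * u)) = om * ((u + 3) * (u + 1)) * v := by
      rw [← mul_assoc, homc v, mul_assoc om, ← mul_assoc v, h3, mul_assoc (u + 3), h]
      simp only [mul_assoc]
    have f3 : v * ((u + 1) * (u + 1)) = (u + 2) * (u + 2) * v := by
      rw [← mul_assoc, h2, mul_assoc (u + 2), h2]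
      simp only [mul_assoc]
    rw [f2, f3] at f1
    exact mul_right_cancel₀ hv f1
  have eq3 : (om - 1) * (2 * u + 3) = 0 := by
    have f1 : om * ((u + 3) * (u + 1)) - om * ((u + 2) * u) = om * (2 * u + 3) := by
      rw [← mul_sub]
      congr 1
      noncomm_ring
    have f2 : (u + 2) * (u + 2) - (u + 1) * (u + 1) = 2 * u + 3 := by
      have two : (2 : D) = 1 + 1 := by norm_num
      have three : (3 : D) = 1 + 1 + 1 := by norm_num
      rw [two, three]
      noncomm_ring
    rw [eq1, eq2, f2] at f1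
    rw [sub_mul, one_mul, ← f1, sub_self]
  rcases mul_eq_zero.mp eq3 with h4 | h4
  · have h5 : om = 1 := sub_eq_zero.mp h4
    rw [h5, one_mul] at eq1
    have h6 : (u + 1) * (u + 1) - (u + 2) * u = 1 := by noncomm_ring
    rw [eq1, sub_self] at h6
    exact zero_ne_one h6
  · have h5 : v * (2 * u + 3) = (2 * u + 5) * v := by
      have : v * (2 * u + 3) = 2 * (v * u) + 3 * v := by noncomm_ring
      rw [this, h]; noncomm_ring
    rw [h4, mul_zero] at h5
    have h6 : 2 * u + 5 = 0 := by
      rcases mul_eq_zero.mp h5.symm with h7 | h7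
      · exact h7
      · exact absurd h7 hv
    have h7 : (2 : D) = 0 := by
      have : (2 * u + 5) - (2 * u + 3) = (2 : D) := by
        have e5 : (5 : D) = 3 + 2 := by norm_num
        rw [e5]; abel
      rw [h4, h6, sub_self] at this
      exact this.symm
    have h8 : (1 : D) = 0 := by
      have : (2 * u + 3) - 2 * (u + 1) = (1 : D) := by
        have e3 : (3 : D) = 2 * 1 + 1 := by norm_num
        rw [e3, mul_add]; abel
      rw [h4, h7, zero_mul, sub_self] at this
      exact this.symm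
    exact one_ne_zero h8


theorem hMp (D : Type u) [DivisionRing D] (H : HH D) (R : RR D) (p : ℕ) (hp : p.Prime)
    (hpD : (p : D) = 0) (v : D)
    (hv : v ^ p ∈ Subring.center D) : v ∈ Subring.center D := by
  by_contra hnc
  haveI : CharP D p := by
    obtain ⟨q, hq⟩ := CharP.exists D
    have h1 : q ∣ p := (CharP.cast_eq_zero_iff D q p).1 hpD
    rcases (Nat.dvd_prime hp).1 h1 with h | h
    · subst h
      exact absurd rfl (CharP.char_ne_one D 1)
    · subst h; exact hq
  obtain ⟨u, hu⟩ := hMpa D p hp v hv hnc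
  have hv0 : v ≠ 0 := by
    rintro rfl
    exact hnc (Subring.zero_mem _)
  exact hMpb D H R v u hv0 hu

end Pool.Agent.Helper656.Her
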