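import Pool.Agent.Helper656.Her.Core

set_option autoImplicit false

namespace Pool.Agent.Helper656.Her

open Polynomial

universe u

theorem exact (D : Type u) [DivisionRing D] (R : RR D) (n y : D) (N : ℕ) (hN : 0 < N)
    (hn : n ^ N ∈ Subring.center D)
    (hy : y ∈ Algebra.adjoin (Subring.center D) {n}) (M : ℕ) (hM : 0 < M)
    (hyM : y ^ M ∈ Subring.center D) :
    y ^ (minpoly (Subring.center D) n).natDegree ∈ Subring.center D := by
  have hint : IsIntegral (Subring.center D) n := by
    refine ⟨X ^ N - C ⟨n ^ N, hn⟩, monic_X_pow_sub_C _ hN.ne', ?_⟩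
    rw [eval₂_sub, eval₂_X_pow, eval₂_C]
    exact sub_self _
  have hirr : Irreducible (minpoly (Subring.center D) n) := minpoly.irreducible hint
  have hd : 0 < (minpoly (Subring.center D) n).natDegree := minpoly.natDegree_pos hint
  haveI hfact : Fact (Irreducible (minpoly (Subring.center D) n)) := ⟨hirr⟩
  obtain ⟨q, hq⟩ : ∃ q : (Subring.center D)[X], aeval n q = y := by
    rw [Algebra.adjoin_singleton_eq_range_aeval] at hy
    exact hy
  by_cases hy0 : y = 0
  · rw [hy0, zero_pow hd.ne']
    exact Subring.zero_mem _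
  have hker : ∀ b ∈ Ideal.span {minpoly (Subring.center D) n},
      (aeval n : (Subring.center D)[X] →ₐ[Subring.center D] D) b = 0 := by
    intro b hb
    rw [Ideal.mem_span_singleton] at hb
    obtain ⟨b', rfl⟩ := hb
    rw [map_mul, minpoly.aeval, zero_mul]
  obtain ⟨φ, hφ⟩ : ∃ φ : AdjoinRoot (minpoly (Subring.center D) n) →ₐ[Subring.center D] D,
      φ (AdjoinRoot.mk (minpoly (Subring.center D) n) q) = y :=
    ⟨Ideal.Quotient.liftₐ (Ideal.span {minpoly (Subring.center D) n}) (aeval n) hker, hq⟩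
  have hφinj : Function.Injective φ := φ.toRingHom.injective
  have h1 : (AdjoinRoot.mk (minpoly (Subring.center D) n) q) ^ M =
      algebraMap (Subring.center D) _ (⟨y ^ M, hyM⟩ : Subring.center D) := by
    apply hφinj
    rw [map_pow, hφ, AlgHom.commutes]
    rfl
  obtain ⟨c, hc⟩ : ∃ c, c = Algebra.norm (Subring.center D)
      (AdjoinRoot.mk (minpoly (Subring.center D) n) q) := ⟨_, rfl⟩
  have h2 : c ^ M = (⟨y ^ M, hyM⟩ : Subring.center D) ^ (minpoly (Subring.center D) n).natDegree := by
    rw [hc, ← map_pow, h1, Algebra.norm_algebraMap,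
      (AdjoinRoot.powerBasis hirr.ne_zero).finrank, AdjoinRoot.powerBasis_dim]
  have h3 : (c : D) ^ M = (y ^ (minpoly (Subring.center D) n).natDegree) ^ M := by
    have := congrArg (fun t : Subring.center D => (t : D)) h2
    simp only [Subring.coe_pow] at this
    rw [this, ← pow_mul, ← pow_mul, mul_comm]
  have hyd : y ^ (minpoly (Subring.center D) n).natDegree ≠ 0 := pow_ne_zero _ hy0
  have hc0 : (c : D) ≠ 0 := by
    intro h
    rw [h, zero_pow hM.ne'] at h3
    exact pow_ne_zero M hyd h3.symm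
  have hcc := Subring.mem_center_iff.1 c.2
  have hcom : Commute (y ^ (minpoly (Subring.center D) n).natDegree) ((c : D)⁻¹) :=
    (show Commute (y ^ (minpoly (Subring.center D) n).natDegree) (c : D) from hcc _).inv_right₀
  have hw : (y ^ (minpoly (Subring.center D) n).natDegree * (c : D)⁻¹) ^ M = 1 := by
    rw [hcom.mul_pow, ← h3, inv_pow, mul_inv_cancel₀ (pow_ne_zero M hc0)]
  have hwc := R _ M hM hw
  have := Subring.mul_mem _ hwc c.2
  rwa [mul_assoc, inv_mul_cancel₀ hc0, mul_one] at this

theorem monom_minpoly {K : Type*} [Field K] {B : Type*} [Ring B] [IsDomain B] [Algebra K B]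
    (z : B) (c : K) (hz : IsIntegral K z)
    (h : z ^ (minpoly K z).natDegree = algebraMap K B c) :
    X ^ (minpoly K z).natDegree - C c = minpoly K z := by
  have hd : 0 < (minpoly K z).natDegree := minpoly.natDegree_pos hz
  apply minpoly.unique_of_degree_le_degree_minpoly
  · exact monic_X_pow_sub_C c hd.ne'
  · simp [h]
  · rw [degree_X_pow_sub_C hd c, Polynomial.degree_eq_natDegree (minpoly.ne_zero hz)]

theorem monom_integral {K : Type*} [Field K] {B : Type*} [Ring B] [Algebra K B]
    (z : B) (k : ℕ) (hk : 0 < k) (h : z ^ k ∈ (algebraMap K B).range) : IsIntegral K z := by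
  obtain ⟨c, hc⟩ := h
  exact ⟨X ^ k - C c, monic_X_pow_sub_C c hk.ne', by simp [hc]⟩

theorem monom_trace {K : Type*} [Field K] {L : Type*} [Field L] [Algebra K L]
    [FiniteDimensional K L] (z : L) (k : ℕ) (hk : 0 < k)
    (hz : z ^ k ∈ (algebraMap K L).range)
    (hex : z ^ (minpoly K z).natDegree ∈ (algebraMap K L).range)
    (hz' : z ∉ (algebraMap K L).range) : Algebra.trace K L z = 0 := by
  have hint : IsIntegral K z := monom_integral z k hk hz
  obtain ⟨c, hc⟩ := hex
  have h1 := monom_minpoly z c hint hc.symm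
  have hd : 0 < (minpoly K z).natDegree := minpoly.natDegree_pos hint
  have hd1 : (minpoly K z).natDegree ≠ 1 := by
    intro h
    exact hz' ((minpoly.natDegree_eq_one_iff).1 h)
  rw [trace_eq_finrank_mul_minpoly_nextCoeff]
  have h2 : (minpoly K z).nextCoeff = 0 := by
    rw [nextCoeff_of_natDegree_pos hd]
    set d := (minpoly K z).natDegree with hdd
    rw [← h1]
    rw [coeff_sub, coeff_X_pow, coeff_C]
    rw [if_neg (by omega), if_neg (by omega)]
    simp
  rw [h2]
  simp

theorem monom_gen {K : Type*} [Field K] {D : Type*} [DivisionRing D] [Algebra K D]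
    (hex : ∀ z : D, ∀ k : ℕ, 0 < k → z ^ k ∈ (algebraMap K D).range →
      z ^ (minpoly K z).natDegree ∈ (algebraMap K D).range)
    (hMp : ∀ p : ℕ, p.Prime → (p : K) = 0 → ∀ v : D, v ^ p ∈ (algebraMap K D).range →
      v ∈ (algebraMap K D).range)
    (n y : D) (hn0 : n ≠ 0) (N : ℕ) (hN : 0 < N) (hn : n ^ N ∈ (algebraMap K D).range)
    (hy : y ∈ Algebra.adjoin K {n}) (hy0 : y ≠ 0) (M : ℕ) (hM : 0 < M)
    (hyM : y ^ M ∈ (algebraMap K D).range) :
    ∃ j : ℕ, j < (minpoly K n).natDegree ∧ ∃ c : K, y = algebraMap K D c * n ^ j := by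
  classical
  have hint : IsIntegral K n := monom_integral n N hN hn
  have hirr : Irreducible (minpoly K n) := minpoly.irreducible hint
  have : Fact (Irreducible (minpoly K n)) := ⟨hirr⟩
  let L := AdjoinRoot (minpoly K n)
  have hker : ∀ a : K[X], a ∈ Ideal.span {minpoly K n} → aeval n a = 0 := by
    intro a ha
    rw [Ideal.mem_span_singleton] at ha
    obtain ⟨b, rfl⟩ := ha
    simp
  let φ : L →ₐ[K] D := Ideal.Quotient.liftₐ (Ideal.span {minpoly K n}) (aeval n) hker
  have hφ : ∀ p : K[X], φ (AdjoinRoot.mk (minpoly K n) p) = aeval n p := fun p => rfl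
  have hφinj : Function.Injective φ := φ.toRingHom.injective
  have hφalg : ∀ c : K, φ (algebraMap K L c) = algebraMap K D c := fun c => φ.commutes c
  have hrange : ∀ z : L, z ∈ (algebraMap K L).range ↔ φ z ∈ (algebraMap K D).range := by
    intro z
    constructor
    · rintro ⟨c, rfl⟩
      exact ⟨c, (hφalg c).symm⟩
    · rintro ⟨c, hc⟩
      exact ⟨c, hφinj (by rw [hφalg, hc])⟩
  let pb : PowerBasis K L := AdjoinRoot.powerBasis hirr.ne_zero
  have : FiniteDimensional K L := pb.finite
  have hpbdim : pb.dim = (minpoly K n).natDegree := rfl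
  let ν : L := AdjoinRoot.root (minpoly K n)
  have hpbgen : pb.gen = ν := rfl
  have hν : φ ν = n := by
    show φ (AdjoinRoot.mk (minpoly K n) X) = n
    rw [hφ]; simp
  have hν0 : ν ≠ 0 := by
    intro h
    apply hn0
    rw [← hν, h, map_zero]
  obtain ⟨Y, hY⟩ : ∃ Y : L, φ Y = y := by
    rw [Algebra.adjoin_singleton_eq_range_aeval] at hy
    obtain ⟨p, hp⟩ := hy
    exact ⟨AdjoinRoot.mk (minpoly K n) p, by rw [hφ]; exact hp⟩
  have hY0 : Y ≠ 0 := by
    intro h
    apply hy0
    rw [← hY, h, map_zero]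
  have hexL : ∀ z : L, ∀ k : ℕ, 0 < k → z ^ k ∈ (algebraMap K L).range →
      z ^ (minpoly K z).natDegree ∈ (algebraMap K L).range := by
    intro z k hk hz
    rw [hrange, map_pow] at hz ⊢
    have := hex (φ z) k hk hz
    rwa [minpoly.algHom_eq φ hφinj z] at this
  have hMpL : ∀ p : ℕ, p.Prime → (p : K) = 0 → ∀ v : L, v ^ p ∈ (algebraMap K L).range →
      v ∈ (algebraMap K L).range := by
    intro p hp hp0 v hv
    rw [hrange] at hv ⊢
    rw [map_pow] at hv
    exact hMp p hp hp0 _ hv
  have htr : ∀ z : L, ∀ k : ℕ, 0 < k → z ^ k ∈ (algebraMap K L).range →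
      z ∉ (algebraMap K L).range → Algebra.trace K L z = 0 :=
    fun z k hk hz hz' => monom_trace z k hk hz (hexL z k hk hz) hz'
  set d := (minpoly K n).natDegree with hd
  have hminν : minpoly K ν = minpoly K n := by
    have h := minpoly.algHom_eq φ hφinj ν
    rw [hν] at h
    exact h.symm
  have hd0 : 0 < d := minpoly.natDegree_pos hint
  have hνN : ν ^ N ∈ (algebraMap K L).range := by
    rw [hrange, map_pow, hν]; exact hn
  have hYM : Y ^ M ∈ (algebraMap K L).range := by
    rw [hrange, map_pow, hY]; exact hyM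
  have hνd : ν ^ d ∈ (algebraMap K L).range := by
    have := hexL ν N hN hνN
    rwa [hminν] at this
  -- (iii) small powers are not scalars
  have hsmall : ∀ i : ℕ, 0 < i → i < d → ν ^ i ∉ (algebraMap K L).range := by
    rintro i hi0 hid ⟨c, hc⟩
    have h1 : aeval ν (X ^ i - C c) = 0 := by simp [hc]
    have h2 := minpoly.min K ν (monic_X_pow_sub_C c hi0.ne') h1
    rw [hminν, degree_X_pow_sub_C hi0 c, Polynomial.degree_eq_natDegree hirr.ne_zero] at h2
    have h3 : d ≤ i := by exact_mod_cast h2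
    omega
  -- (ii) d is invertible
  have hdK : (d : K) ≠ 0 := by
    intro hdz
    have hdvd : ringChar K ∣ d := (ringChar.spec K d).1 hdz
    have hne : ringChar K ≠ 0 := by
      intro h
      rw [h, zero_dvd_iff] at hdvd
      omega
    have hprime : (ringChar K).Prime := by
      rcases CharP.char_is_prime_or_zero K (ringChar K) with h | h
      · exact h
      · exact absurd h hne
    obtain ⟨e, he⟩ := hdvd
    have hch0 : ((ringChar K : ℕ) : K) = 0 := ringChar.Nat.cast_ringChar
    have hv : (ν ^ e) ^ (ringChar K) ∈ (algebraMap K L).range := by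
      rw [← pow_mul, mul_comm, ← he]; exact hνd
    have hv2 := hMpL _ hprime hch0 (ν ^ e) hv
    have he0 : 0 < e := by
      rcases Nat.eq_zero_or_pos e with h | h
      · rw [h, mul_zero] at he; omega
      · exact h
    have hed : e < d := by
      rw [he]
      have := hprime.two_le
      nlinarith
    exact hsmall e he0 hed hv2
  have hinvrange : ∀ z : L, z ∈ (algebraMap K L).range → z⁻¹ ∈ (algebraMap K L).range := by
    rintro z ⟨c, rfl⟩
    exact ⟨c⁻¹, by simp⟩
  by_cases hcase : ∃ i : ℕ, i < d ∧ Y * (ν⁻¹) ^ i ∈ (algebraMap K L).range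
  · obtain ⟨i, hid, c, hc⟩ := hcase
    refine ⟨i, hid, c, ?_⟩
    have h1 : Y = algebraMap K L c * ν ^ i := by
      rw [hc, mul_assoc, ← mul_pow, inv_mul_cancel₀ hν0, one_pow, mul_one]
    rw [← hY, h1, map_mul, map_pow, hν, hφalg]
  · exfalso
    push Not at hcase
    -- all the coordinates vanish
    have hcoord : ∀ i : ℕ, i < d → Algebra.trace K L (Y * (ν⁻¹) ^ i) = 0 := by
      intro i hi
      apply htr _ (M * N) (Nat.mul_pos hM hN) _ (hcase i hi)
      have h1 : (Y * (ν⁻¹) ^ i) ^ (M * N) = (Y ^ M) ^ N * ((ν ^ N)⁻¹) ^ (i * M) := by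
        rw [mul_pow, ← pow_mul, ← pow_mul, ← inv_pow, ← pow_mul]
        congr 2
        ring
      rw [h1]
      exact (algebraMap K L).range.mul_mem ((algebraMap K L).range.pow_mem hYM N)
        ((algebraMap K L).range.pow_mem (hinvrange _ hνN) _)
    have hsum : Y = ∑ j : Fin pb.dim, pb.basis.repr Y j • ν ^ (j : ℕ) := by
      conv_lhs => rw [← pb.basis.sum_repr Y]
      simp [pb.basis_eq_pow, hpbgen]
    have hzero : ∀ i : Fin pb.dim, pb.basis.repr Y i = 0 := by
      intro i
      have hi : (i : ℕ) < d := i.2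
      have h1 := hcoord i hi
      rw [hsum, Finset.sum_mul, map_sum] at h1
      have h2 : ∀ j : Fin pb.dim, Algebra.trace K L ((pb.basis.repr Y j • ν ^ (j : ℕ)) * (ν⁻¹) ^ (i : ℕ)) =
          if j = i then pb.basis.repr Y i * d else 0 := by
        intro j
        rw [smul_mul_assoc, map_smul]
        split_ifs with hji
        · subst hji
          rw [← mul_pow, mul_inv_cancel₀ hν0, one_pow]
          have h3 : Algebra.trace K L 1 = (d : K) := by
            have := Algebra.trace_algebraMap (R := K) (S := L) (1 : K)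
            rw [map_one] at this
            rw [this, pb.finrank]
            simp [hpbdim]
          rw [h3, smul_eq_mul]
        · have h4 : Algebra.trace K L (ν ^ (j : ℕ) * (ν⁻¹) ^ (i : ℕ)) = 0 := by
            apply htr _ N hN
            · rw [mul_pow, ← pow_mul, ← pow_mul, mul_comm (j : ℕ) N, mul_comm (i : ℕ) N, pow_mul,
                pow_mul, inv_pow]
              exact (algebraMap K L).range.mul_mem ((algebraMap K L).range.pow_mem hνN _)
                ((algebraMap K L).range.pow_mem (hinvrange _ hνN) _)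
            · intro hmem
              have hne : (j : ℕ) ≠ (i : ℕ) := fun h => hji (Fin.ext h)
              rcases lt_or_gt_of_ne hne with hlt | hgt
              · have h5 : (ν ^ (j : ℕ) * (ν⁻¹) ^ (i : ℕ))⁻¹ = ν ^ ((i : ℕ) - j) := by
                  rw [inv_pow, mul_inv, inv_inv, pow_sub₀ ν hν0 hlt.le, mul_comm]
                have h6 := hinvrange _ hmem
                rw [h5] at h6
                exact hsmall _ (by omega) (by omega) h6
              · have h5 : (ν ^ (j : ℕ) * (ν⁻¹) ^ (i : ℕ)) = ν ^ ((j : ℕ) - i) := by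
                  rw [inv_pow, pow_sub₀ ν hν0 hgt.le]
                rw [h5] at hmem
                exact hsmall _ (by omega) (by have : (j : ℕ) < d := j.2
                                              omega) hmem
          rw [h4, smul_zero]
      rw [Finset.sum_congr rfl (fun j _ => h2 j), Finset.sum_ite_eq' Finset.univ i] at h1
      simp only [Finset.mem_univ, if_true] at h1
      rcases mul_eq_zero.1 h1 with h | h
      · exact h
      · exact absurd h hdK
    apply hY0
    rw [hsum]
    apply Finset.sum_eq_zero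
    intro j _
    rw [hzero j, zero_smul]

theorem monom (D : Type u) [DivisionRing D] (R : RR D)
    (hMp : ∀ p : ℕ, p.Prime → (p : D) = 0 → ∀ v : D, v ^ p ∈ Subring.center D →
      v ∈ Subring.center D)
    (n y : D) (hn0 : n ≠ 0) (N : ℕ) (hN : 0 < N) (hn : n ^ N ∈ Subring.center D)
    (hy : y ∈ Algebra.adjoin (Subring.center D) {n}) (hy0 : y ≠ 0) (M : ℕ) (hM : 0 < M)
    (hyM : y ^ M ∈ Subring.center D) :
    ∃ j : ℕ, j < (minpoly (Subring.center D) n).natDegree ∧
      ∃ c : D, c ∈ Subring.center D ∧ y = c * n ^ j := by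
  have hcr : ∀ z : D, z ∈ Subring.center D ↔ z ∈ (algebraMap (Subring.center D) D).range := by
    intro z
    constructor
    · intro h
      exact ⟨⟨z, h⟩, rfl⟩
    · rintro ⟨c, rfl⟩
      exact c.2
  obtain ⟨j, hj, c, hc⟩ := monom_gen (K := Subring.center D) (D := D)
    (by
      intro z k hk hz
      rw [← hcr] at hz ⊢
      exact exact D R z z k hk hz (Algebra.self_mem_adjoin_singleton _ _) k hk hz)
    (by
      intro p hp hp0 v hv
      rw [← hcr] at hv ⊢
      refine hMp p hp ?_ v hv
      have := congrArg (algebraMap (Subring.center D) D) hp0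
      simpa using this)
    n y hn0 N hN ((hcr _).1 hn) hy hy0 M hM ((hcr _).1 hyM)
  exact ⟨j, hj, algebraMap (Subring.center D) D c, c.2, hc⟩

theorem moeb (D : Type u) [DivisionRing D] (R : RR D)
    (hMp : ∀ p : ℕ, p.Prime → (p : D) = 0 → ∀ v : D, v ^ p ∈ Subring.center D →
      v ∈ Subring.center D)
    (n : D) (hn0 : n ≠ 0) (N : ℕ) (hN : 0 < N) (hn : n ^ N ∈ Subring.center D)
    (hd : 3 ≤ (minpoly (Subring.center D) n).natDegree) (a b c : D)
    (ha : a ∈ Subring.center D) (hb : b ∈ Subring.center D) (hc : c ∈ Subring.center D)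
    (hc0 : c ≠ 0) (hab : a ≠ 0 ∨ b ≠ 0) (hdet : a * b + c ≠ 0) (M : ℕ) (hM : 0 < M)
    (hy : ((b * n + c) * (n - a)⁻¹) ^ M ∈ Subring.center D) : False := by
  classical
  set F := Subring.center D with hF
  set d := (minpoly F n).natDegree with hdd
  have hint : IsIntegral F n := by
    refine ⟨X ^ N - C (⟨n ^ N, hn⟩ : F), monic_X_pow_sub_C _ hN.ne', ?_⟩
    rw [← aeval_def]
    simp only [map_sub, map_pow, aeval_X, aeval_C]
    exact sub_self (n ^ N)
  have hind : ∀ P : F[X], P.natDegree < d → aeval n P = 0 → P = 0 := by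
    intro P hP h0
    by_contra hne
    have := minpoly.degree_le_of_ne_zero F n hne h0
    have h2 := natDegree_le_natDegree this
    omega
  have hcomm : ∀ z ∈ F, ∀ w : D, z * w = w * z := fun z hz w => ((Subring.mem_center_iff.1 hz) w).symm
  have hCa : ∀ (z : D) (hz : z ∈ F), aeval n (C (⟨z, hz⟩ : F)) = z := fun z hz => by
    rw [aeval_C]; rfl
  have hna : n - a ≠ 0 := by
    intro h
    have h1 : aeval n (X - C (⟨a, ha⟩ : F)) = 0 := by
      rw [map_sub, aeval_X, hCa, h]
    have h2 := hind _ (by rw [natDegree_X_sub_C]; omega) h1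
    exact X_sub_C_ne_zero _ h2
  have hlin : ∀ (z w : D) (hz : z ∈ F) (hw : w ∈ F), z * n + w = 0 → z = 0 ∧ w = 0 := by
    intro z w hz hw h
    have h1 : aeval n (C (⟨z, hz⟩ : F) * X + C (⟨w, hw⟩ : F)) = 0 := by
      rw [map_add, map_mul, aeval_X, hCa, hCa, h]
    have h2 := hind _ (lt_of_le_of_lt (natDegree_linear_le) (by omega)) h1
    have c1 : (⟨z, hz⟩ : F) = 0 := by
      have := congrArg (fun P => P.coeff 1) h2
      rw [coeff_add, coeff_C_mul, coeff_X_one, mul_one, coeff_C, if_neg one_ne_zero, add_zero] at this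
      exact this
    have c0 : (⟨w, hw⟩ : F) = 0 := by
      have := congrArg (fun P => P.coeff 0) h2
      rw [coeff_add, coeff_C_mul, coeff_X_zero, mul_zero, zero_add, coeff_C_zero] at this
      exact this
    exact ⟨congrArg Subtype.val c1, congrArg Subtype.val c0⟩
  have hbnc : b * n + c ≠ 0 := fun h => hc0 (hlin b c hb hc h).2
  have hinv : (n - a)⁻¹ ∈ Algebra.adjoin F {n} := by
    set p := minpoly F n with hp
    obtain ⟨q, hq⟩ := X_sub_C_dvd_sub_C_eval (p := p) (a := (⟨a, ha⟩ : F))
    have hp0 : aeval n p = 0 := minpoly.aeval F n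
    have hev : -(algebraMap F D (eval (⟨a, ha⟩ : F) p)) = (n - a) * aeval n q := by
      have h0 := congrArg (aeval n) hq
      rw [map_sub, map_mul, map_sub, aeval_X, aeval_C, aeval_C, hp0, zero_sub] at h0
      exact h0
    by_cases he : eval (⟨a, ha⟩ : F) p = 0
    · exfalso
      rw [he, map_zero, neg_zero] at hev
      rw [he, map_zero, sub_zero] at hq
      have hq0 : aeval n q = 0 := by
        rcases mul_eq_zero.1 hev.symm with h | h
        · exact absurd h hna
        · exact h
      have hpne : p ≠ 0 := minpoly.ne_zero hint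
      have hqne : q ≠ 0 := by
        rintro rfl
        rw [mul_zero] at hq
        exact hpne hq
      have hdeg : p.natDegree = 1 + q.natDegree := by
        rw [hq, natDegree_mul (X_sub_C_ne_zero _) hqne, natDegree_X_sub_C]
      exact hqne (hind q (by omega) hq0)
    · set e := eval (⟨a, ha⟩ : F) p with hee
      have he' : algebraMap F D e ≠ 0 := by
        intro h
        exact he ((map_eq_zero (algebraMap F D)).1 h)
      have h3 : (n - a)⁻¹ = aeval n q * algebraMap F D (-e⁻¹) := by
        apply inv_eq_of_mul_eq_one_right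
        rw [← mul_assoc, ← hev, map_neg, map_inv₀, neg_mul_neg, mul_inv_cancel₀ he']
      rw [h3]
      exact Subalgebra.mul_mem _ (aeval_mem_adjoin_singleton F n) (Subalgebra.algebraMap_mem _ _)
  have hymem : (b * n + c) * (n - a)⁻¹ ∈ Algebra.adjoin F {n} := by
    refine Subalgebra.mul_mem _ (Subalgebra.add_mem _ (Subalgebra.mul_mem _ ?_ (Algebra.self_mem_adjoin_singleton F n)) ?_) hinv
    · exact Subalgebra.algebraMap_mem (Algebra.adjoin F {n}) (⟨b, hb⟩ : F)
    · exact Subalgebra.algebraMap_mem (Algebra.adjoin F {n}) (⟨c, hc⟩ : F)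
  have hy0 : (b * n + c) * (n - a)⁻¹ ≠ 0 := mul_ne_zero hbnc (inv_ne_zero hna)
  obtain ⟨j, hj, g, hg, hyg⟩ := monom D R hMp n _ hn0 N hN hn hymem hy0 M hM hy
  have hg0 : g ≠ 0 := by
    rintro rfl
    rw [zero_mul] at hyg
    exact hy0 hyg
  have hkey : b * n + c = g * n ^ (j + 1) - g * a * n ^ j := by
    have h1 : b * n + c = g * n ^ j * (n - a) := by
      rw [← hyg, mul_assoc, inv_mul_cancel₀ hna, mul_one]
    rw [h1, mul_sub, pow_succ, mul_assoc g (n ^ j) n, mul_assoc g (n ^ j) a, ← hcomm a ha (n ^ j), ← mul_assoc g a]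
  have hga : g * a ∈ F := F.mul_mem hg ha
  rcases Nat.eq_zero_or_pos j with hj0 | hjpos
  · subst hj0
    have h1 : (b - g) * n + (c + g * a) = 0 := by
      have h2 := hkey
      rw [zero_add, pow_one, pow_zero, mul_one] at h2
      have : (b - g) * n + (c + g * a) = (b * n + c) - (g * n - g * a) := by noncomm_ring
      rw [this, h2, sub_self]
    obtain ⟨h3, h4⟩ := hlin _ _ (F.sub_mem hb hg) (F.add_mem hc hga) h1
    apply hdet
    have h5 : b = g := sub_eq_zero.1 h3
    rw [hcomm a ha b, h5]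
    rw [add_comm] at h4
    exact h4
  · rcases Nat.lt_or_ge (j + 1) d with hjd | hjd
    · set P : F[X] := C (⟨b, hb⟩ : F) * X + C (⟨c, hc⟩ : F) - C (⟨g, hg⟩ : F) * X ^ (j + 1) +
        C (⟨g * a, hga⟩ : F) * X ^ j with hP
      have h1 : aeval n P = 0 := by
        rw [hP]
        simp only [map_add, map_sub, map_mul, map_pow, aeval_X, hCa]
        rw [hkey]
        abel
      have h2 : P.natDegree < d := by
        refine lt_of_le_of_lt ?_ hjd
        rw [hP]
        compute_degree
      have h3 : (⟨c, hc⟩ : F) = 0 := by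
        have := congrArg (fun P => P.coeff 0) (hind P h2 h1)
        rw [hP] at this
        simpa [coeff_X_pow, hjpos.ne, hjpos.ne'] using this
      exact hc0 (congrArg Subtype.val h3)
    · have hjj : j < d := hj
      have hjd' : j + 1 = d := by omega
      have hnd : n ^ d ∈ F := exact D R n n N hN hn (Algebra.self_mem_adjoin_singleton F n) N hN hn
      have hβ : c - g * n ^ d ∈ F := F.sub_mem hc (F.mul_mem hg hnd)
      set P : F[X] := C (⟨b, hb⟩ : F) * X + C (⟨c - g * n ^ d, hβ⟩ : F) +
        C (⟨g * a, hga⟩ : F) * X ^ j with hP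
      have h1 : aeval n P = 0 := by
        rw [hP]
        simp only [map_add, map_mul, map_pow, aeval_X, hCa]
        have : b * n + (c - g * n ^ d) + g * a * n ^ j = (b * n + c) - (g * n ^ d - g * a * n ^ j) := by abel
        rw [this, hkey, hjd', sub_self]
      have h2 : P.natDegree < d := by
        refine lt_of_le_of_lt (b := j) ?_ (by omega)
        rw [hP]
        compute_degree
        omega
      have hP0 := hind P h2 h1
      have hj1 : j ≠ 1 := by omega
      have hj0 : j ≠ 0 := by omega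
      have h3 : (⟨g * a, hga⟩ : F) = 0 := by
        have := congrArg (fun P => P.coeff j) hP0
        simp only [hP, coeff_add, coeff_C_mul, coeff_X, coeff_C, coeff_X_pow, coeff_zero, if_true,
          mul_one, if_neg hj1.symm, if_neg hj0, mul_zero, add_zero, zero_add] at this
        exact this
      have h4 : (⟨b, hb⟩ : F) = 0 := by
        have := congrArg (fun P => P.coeff 1) hP0
        simp only [hP, coeff_add, coeff_C_mul, coeff_X, coeff_C, coeff_X_pow, coeff_zero, if_true,
          mul_one, if_neg hj1.symm, if_neg one_ne_zero, mul_zero, add_zero] at this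
        exact this
      have h5 : g * a = 0 := congrArg Subtype.val h3
      have h6 : b = 0 := congrArg Subtype.val h4
      rcases hab with h | h
      · exact h ((mul_eq_zero.1 h5).resolve_left hg0)
      · exact h h6

theorem deg2 (D : Type u) [DivisionRing D] (H : HH D) (R : RR D)
    (hMp : ∀ p : ℕ, p.Prime → (p : D) = 0 → ∀ v : D, v ^ p ∈ Subring.center D →
      v ∈ Subring.center D)
    (n : D) (N : ℕ) (hN : 0 < N) (hn : n ^ N ∈ Subring.center D)
    (hd : (minpoly (Subring.center D) n).natDegree ≤ 2) : n ∈ Subring.center D := by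
  have hint : IsIntegral (Subring.center D) n := by
    have h1 : IsIntegral (Subring.center D) (n ^ N) :=
      isIntegral_algebraMap (x := (⟨n ^ N, hn⟩ : Subring.center D))
    exact IsIntegral.of_pow hN h1
  have hpos : 0 < (minpoly (Subring.center D) n).natDegree := minpoly.natDegree_pos hint
  have hex := exact D R n n N hN hn (Algebra.self_mem_adjoin_singleton _ _) N hN hn
  interval_cases hcase : (minpoly (Subring.center D) n).natDegree
  · simpa using hex
  · by_contra hnc
    by_cases h2 : (2 : D) = 0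
    · exact hnc (hMp 2 Nat.prime_two (by exact_mod_cast h2) n hex)
    · have hn0 : n ≠ 0 := by
        rintro rfl
        exact hnc (Subring.zero_mem _)
      rw [Subring.mem_center_iff] at hnc
      push Not at hnc
      obtain ⟨a, ha⟩ := hnc
      have hw : n * a - a * n ≠ 0 := by
        intro h
        exact ha (sub_eq_zero.mp h).symm
      have hc := (Subring.mem_center_iff.mp hex) a
      refine eigFalse D H R n (n * a - a * n) (-1) hn0 hw
        (Subring.neg_mem _ (Subring.one_mem _)) (neg_ne_zero.mpr one_ne_zero) ?_ ?_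
      · intro h
        apply h2
        have : (1 : D) + 1 = 0 := by
          nth_rewrite 1 [← h]
          simp
        rw [← one_add_one_eq_two]
        exact this
      · have e1 : n * (n * a - a * n) = n ^ 2 * a - n * a * n := by noncomm_ring
        have e2 : (-1) * (n * a - a * n) * n = a * n ^ 2 - n * a * n := by noncomm_ring
        rw [e1, e2, hc]

theorem hM3b (D : Type u) [DivisionRing D] (H : HH D) (R : RR D)
    (hMp : ∀ p : ℕ, p.Prime → (p : D) = 0 → ∀ v : D, v ^ p ∈ Subring.center D →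
      v ∈ Subring.center D) (p : ℕ) (hp : p.Prime)
    (hpD : (p : D) ≠ 0) (g : (Subring.center D)[X]) (hg : g.natDegree = 3)
    (hgd : g ∣ cyclotomic p (Subring.center D)) (v : D)
    (hnc : v ∉ Subring.center D) (x : D) (hx : x ≠ 0)
    (h : ∑ k ∈ Finset.range (g.natDegree + 1),
        (g.coeff k : D) * (v ^ k * x * (v ^ k)⁻¹) = 0) : False := by
  have hv : v ≠ 0 := by
    rintro rfl
    exact hnc (Subring.zero_mem _)
  haveI : Fact p.Prime := ⟨hp⟩
  obtain ⟨q, hq⟩ := hgd
  have hc0 : g.coeff 0 ≠ 0 := by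
    intro h0
    have h1 : (cyclotomic p (Subring.center D)).coeff 0 = 1 :=
      cyclotomic_coeff_zero _ hp.one_lt
    rw [hq, mul_coeff_zero, h0, zero_mul] at h1
    exact zero_ne_one h1
  have hg1 : g.eval 1 ≠ 0 := by
    intro h0
    have h1 : eval 1 (cyclotomic p (Subring.center D)) = (p : Subring.center D) :=
      eval_one_cyclotomic_prime
    rw [hq, eval_mul, h0, zero_mul] at h1
    apply hpD
    have h2 := congrArg Subtype.val h1
    have h3 : ((p : Subring.center D) : D) = (p : D) := by simp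
    rw [← h3]
    exact h2.symm
  have hc3 : g.coeff 3 ≠ 0 := by
    intro h0
    have h1 : g.leadingCoeff = 0 := by rw [leadingCoeff, hg, h0]
    rw [leadingCoeff_eq_zero] at h1
    rw [h1, natDegree_zero] at hg
    omega
  rw [eval_eq_sum_range, hg] at hg1
  simp only [Finset.sum_range_succ, Finset.sum_range_zero, one_pow, mul_one, zero_add] at hg1
  rw [hg] at h
  simp only [Finset.sum_range_succ, Finset.sum_range_zero, zero_add, pow_zero, one_mul, inv_one,
    mul_one, pow_one] at h
  have m0 := (g.coeff 0).2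
  have m1 := (g.coeff 1).2
  have m2 := (g.coeff 2).2
  have m3 := (g.coeff 3).2
  have hg1D : ((g.coeff 0 : D) + (g.coeff 1 : D) + (g.coeff 2 : D) + (g.coeff 3 : D)) ≠ 0 := by
    intro h0
    apply hg1
    apply Subtype.ext
    simpa using h0
  have hc0D : (g.coeff 0 : D) ≠ 0 := fun h0 => hc0 (Subtype.ext h0)
  have hc3D : (g.coeff 3 : D) ≠ 0 := fun h0 => hc3 (Subtype.ext h0)
  generalize (g.coeff 0 : D) = e0 at *
  generalize (g.coeff 1 : D) = e1 at *
  generalize (g.coeff 2 : D) = e2 at *
  generalize (g.coeff 3 : D) = e3 at *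
  have m3i : e3⁻¹ ∈ Subring.center D := by
    rw [Subring.mem_center_iff] at m3 ⊢
    intro y
    exact ((show Commute y e3 from m3 y).inv_right₀).eq
  obtain ⟨a, ha⟩ : ∃ a, a = -(e3⁻¹ * e2) := ⟨_, rfl⟩
  obtain ⟨b, hb⟩ : ∃ b, b = -(e3⁻¹ * e1) := ⟨_, rfl⟩
  obtain ⟨c, hc⟩ : ∃ c, c = -(e3⁻¹ * e0) := ⟨_, rfl⟩
  have haC : a ∈ Subring.center D := by
    rw [ha]
    exact Subring.neg_mem _ (Subring.mul_mem _ m3i m2)
  have hbC : b ∈ Subring.center D := by
    rw [hb]
    exact Subring.neg_mem _ (Subring.mul_mem _ m3i m1)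
  have hcC : c ∈ Subring.center D := by
    rw [hc]
    exact Subring.neg_mem _ (Subring.mul_mem _ m3i m0)
  have hcne : c ≠ 0 := by
    rw [hc]
    exact neg_ne_zero.mpr (mul_ne_zero (inv_ne_zero hc3D) hc0D)
  have h1abc : 1 - a - b - c ≠ 0 := by
    intro h0
    apply hg1D
    have h2 : e3 * (1 - a - b - c) = e0 + e1 + e2 + e3 := by
      rw [ha, hb, hc, mul_sub, mul_sub, mul_sub, mul_neg, mul_neg, mul_neg,
        mul_inv_cancel_left₀ hc3D, mul_inv_cancel_left₀ hc3D, mul_inv_cancel_left₀ hc3D, mul_one]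
      abel
    rw [← h2, h0, mul_zero]
  have hx3 : v ^ 3 * x * (v ^ 3)⁻¹ = a * (v ^ 2 * x * (v ^ 2)⁻¹) + b * (v * x * v⁻¹) + c * x := by
    have h' : e3⁻¹ * (e0 * x + e1 * (v * x * v⁻¹) + e2 * (v ^ 2 * x * (v ^ 2)⁻¹) +
        e3 * (v ^ 3 * x * (v ^ 3)⁻¹)) = 0 := by rw [h, mul_zero]
    generalize v ^ 3 * x * (v ^ 3)⁻¹ = X3 at *
    generalize v ^ 2 * x * (v ^ 2)⁻¹ = X2 at *
    generalize v * x * v⁻¹ = X1 at *
    rw [mul_add, mul_add, mul_add, inv_mul_cancel_left₀ hc3D] at h'
    rw [eq_neg_of_add_eq_zero_right h', ha, hb, hc]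
    simp only [neg_mul, mul_assoc]
    abel
  have comm : ∀ {z : D}, z ∈ Subring.center D → ∀ y : D, z * y = y * z := fun hz y =>
    (Subring.mem_center_iff.mp hz y).symm
  obtain ⟨n, hn⟩ : ∃ n, n = v * x * v⁻¹ * x⁻¹ := ⟨_, rfl⟩
  have hn0 : n ≠ 0 := by
    rw [hn]
    exact mul_ne_zero (mul_ne_zero (mul_ne_zero hv hx) (inv_ne_zero hv)) (inv_ne_zero hx)
  obtain ⟨N, hN, hnN⟩ := H v x hv hx
  rw [← hn] at hnN
  have hnx : n * x = v * x * v⁻¹ := by
    rw [hn, inv_mul_cancel_right₀ hx]
  have hnv : v * x = n * x * v := by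
    rw [hnx, inv_mul_cancel_right₀ hv]
  have hnC : n ∉ Subring.center D := by
    intro hnC
    by_cases hn1 : n = 1
    · rw [hn1, one_mul] at hnv
      have hcv : Commute v x := hnv
      have k1 : v * x * v⁻¹ = x := by rw [hcv.eq, mul_inv_cancel_right₀ hv]
      have k2 : v ^ 2 * x * (v ^ 2)⁻¹ = x := by
        rw [(hcv.pow_left 2).eq, mul_inv_cancel_right₀ (pow_ne_zero 2 hv)]
      have k3 : v ^ 3 * x * (v ^ 3)⁻¹ = x := by
        rw [(hcv.pow_left 3).eq, mul_inv_cancel_right₀ (pow_ne_zero 3 hv)]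
      rw [k1, k2, k3] at hx3
      have h4 : (1 - a - b - c) * x = 0 := by
        rw [sub_mul, sub_mul, sub_mul, one_mul]
        nth_rewrite 1 [hx3]
        abel
      rcases mul_eq_zero.mp h4 with h5 | h5
      · exact h1abc h5
      · exact hx h5
    · exact eigFalse D H R v x n hv hx hnC hn0 hn1 hnv
  have hdeg : 3 ≤ (minpoly (Subring.center D) n).natDegree := by
    by_contra hlt
    exact hnC (deg2 D H R hMp n N hN hnN (by omega))
  have hna : n - a ≠ 0 := by
    intro h0
    rw [sub_eq_zero] at h0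
    exact hnC (h0 ▸ haC)
  obtain ⟨t, ht⟩ : ∃ t, t = (n - a) * x := ⟨_, rfl⟩
  have ht0 : t ≠ 0 := by
    rw [ht]
    exact mul_ne_zero hna hx
  have hv2 : v ^ 2 ≠ 0 := pow_ne_zero 2 hv
  have hv3 : v ^ 3 ≠ 0 := pow_ne_zero 3 hv
  have hs2 : v ^ 2 * t * (v ^ 2)⁻¹ = (b * n + c) * x := by
    have e1 : t = v * x * v⁻¹ - a * x := by rw [ht, sub_mul, hnx]
    have e2 : v ^ 2 * (v * x * v⁻¹) * (v ^ 2)⁻¹ = v ^ 3 * x * (v ^ 3)⁻¹ := by
      have : v ^ 3 = v ^ 2 * v := pow_succ v 2
      rw [this, mul_inv_rev]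
      simp only [mul_assoc]
    have e3 : v ^ 2 * (a * x) * (v ^ 2)⁻¹ = a * (v ^ 2 * x * (v ^ 2)⁻¹) := by
      rw [← mul_assoc (v ^ 2) a x, ← comm haC (v ^ 2)]
      simp only [mul_assoc]
    rw [e1, mul_sub, sub_mul, e2, e3, hx3, add_mul, mul_assoc b n x, hnx]
    abel
  obtain ⟨M, hM, hMc⟩ := H (v ^ 2) t hv2 ht0
  have hcom : v ^ 2 * t * (v ^ 2)⁻¹ * t⁻¹ = (b * n + c) * (n - a)⁻¹ := by
    rw [hs2, ht, mul_inv_rev, mul_assoc, ← mul_assoc x, mul_inv_cancel₀ hx, one_mul]
  rw [hcom] at hMc
  have hab : a ≠ 0 ∨ b ≠ 0 := by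
    by_contra hcon
    push Not at hcon
    obtain ⟨ha0, hb0⟩ := hcon
    rw [ha0, hb0, zero_mul, zero_mul, zero_add, zero_add] at hx3
    have hc1 : c ≠ 1 := by
      intro hc1
      apply h1abc
      rw [ha0, hb0, hc1]
      simp
    have h5 : v ^ 3 * x = c * x * v ^ 3 := by
      rw [← hx3, inv_mul_cancel_right₀ hv3]
    exact eigFalse D H R (v ^ 3) x c hv3 hx hcC hcne hc1 h5
  have hdet : a * b + c ≠ 0 := by
    intro h0
    have hc' : c = -(a * b) := eq_neg_of_add_eq_zero_right h0
    have hb0 : b ≠ 0 := by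
      intro hb0
      apply hcne
      rw [hc', hb0, mul_zero, neg_zero]
    have hb1 : b ≠ 1 := by
      intro hb1
      apply h1abc
      rw [hc', hb1, mul_one]
      abel
    have h5 : b * n + c = b * (n - a) := by
      rw [hc', mul_sub, comm haC b]
      abel
    have h6 : v ^ 2 * t = b * t * v ^ 2 := by
      have h7 : v ^ 2 * t * (v ^ 2)⁻¹ = b * t := by
        rw [hs2, h5, ht, mul_assoc]
      rw [← h7, inv_mul_cancel_right₀ hv2]
    exact eigFalse D H R (v ^ 2) t b hv2 ht0 hbC hb0 hb1 h6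
  exact moeb D R hMp n hn0 N hN hnN hdeg a b c haC hbC hcC hcne hab hdet M hM hMc

theorem hM3 (D : Type u) [DivisionRing D] (H : HH D) (R : RR D) (p : ℕ) (hp : p.Prime)
    (hpD : (p : D) ≠ 0) (g : (Subring.center D)[X]) (hg : 1 ≤ g.natDegree)
    (hg3 : g.natDegree ≤ 3) (hgd : g ∣ cyclotomic p (Subring.center D)) (v : D)
    (hv : v ^ p ∈ Subring.center D) : v ∈ Subring.center D := by
  by_contra hnc
  obtain ⟨i, hi, x, hx, h⟩ := hM2a D p hp hpD g hg hgd v hv hnc
  have hvi : (v ^ i) ^ p ∈ Subring.center D := by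
    rw [← pow_mul, mul_comm, pow_mul]
    exact Subring.pow_mem _ hv i
  rcases (by omega : g.natDegree ≤ 2 ∨ g.natDegree = 3) with h2 | h3
  · exact hM2b D H R p hp hpD g hg h2 hgd (v ^ i) hvi hi x hx h
  · exact hM3b D H R (fun q hq h0 w hw => hMp D H R q hq h0 w hw) p hp hpD g h3 hgd (v ^ i) hi
      x hx h

theorem main3 (D : Type u) [DivisionRing D]
    (H : ∀ x y : D, x ≠ 0 → y ≠ 0 →
      ∃ n : ℕ, 0 < n ∧ (x * y * x⁻¹ * y⁻¹) ^ n ∈ Subring.center D ∧
        ∀ p : ℕ, p.Prime → p ∣ n → (p : D) = 0 ∨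
          ∃ g : (Subring.center D)[X], 1 ≤ g.natDegree ∧ g.natDegree ≤ 3 ∧
            g ∣ cyclotomic p (Subring.center D)) :
    ∀ a b : D, a * b = b * a := by
  have hH : HH D := by
    intro x y hx hy
    obtain ⟨n, hn, h, -⟩ := H x y hx hy
    exact ⟨n, hn, h⟩
  have R : RR D := hR D hH
  apply hA
  intro x y hx hy
  obtain ⟨n, hn, hc, hp⟩ := H x y hx hy
  set c := x * y * x⁻¹ * y⁻¹ with hcdef
  have key : ∀ m : ℕ, 0 < m → m ∣ n → c ^ m ∈ Subring.center D → c ∈ Subring.center D := by
    intro m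
    induction m using Nat.strong_induction_on with
    | _ m ih =>
      intro hm hmn hcm
      by_cases h1 : m = 1
      · subst h1; simpa using hcm
      obtain ⟨p, hpp, hpm⟩ := Nat.exists_prime_and_dvd h1
      obtain ⟨m', rfl⟩ := hpm
      have hm' : 0 < m' := by
        rcases Nat.eq_zero_or_pos m' with h0 | h0
        · subst h0; simp at hm
        · exact h0
      have hlt : m' < p * m' := by
        have := hpp.two_le
        nlinarith
      have hdvd : m' ∣ n := (Dvd.intro_left p rfl).trans hmn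
      have hpn : p ∣ n := (Dvd.intro m' rfl).trans hmn
      have hv : (c ^ m') ^ p ∈ Subring.center D := by
        rw [← pow_mul, mul_comm]; exact hcm
      apply ih m' hlt hm' hdvd
      rcases hp p hpp hpn with h0 | ⟨g, hg1, hg2, hgd⟩
      · exact hMp D hH R p hpp h0 _ hv
      · by_cases hpD : (p : D) = 0
        · exact hMp D hH R p hpp hpD _ hv
        · exact hM3 D hH R p hpp hpD g hg1 hg2 hgd _ hv
  exact key n hn dvd_rfl hc

end Pool.Agent.Helper656.Her
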