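import Pool.Agent.Helper656.Her.Core

set_option autoImplicit false

namespace Pool.Agent.Helper656.Her

open Polynomial

universe u

/-- `P` is (membership in) a normal subgroup of `D*` containing all nonzero central elements, all of
whose elements have a positive power in the centre -/
structure NS (D : Type u) [DivisionRing D] (P : D → Prop) : Prop where
  ne : ∀ a, P a → a ≠ 0
  mul : ∀ a b, P a → P b → P (a * b)
  inv : ∀ a, P a → P a⁻¹
  conj : ∀ a x, P a → x ≠ 0 → P (x * a * x⁻¹)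
  cen : ∀ a, a ∈ Subring.center D → a ≠ 0 → P a
  rad : ∀ a, P a → ∃ n : ℕ, 0 < n ∧ a ^ n ∈ Subring.center D

/-- every element of `P` of finite multiplicative order is central -/
def RN (D : Type u) [DivisionRing D] (P : D → Prop) : Prop :=
  ∀ (w : D) (k : ℕ), P w → 0 < k → w ^ k = 1 → w ∈ Subring.center D


theorem eF_transfer_N (D : Type u) [DivisionRing D] (x e om : D) (he : e ∈ Subring.center D)
    (hom : om ∈ Subring.center D) :
    ∃ (R0 : Type u) (_ : CommRing R0) (_ : IsDomain R0) (f : R0 →+* D),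
      Function.Injective f ∧ ∃ x' e' om' : R0, f x' = x ∧ f e' = e ∧ f om' = om := by
  have hcomm : ∀ a ∈ ({x, e, om} : Set D), ∀ b ∈ ({x, e, om} : Set D), a * b = b * a := by
    have h1 : ∀ g : D, g * e = e * g := Subring.mem_center_iff.mp he
    have h2 : ∀ g : D, g * om = om * g := Subring.mem_center_iff.mp hom
    intro a ha b hb
    simp only [Set.mem_insert_iff, Set.mem_singleton_iff] at ha hb
    rcases ha with rfl | rfl | rfl <;> rcases hb with rfl | rfl | rfl <;>
      first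
      | rfl
      | exact h1 _
      | exact h2 _
      | exact (h1 _).symm
      | exact (h2 _).symm
  let : CommRing (Subring.closure ({x, e, om} : Set D)) :=
    Subring.closureCommRingOfComm hcomm
  refine ⟨Subring.closure ({x, e, om} : Set D), inferInstance, ?_,
    (Subring.closure ({x, e, om} : Set D)).subtype, Subtype.val_injective,
    ⟨x, Subring.subset_closure (by simp)⟩, ⟨e, Subring.subset_closure (by simp)⟩,
    ⟨om, Subring.subset_closure (by simp)⟩, rfl, rfl, rfl⟩
  exact (inferInstance : IsDomain (Subring.closure ({x, e, om} : Set D)))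

theorem eF_comm_N {R0 : Type u} [CommRing R0] [IsDomain R0] (x e om : R0) (hx : x ≠ 0)
    (he0 : e ≠ 0) (he1 : e ≠ 1) (hee : e * e ≠ 1)
    (h1 : (e * (e * x) + 1) * (x + 1) = om * ((e * x + 1) * (e * x + 1)))
    (h2 : (e * (e * (e * x)) + 1) * (e * x + 1) =
      om * ((e * (e * x) + 1) * (e * (e * x) + 1)))
    (h3 : (e * (e * (e * (e * x))) + 1) * (e * (e * x) + 1) =
      om * ((e * (e * (e * x)) + 1) * (e * (e * (e * x)) + 1))) : False := by
  have he1' : 1 - e ≠ 0 := fun h => he1 (by linear_combination -h)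
  have hee' : 1 - e * e ≠ 0 := fun h => hee (by linear_combination -h)
  have k1 : (e ^ 2 * (1 - om)) * x * (1 + e) + (e ^ 2 + 1 - 2 * om * e) = 0 := by
    have : x * (1 - e) * ((e ^ 2 * (1 - om)) * x * (1 + e) + (e ^ 2 + 1 - 2 * om * e)) = 0 := by
      linear_combination h1 - h2
    rcases mul_eq_zero.mp this with h | h
    · exact absurd h (mul_ne_zero hx he1')
    · exact h
  have k2 : (e ^ 2 * (1 - om)) * (e * x) * (1 + e) + (e ^ 2 + 1 - 2 * om * e) = 0 := by
    have : e * x * (1 - e) *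
        ((e ^ 2 * (1 - om)) * (e * x) * (1 + e) + (e ^ 2 + 1 - 2 * om * e)) = 0 := by
      linear_combination h2 - h3
    rcases mul_eq_zero.mp this with h | h
    · exact absurd h (mul_ne_zero (mul_ne_zero he0 hx) he1')
    · exact h
  have k3 : 1 - om = 0 := by
    have : (e ^ 2 * x * (1 - e * e)) * (1 - om) = 0 := by
      linear_combination k1 - k2
    rcases mul_eq_zero.mp this with h | h
    · exact absurd h (mul_ne_zero (mul_ne_zero (pow_ne_zero 2 he0) hx) hee')
    · exact h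
  have k4 : (1 - e) * (1 - e) = 0 := by
    linear_combination k1 - (e ^ 2 * x * (1 + e)) * k3 - 2 * e * k3
  rcases mul_eq_zero.mp k4 with h | h <;> exact he1' h

theorem eigFalseN (D : Type u) [DivisionRing D] (P : D → Prop) (H : NS D P) (R : RN D P)
    (v x e : D) (hv : P v)
    (hx : x ≠ 0) (he : e ∈ Subring.center D) (he0 : e ≠ 0) (he1 : e ≠ 1)
    (h : v * x = e * x * v) : False := by
  have hvP : P v := hv
  replace hv : v ≠ 0 := H.ne v hvP
  have ec : ∀ g : D, g * e = e * g := Subring.mem_center_iff.mp he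
  let σ : D →+* D :=
    { toFun := fun y => v * y * v⁻¹
      map_one' := by simp [hv]
      map_zero' := by simp
      map_add' := by intro a b; simp only [mul_add, add_mul]
      map_mul' := by
        intro a b
        have : v⁻¹ * v = 1 := inv_mul_cancel₀ hv
        calc v * (a * b) * v⁻¹ = v * a * 1 * b * v⁻¹ := by noncomm_ring
          _ = v * a * (v⁻¹ * v) * b * v⁻¹ := by rw [this]
          _ = v * a * v⁻¹ * (v * b * v⁻¹) := by noncomm_ring }
  have σdef : ∀ y, σ y = v * y * v⁻¹ := fun y => rfl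
  have σx : σ x = e * x := by
    rw [σdef, h, mul_assoc, mul_inv_cancel₀ hv, mul_one]
  have σc : ∀ z ∈ Subring.center D, σ z = z := by
    intro z hz
    rw [σdef, Subring.mem_center_iff.mp hz v, mul_assoc, mul_inv_cancel₀ hv, mul_one]
  have σe : σ e = e := σc e he
  set A := x + 1 with hA
  set B := e * x + 1 with hB
  set C := e * (e * x) + 1 with hC
  have σA : σ A = B := by rw [hA, map_add, σx, map_one]
  have σB : σ B = C := by rw [hB, map_add, map_mul, σx, map_one, σe]
  have A0 : A ≠ 0 := by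
    intro h0
    have hx1 : x = -1 := eq_neg_of_add_eq_zero_left h0
    have h1 : e * x = x := by
      rw [← σx, hx1, map_neg, map_one]
    exact he1 (mul_right_cancel₀ hx (by rw [h1, one_mul]))
  have B0 : B ≠ 0 := by
    rw [← σA]; exact (map_ne_zero σ).mpr A0
  have C0 : C ≠ 0 := by
    rw [← σB]; exact (map_ne_zero σ).mpr B0
  have exc : Commute (e * x) x := by
    change e * x * x = x * (e * x)
    rw [← mul_assoc x e x, ec x]
  have eexc : Commute (e * (e * x)) x := by
    change e * (e * x) * x = x * (e * (e * x))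
    rw [← mul_assoc x e (e * x), ec x, mul_assoc e (e * x) x, exc.eq, mul_assoc e x]
  have eexc2 : Commute (e * (e * x)) (e * x) := by
    change e * (e * x) * (e * x) = e * x * (e * (e * x))
    have := ec (e * x)
    calc e * (e * x) * (e * x) = ((e * x) * e) * (e * x) := by rw [this]
      _ = e * x * (e * (e * x)) := by rw [mul_assoc (e * x) e (e * x)]
  have cBA : Commute B A :=
    (exc.add_right (Commute.one_right _)).add_left (Commute.one_left _)
  have cCA : Commute C A :=
    (eexc.add_right (Commute.one_right _)).add_left (Commute.one_left _)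
  have cCB : Commute C B :=
    (eexc2.add_right (Commute.one_right _)).add_left (Commute.one_left _)
  have hqP : P (v * A * v⁻¹ * A⁻¹) := by
    have h1 := H.mul v (A * v⁻¹ * A⁻¹) hvP (H.conj v⁻¹ A (H.inv v hvP) A0)
    rwa [← mul_assoc, ← mul_assoc] at h1
  obtain ⟨n, hn, hc⟩ := H.rad _ hqP
  have hq : v * A * v⁻¹ * A⁻¹ = B * A⁻¹ := by rw [← σdef A, σA]
  have hBA : P (B * A⁻¹) := by rw [← hq]; exact hqP
  have homP : P (C * A * (B * B)⁻¹) := by
    have h1 := H.mul _ _ (H.conj (B * A⁻¹) v hBA hv) (H.inv _ hBA)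
    have h2 : v * (B * A⁻¹) * v⁻¹ = C * B⁻¹ := by
      rw [← σdef (B * A⁻¹), map_mul, map_inv₀, σB, σA]
    have h3 : C * B⁻¹ * (B * A⁻¹)⁻¹ = C * A * (B * B)⁻¹ := by
      rw [mul_inv_rev, inv_inv, mul_inv_rev]
      have h4 : B⁻¹ * A = A * B⁻¹ := cBA.inv_left₀.eq
      calc C * B⁻¹ * (A * B⁻¹) = C * (B⁻¹ * A) * B⁻¹ := by simp only [mul_assoc]
        _ = C * (A * B⁻¹) * B⁻¹ := by rw [h4]
        _ = C * A * (B⁻¹ * B⁻¹) := by simp only [mul_assoc]
    rw [h2, h3] at h1
    exact h1
  rw [hq, (cBA.inv_right₀).mul_pow] at hc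
  set c := B ^ n * A⁻¹ ^ n with hcdef
  have cc : ∀ g : D, g * c = c * g := Subring.mem_center_iff.mp hc
  have e1 : B ^ n = c * A ^ n := by
    rw [hcdef, mul_assoc, ← (Commute.refl A).inv_left₀.mul_pow, inv_mul_cancel₀ A0, one_pow,
      mul_one]
  have e2 : C ^ n = c * B ^ n := by
    have := congrArg σ e1
    rwa [map_pow, map_mul, map_pow, σB, σA, σc c hc] at this
  clear_value c
  by_cases hee : e * e = 1
  · rcases mul_self_eq_one_iff.mp hee with h1 | h1
    · exact he1 h1
    have hCA : C = A := by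
      rw [hC, ← mul_assoc, hee, one_mul]
    rw [hCA] at e2
    have e3 : A ^ n * A ^ n = B ^ n * B ^ n := by
      calc A ^ n * A ^ n = c * B ^ n * A ^ n := by rw [← e2]
        _ = c * (B ^ n * A ^ n) := by rw [mul_assoc]
        _ = c * (A ^ n * B ^ n) := by rw [(cBA.pow_pow n n).eq]
        _ = c * A ^ n * B ^ n := by rw [mul_assoc c]
        _ = B ^ n * B ^ n := by rw [← e1]
    have hw : (B * A⁻¹) ^ (2 * n) = 1 := by
      rw [(cBA.inv_right₀).mul_pow, two_mul, pow_add, ← e3, pow_add]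
      have : A * A⁻¹ = 1 := mul_inv_cancel₀ A0
      calc A ^ n * A ^ n * (A⁻¹ ^ n * A⁻¹ ^ n) = (A ^ n * A ^ n) * (A⁻¹ ^ n * A⁻¹ ^ n) := rfl
        _ = A ^ (n + n) * A⁻¹ ^ (n + n) := by rw [pow_add, pow_add]
        _ = (A * A⁻¹) ^ (n + n) := ((Commute.refl A).inv_right₀.mul_pow _).symm
        _ = 1 := by rw [this, one_pow]
    have wc := R (B * A⁻¹) (2 * n) hBA (by omega) hw
    set w := B * A⁻¹ with hwdef
    have f1 : B = w * A := by rw [hwdef, mul_assoc, inv_mul_cancel₀ A0, mul_one]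
    have f2 : A = w * B := by
      have := congrArg σ f1
      rwa [σB, hCA, map_mul, σA, σc w wc] at this
    clear_value w
    have f3 : A * A = B * B := by
      calc A * A = w * B * A := by rw [← f2]
        _ = w * (B * A) := by rw [mul_assoc]
        _ = w * (A * B) := by rw [cBA.eq]
        _ = w * A * B := by rw [mul_assoc w]
        _ = B * B := by rw [← f1]
    have f4 : (2 : D) * (2 * x) = 0 := by
      have : A * A - B * B = 2 * (2 * x) := by
        rw [hA, hB, h1]
        noncomm_ring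
      rw [← this, f3, sub_self]
    have h2 : (2 : D) = 0 := by
      rcases mul_eq_zero.mp f4 with h | h
      · exact h
      · rcases mul_eq_zero.mp h with h | h
        · exact h
        · exact absurd h hx
    apply he1
    rw [h1]
    have : (1 : D) + 1 = 0 := by rw [one_add_one_eq_two, h2]
    exact neg_eq_of_add_eq_zero_left this
  · have g1 : (C * A) ^ n = (B * B) ^ n := by
      rw [cCA.mul_pow, (Commute.refl B).mul_pow, e2]
      calc c * B ^ n * A ^ n = c * (B ^ n * A ^ n) := by rw [mul_assoc]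
        _ = c * (A ^ n * B ^ n) := by rw [(cBA.pow_pow n n).eq]
        _ = c * A ^ n * B ^ n := by rw [mul_assoc c]
        _ = B ^ n * B ^ n := by rw [← e1]
    have cc1 : Commute (C * A) (B * B) :=
      ((cCB.mul_right cCB).mul_left (cBA.symm.mul_right cBA.symm))
    have BB0 : B * B ≠ 0 := mul_ne_zero B0 B0
    have g2 : (C * A * (B * B)⁻¹) ^ n = 1 := by
      rw [(cc1.inv_right₀).mul_pow, g1, ← (Commute.refl (B * B)).inv_right₀.mul_pow,
        mul_inv_cancel₀ BB0, one_pow]
    have oc := R _ n homP hn g2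
    set om := C * A * (B * B)⁻¹ with homdef
    have g3 : C * A = om * (B * B) := by
      rw [homdef, mul_assoc, inv_mul_cancel₀ BB0, mul_one]
    have σom := σc om oc
    clear_value om
    obtain ⟨R0, _, _, f, hf, x', e', om', hfx, hfe, hfo⟩ := eF_transfer_N D x e om he oc
    have q1 : f ((e' * (e' * x') + 1) * (x' + 1)) =
        f (om' * ((e' * x' + 1) * (e' * x' + 1))) := by
      simp only [map_mul, map_add, map_one, hfx, hfe, hfo]
      exact g3
    have g4 : (e * (e * (e * x)) + 1) * (e * x + 1) =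
        om * ((e * (e * x) + 1) * (e * (e * x) + 1)) := by
      have := congrArg σ g3
      rw [map_mul, map_mul, map_mul, σA, σB, σom] at this
      simp only [hB, hC, map_add, map_mul, σe, σx, map_one] at this
      exact this
    have q2 : f ((e' * (e' * (e' * x')) + 1) * (e' * x' + 1)) =
        f (om' * ((e' * (e' * x') + 1) * (e' * (e' * x') + 1))) := by
      simp only [map_mul, map_add, map_one, hfx, hfe, hfo]
      exact g4
    have g5 : (e * (e * (e * (e * x))) + 1) * (e * (e * x) + 1) =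
        om * ((e * (e * (e * x)) + 1) * (e * (e * (e * x)) + 1)) := by
      have := congrArg σ g4
      simp only [map_add, map_mul, σe, σx, map_one, σom] at this
      exact this
    have q3 : f ((e' * (e' * (e' * (e' * x'))) + 1) * (e' * (e' * x') + 1)) =
        f (om' * ((e' * (e' * (e' * x')) + 1) * (e' * (e' * (e' * x')) + 1))) := by
      simp only [map_mul, map_add, map_one, hfx, hfe, hfo]
      exact g5
    refine eF_comm_N x' e' om' ?_ ?_ ?_ ?_ (hf q1) (hf q2) (hf q3)
    · rintro rfl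
      exact hx (by rw [← hfx, map_zero])
    · rintro rfl
      exact he0 (by rw [← hfe, map_zero])
    · rintro rfl
      exact he1 (by rw [← hfe, map_one])
    · intro hh
      exact hee (by rw [← hfe, ← map_mul, hh, map_one])

lemma coe_comm_N (D : Type u) [DivisionRing D] (a : Subring.center D) (z : D) :
    (a : D) * z = z * (a : D) := (Subring.mem_center_iff.1 a.2 z).symm

lemma finish_N (D : Type u) [DivisionRing D] (P : D → Prop) (H : NS D P) (R : RN D P) (p : ℕ) (hp : p.Prime)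
    (hpD : (p : D) ≠ 0) (g : (Subring.center D)[X]) (hgd : g ∣ cyclotomic p (Subring.center D))
    (v x y : D) (hPv : P v) (hPy : P y) (hx : x ≠ 0) (hy0 : y ≠ 0) (hvx : v * x = y * x * v)
    (hgy : g.eval₂ (Subring.center D).subtype y = 0) : False := by
  haveI := Fact.mk hp
  let φ := eval₂RingHom' (Subring.center D).subtype y (fun a => coe_comm_N D a y)
  have h0 : φ g = 0 := hgy
  obtain ⟨q, hq⟩ := hgd
  have h1 : φ (cyclotomic p (Subring.center D)) = 0 := by rw [hq, map_mul, h0, zero_mul]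
  have h2 : y ^ p = 1 := by
    have h3 := congrArg φ (cyclotomic_prime_mul_X_sub_one (Subring.center D) p)
    rw [map_mul, h1, zero_mul, map_sub, map_pow, map_one] at h3
    have hX : φ X = y := eval₂_X _ _
    rw [hX] at h3
    exact sub_eq_zero.1 h3.symm
  have h4 : y ≠ 1 := by
    rintro rfl
    have h5 : φ (cyclotomic p (Subring.center D)) =
        (Subring.center D).subtype (eval 1 (cyclotomic p (Subring.center D))) := eval₂_at_one _
    rw [h1, eval_one_cyclotomic_prime] at h5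
    apply hpD
    simpa using h5.symm
  exact eigFalseN D P H R v x y hPv hx (R y p hPy hp.pos h2) hy0 h4 hvx

theorem hM2bN (D : Type u) [DivisionRing D] (P : D → Prop) (H : NS D P) (R : RN D P)
    (p : ℕ) (hp : p.Prime)
    (hpD : (p : D) ≠ 0) (g : (Subring.center D)[X]) (hg : 1 ≤ g.natDegree)
    (hg2 : g.natDegree ≤ 2) (hgd : g ∣ cyclotomic p (Subring.center D)) (v : D) (hPv : P v)
    (hv : v ^ p ∈ Subring.center D) (hnc : v ∉ Subring.center D) (x : D) (hx : x ≠ 0)
    (h : ∑ k ∈ Finset.range (g.natDegree + 1),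
        (g.coeff k : D) * (v ^ k * x * (v ^ k)⁻¹) = 0) : False := by
  have hv0 : v ≠ 0 := by
    rintro rfl
    exact hnc (Subring.zero_mem _)
  obtain ⟨y, hy⟩ : ∃ y, y = v * x * v⁻¹ * x⁻¹ := ⟨_, rfl⟩
  have hy0 : y ≠ 0 := by
    rw [hy]
    exact mul_ne_zero (mul_ne_zero (mul_ne_zero hv0 hx) (inv_ne_zero hv0)) (inv_ne_zero hx)
  have hPy : P y := by
    have h0 := H.mul v (x * v⁻¹ * x⁻¹) hPv (H.conj v⁻¹ x (H.inv v hPv) hx)
    have e0 : v * (x * v⁻¹ * x⁻¹) = y := by rw [hy]; simp only [mul_assoc]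
    rw [← e0]; exact h0
  have hyx : v * x * v⁻¹ = y * x := by rw [hy, inv_mul_cancel_right₀ hx]
  have hvx : v * x = y * x * v := by rw [← hyx, inv_mul_cancel_right₀ hv0]
  have hdeg : g.natDegree = 1 ∨ g.natDegree = 2 := by omega
  rcases hdeg with hd | hd
  · refine finish_N D P H R p hp hpD g hgd v x y hPv hPy hx hy0 hvx ?_
    rw [hd] at h
    simp only [Finset.sum_range_succ, Finset.range_zero, Finset.sum_empty, zero_add, pow_zero,
      one_mul, inv_one, mul_one, pow_one] at h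
    rw [hyx] at h
    have h1 : ((g.coeff 0 : D) + (g.coeff 1 : D) * y) * x = 0 := by
      rw [add_mul, mul_assoc]; exact h
    rw [eval₂_eq_sum_range, hd]
    simp only [Finset.sum_range_succ, Finset.range_zero, Finset.sum_empty, zero_add, pow_zero,
      mul_one, pow_one]
    exact (mul_eq_zero.1 h1).resolve_right hx
  · rw [hd] at h
    simp only [Finset.sum_range_succ, Finset.range_zero, Finset.sum_empty, zero_add, pow_zero,
      one_mul, inv_one, mul_one, pow_one] at h
    rw [hyx] at h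
    obtain ⟨s, hs⟩ : ∃ s, s = v * y * v⁻¹ := ⟨_, rfl⟩
    have hs0 : s ≠ 0 := by
      rw [hs]; exact mul_ne_zero (mul_ne_zero hv0 hy0) (inv_ne_zero hv0)
    have h2 : v ^ 2 * x * (v ^ 2)⁻¹ = s * y * x := by
      rw [pow_two, mul_inv_rev]
      have e1 : v * v * x * (v⁻¹ * v⁻¹) = v * (v * x * v⁻¹) * v⁻¹ := by
        simp only [mul_assoc]
      rw [e1, hyx, hs]
      have e2 : v * y * v⁻¹ * y * x = v * y * v⁻¹ * (v * x * v⁻¹) := by rw [hyx, mul_assoc]
      rw [e2]
      simp only [mul_assoc]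
      rw [inv_mul_cancel_left₀ hv0]
    rw [h2] at h
    have h1 : (g.coeff 0 : D) + (g.coeff 1 : D) * y + (g.coeff 2 : D) * (s * y) = 0 := by
      have : ((g.coeff 0 : D) + (g.coeff 1 : D) * y + (g.coeff 2 : D) * (s * y)) * x = 0 := by
        rw [add_mul, add_mul, mul_assoc (g.coeff 1 : D), mul_assoc (g.coeff 2 : D)]; exact h
      exact (mul_eq_zero.1 this).resolve_right hx
    have hc2 : (g.coeff 2 : D) ≠ 0 := by
      intro h0
      have h0' : g.coeff 2 = 0 := Subtype.ext h0
      have : g.leadingCoeff = 0 := by rw [leadingCoeff, hd]; exact h0'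
      rw [leadingCoeff_eq_zero] at this
      rw [this] at hd
      simp at hd
    have hcy : ∀ a : Subring.center D, Commute (a : D) y := fun a => coe_comm_N D a y
    have hcomm1 : Commute ((g.coeff 2 : D) * (s * y)) y := by
      have : (g.coeff 2 : D) * (s * y) = -((g.coeff 0 : D) + (g.coeff 1 : D) * y) := by
        rw [eq_neg_iff_add_eq_zero, add_comm]; exact h1
      rw [this]
      exact (((hcy _).add_left ((hcy _).mul_left (Commute.refl y)))).neg_left
    have hcomm2 : s * y * y = y * (s * y) := by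
      have e1 : (g.coeff 2 : D) * (s * y * y) = (g.coeff 2 : D) * (y * (s * y)) := by
        have := hcomm1.eq
        rw [mul_assoc] at this
        rw [this, ← mul_assoc y, ← (hcy (g.coeff 2)).eq, mul_assoc]
      exact mul_left_cancel₀ hc2 e1
    have hcomm : Commute s y := by
      show s * y = y * s
      apply mul_right_cancel₀ hy0
      rw [hcomm2, mul_assoc]
    obtain ⟨n, hn, hcen⟩ := H.rad y hPy
    have hPs : P s := by rw [hs]; exact H.conj y v hPy hv0
    have hsn : ∀ k : ℕ, s ^ k = v * y ^ k * v⁻¹ := by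
      intro k
      induction k with
      | zero => rw [pow_zero, pow_zero, mul_one, mul_inv_cancel₀ hv0]
      | succ k ih =>
        rw [pow_succ, ih, hs, pow_succ]
        simp only [mul_assoc]
        rw [inv_mul_cancel_left₀ hv0]
    have hsn' : s ^ n = y ^ n := by
      rw [hsn, Subring.mem_center_iff.1 hcen v, mul_assoc, mul_inv_cancel₀ hv0, mul_one]
    have hom : (s * y⁻¹) ^ n = 1 := by
      rw [(hcomm.inv_right₀).mul_pow, hsn', inv_pow, mul_inv_cancel₀ (pow_ne_zero n hy0)]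
    have homc := R _ n (H.mul _ _ hPs (H.inv y hPy)) hn hom
    have hvy : v * y = s * y⁻¹ * y * v := by
      rw [inv_mul_cancel_right₀ hy0, hs, inv_mul_cancel_right₀ hv0]
    by_cases h1' : s * y⁻¹ = 1
    · have hsy : s = y := by
        have := congrArg (· * y) h1'
        simpa [inv_mul_cancel_right₀ hy0] using this
      refine finish_N D P H R p hp hpD g hgd v x y hPv hPy hx hy0 hvx ?_
      rw [eval₂_eq_sum_range, hd]
      simp only [Finset.sum_range_succ, Finset.range_zero, Finset.sum_empty, zero_add, pow_zero,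
        mul_one, pow_one]
      rw [hsy] at h1
      rw [pow_two]
      exact h1
    · exact eigFalseN D P H R v y (s * y⁻¹) hPv hy0 homc
        (mul_ne_zero hs0 (inv_ne_zero hy0)) h1' hvy

theorem hMpbN (D : Type u) [DivisionRing D] (P : D → Prop) (H : NS D P) (R : RN D P)
    (v u : D) (hv : P v)
    (h : v * u = (u + 1) * v) : False := by
  have hvP : P v := hv
  replace hv : v ≠ 0 := H.ne v hvP
  have hu : u ≠ 0 := by
    rintro rfl
    rw [mul_zero, zero_add, one_mul] at h
    exact hv h.symm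
  have hu1 : u + 1 ≠ 0 := by
    intro h1
    rw [h1, zero_mul] at h
    exact (mul_ne_zero hv hu) h
  have h2 : v * (u + 1) = (u + 2) * v := by
    rw [mul_add, h]; noncomm_ring
  have h3 : v * (u + 2) = (u + 3) * v := by
    rw [mul_add, h]; noncomm_ring
  have hu2 : u + 2 ≠ 0 := by
    intro h1
    rw [h1, zero_mul] at h2
    exact (mul_ne_zero hv hu1) h2
  have hq : v * u * v⁻¹ * u⁻¹ = (u + 1) * u⁻¹ := by
    rw [h, mul_assoc (u + 1) v v⁻¹, mul_inv_cancel₀ hv, mul_one]
  have hPq : P (v * u * v⁻¹ * u⁻¹) := by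
    have h1 : P (v * (u * v⁻¹ * u⁻¹)) := H.mul _ _ hvP (H.conj v⁻¹ u (H.inv v hvP) hu)
    have h2 : v * (u * v⁻¹ * u⁻¹) = v * u * v⁻¹ * u⁻¹ := by simp only [mul_assoc]
    rwa [h2] at h1
  obtain ⟨n, hn, hc⟩ := H.rad _ hPq
  rw [hq] at hc
  have c1 : Commute u (u + 1) := (Commute.refl u).add_right (Commute.one_right u)
  have c2 : Commute u (u + 2) := (Commute.refl u).add_right (Commute.ofNat_right u 2)
  have c12 : Commute (u + 1) (u + 2) := by
    have : u + 2 = (u + 1) + 1 := by rw [add_assoc]; norm_num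
    rw [this]
    exact (Commute.refl _).add_right (Commute.one_right _)
  have hsemi : v * u⁻¹ = (u + 1)⁻¹ * v := by
    have e1 : (u + 1) * (v * u⁻¹) = v := by
      rw [← mul_assoc, ← h, mul_assoc, mul_inv_cancel₀ hu, mul_one]
    calc v * u⁻¹ = (u + 1)⁻¹ * ((u + 1) * (v * u⁻¹)) := by
          rw [← mul_assoc, inv_mul_cancel₀ hu1, one_mul]
      _ = (u + 1)⁻¹ * v := by rw [e1]
  set q : D := (u + 1) * u⁻¹ with hqd
  set s : D := (u + 2) * (u + 1)⁻¹ with hsd
  have hs0 : s ≠ 0 := mul_ne_zero hu2 (inv_ne_zero hu1)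
  have hvq : SemiconjBy v q s := by
    show v * q = s * v
    rw [hqd, ← mul_assoc, h2, mul_assoc, hsemi, hsd, mul_assoc]
  have hpow := hvq.pow_right n
  have hcen : v * q ^ n = q ^ n * v := (Subring.mem_center_iff.mp hc) v
  have hqs : q ^ n = s ^ n := by
    have e1 : q ^ n * v = s ^ n * v := by rw [← hcen]; exact hpow
    exact mul_right_cancel₀ hv e1
  have cq : Commute q s := by
    have a1 : Commute (u + 1) s := c12.mul_right (Commute.refl _).inv_right₀
    have a2 : Commute u s := c2.mul_right c1.inv_right₀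
    exact a1.mul_left a2.inv_left₀
  have homn : (q * s⁻¹) ^ n = 1 := by
    rw [(cq.inv_right₀).mul_pow, inv_pow, hqs, mul_inv_cancel₀ (pow_ne_zero n hs0)]
  have hPs : P s := by
    have h1 := H.conj q v (by rw [← hq]; exact hPq) hv
    have h2 : v * q * v⁻¹ = s := by
      have h3 : v * q = s * v := hvq
      rw [h3, mul_assoc, mul_inv_cancel₀ hv, mul_one]
    rwa [h2] at h1
  have hPq' : P q := by rw [← hq]; exact hPq
  have hom := R (q * s⁻¹) n (H.mul _ _ hPq' (H.inv _ hPs)) hn homn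
  set om : D := q * s⁻¹ with homd
  have homc : ∀ z : D, z * om = om * z := fun z => (Subring.mem_center_iff.mp hom) z
  have e0 : om * s = q := by rw [homd, mul_assoc, inv_mul_cancel₀ hs0, mul_one]
  have eq1 : om * ((u + 2) * u) = (u + 1) * (u + 1) := by
    have f1 : om * (u + 2) = (u + 1) * u⁻¹ * (u + 1) := by
      calc om * (u + 2) = om * ((u + 2) * (u + 1)⁻¹ * (u + 1)) := by
            rw [mul_assoc (u + 2), inv_mul_cancel₀ hu1, mul_one]
        _ = om * s * (u + 1) := by rw [hsd, mul_assoc om]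
        _ = (u + 1) * u⁻¹ * (u + 1) := by rw [e0]
    calc om * ((u + 2) * u) = om * (u + 2) * u := (mul_assoc _ _ _).symm
      _ = (u + 1) * u⁻¹ * (u + 1) * u := by rw [f1]
      _ = (u + 1) * u⁻¹ * (u * (u + 1)) := by rw [mul_assoc ((u + 1) * u⁻¹), ← c1.eq]
      _ = (u + 1) * (u⁻¹ * u) * (u + 1) := by simp only [mul_assoc]
      _ = (u + 1) * (u + 1) := by rw [inv_mul_cancel₀ hu, mul_one]
  have eq2 : om * ((u + 3) * (u + 1)) = (u + 2) * (u + 2) := by
    have f1 : v * (om * ((u + 2) * u)) = v * ((u + 1) * (u + 1)) := by rw [eq1]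
    have f2 : v * (om * ((u + 2) * u)) = om * ((u + 3) * (u + 1)) * v := by
      rw [← mul_assoc, homc v, mul_assoc om, ← mul_assoc v, h3, mul_assoc (u + 3), h]
      simp only [mul_assoc]
    have f3 : v * ((u + 1) * (u + 1)) = (u + 2) * (u + 2) * v := by
      rw [← mul_assoc, h2, mul_assoc (u + 2), h2]
      simp only [mul_assoc]
    rw [f2, f3] at f1
    exact mul_right_cancel₀ hv f1
  have eq3 : (om - 1) * (2 * u + 3) = 0 := by
    have f1 : om * ((u + 3) * (u + 1)) - om * ((u + 2) * u) = om * (2 * u + 3) := by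
      rw [← mul_sub]
      congr 1
      noncomm_ring
    have f2 : (u + 2) * (u + 2) - (u + 1) * (u + 1) = 2 * u + 3 := by
      have two : (2 : D) = 1 + 1 := by norm_num
      have three : (3 : D) = 1 + 1 + 1 := by norm_num
      rw [two, three]
      noncomm_ring
    rw [eq1, eq2, f2] at f1
    rw [sub_mul, one_mul, ← f1, sub_self]
  rcases mul_eq_zero.mp eq3 with h4 | h4
  · have h5 : om = 1 := sub_eq_zero.mp h4
    rw [h5, one_mul] at eq1
    have h6 : (u + 1) * (u + 1) - (u + 2) * u = 1 := by noncomm_ring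
    rw [eq1, sub_self] at h6
    exact zero_ne_one h6
  · have h5 : v * (2 * u + 3) = (2 * u + 5) * v := by
      have : v * (2 * u + 3) = 2 * (v * u) + 3 * v := by noncomm_ring
      rw [this, h]; noncomm_ring
    rw [h4, mul_zero] at h5
    have h6 : 2 * u + 5 = 0 := by
      rcases mul_eq_zero.mp h5.symm with h7 | h7
      · exact h7
      · exact absurd h7 hv
    have h7 : (2 : D) = 0 := by
      have : (2 * u + 5) - (2 * u + 3) = (2 : D) := by
        have e5 : (5 : D) = 3 + 2 := by norm_num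
        rw [e5]; abel
      rw [h4, h6, sub_self] at this
      exact this.symm
    have h8 : (1 : D) = 0 := by
      have : (2 * u + 3) - 2 * (u + 1) = (1 : D) := by
        have e3 : (3 : D) = 2 * 1 + 1 := by norm_num
        rw [e3, mul_add]; abel
      rw [h4, h7, zero_mul, sub_self] at this
      exact this.symm
    exact one_ne_zero h8

theorem exactN (D : Type u) [DivisionRing D] (P : D → Prop) (H : NS D P) (R : RN D P)
    (n y : D) (N : ℕ) (hN : 0 < N)
    (hn : n ^ N ∈ Subring.center D)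
    (hy : y ∈ Algebra.adjoin (Subring.center D) {n}) (hPy : P y) :
    y ^ (minpoly (Subring.center D) n).natDegree ∈ Subring.center D := by
  obtain ⟨M, hM, hyM⟩ := H.rad y hPy
  have hpow : ∀ k : ℕ, P (y ^ k) := by
    intro k
    induction k with
    | zero => rw [pow_zero]; exact H.cen 1 (Subring.one_mem _) one_ne_zero
    | succ k ih => rw [pow_succ]; exact H.mul _ _ ih hPy
  have hint : IsIntegral (Subring.center D) n := by
    refine ⟨X ^ N - C ⟨n ^ N, hn⟩, monic_X_pow_sub_C _ hN.ne', ?_⟩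
    rw [eval₂_sub, eval₂_X_pow, eval₂_C]
    exact sub_self _
  have hirr : Irreducible (minpoly (Subring.center D) n) := minpoly.irreducible hint
  have hd : 0 < (minpoly (Subring.center D) n).natDegree := minpoly.natDegree_pos hint
  haveI hfact : Fact (Irreducible (minpoly (Subring.center D) n)) := ⟨hirr⟩
  obtain ⟨q, hq⟩ : ∃ q : (Subring.center D)[X], aeval n q = y := by
    rw [Algebra.adjoin_singleton_eq_range_aeval] at hy
    exact hy
  by_cases hy0 : y = 0
  · rw [hy0, zero_pow hd.ne']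
    exact Subring.zero_mem _
  have hker : ∀ b ∈ Ideal.span {minpoly (Subring.center D) n},
      (aeval n : (Subring.center D)[X] →ₐ[Subring.center D] D) b = 0 := by
    intro b hb
    rw [Ideal.mem_span_singleton] at hb
    obtain ⟨b', rfl⟩ := hb
    rw [map_mul, minpoly.aeval, zero_mul]
  obtain ⟨φ, hφ⟩ : ∃ φ : AdjoinRoot (minpoly (Subring.center D) n) →ₐ[Subring.center D] D,
      φ (AdjoinRoot.mk (minpoly (Subring.center D) n) q) = y :=
    ⟨Ideal.Quotient.liftₐ (Ideal.span {minpoly (Subring.center D) n}) (aeval n) hker, hq⟩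
  have hφinj : Function.Injective φ := φ.toRingHom.injective
  have h1 : (AdjoinRoot.mk (minpoly (Subring.center D) n) q) ^ M =
      algebraMap (Subring.center D) _ (⟨y ^ M, hyM⟩ : Subring.center D) := by
    apply hφinj
    rw [map_pow, hφ, AlgHom.commutes]
    rfl
  obtain ⟨c, hc⟩ : ∃ c, c = Algebra.norm (Subring.center D)
      (AdjoinRoot.mk (minpoly (Subring.center D) n) q) := ⟨_, rfl⟩
  have h2 : c ^ M = (⟨y ^ M, hyM⟩ : Subring.center D) ^ (minpoly (Subring.center D) n).natDegree := by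
    rw [hc, ← map_pow, h1, Algebra.norm_algebraMap,
      (AdjoinRoot.powerBasis hirr.ne_zero).finrank, AdjoinRoot.powerBasis_dim]
  have h3 : (c : D) ^ M = (y ^ (minpoly (Subring.center D) n).natDegree) ^ M := by
    have := congrArg (fun t : Subring.center D => (t : D)) h2
    simp only [Subring.coe_pow] at this
    rw [this, ← pow_mul, ← pow_mul, mul_comm]
  have hyd : y ^ (minpoly (Subring.center D) n).natDegree ≠ 0 := pow_ne_zero _ hy0
  have hc0 : (c : D) ≠ 0 := by
    intro h
    rw [h, zero_pow hM.ne'] at h3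
    exact pow_ne_zero M hyd h3.symm
  have hcc := Subring.mem_center_iff.1 c.2
  have hcom : Commute (y ^ (minpoly (Subring.center D) n).natDegree) ((c : D)⁻¹) :=
    (show Commute (y ^ (minpoly (Subring.center D) n).natDegree) (c : D) from hcc _).inv_right₀
  have hw : (y ^ (minpoly (Subring.center D) n).natDegree * (c : D)⁻¹) ^ M = 1 := by
    rw [hcom.mul_pow, ← h3, inv_pow, mul_inv_cancel₀ (pow_ne_zero M hc0)]
  have hPw : P (y ^ (minpoly (Subring.center D) n).natDegree * (c : D)⁻¹) :=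
    H.mul _ _ (hpow _) (H.inv _ (H.cen _ c.2 hc0))
  have hwc := R _ M hPw hM hw
  have := Subring.mul_mem _ hwc c.2
  rwa [mul_assoc, inv_mul_cancel₀ hc0, mul_one] at this

theorem monomN_minpoly {K : Type*} [Field K] {B : Type*} [Ring B] [IsDomain B] [Algebra K B]
    (z : B) (c : K) (hz : IsIntegral K z)
    (h : z ^ (minpoly K z).natDegree = algebraMap K B c) :
    X ^ (minpoly K z).natDegree - C c = minpoly K z := by
  have hd : 0 < (minpoly K z).natDegree := minpoly.natDegree_pos hz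
  apply minpoly.unique_of_degree_le_degree_minpoly
  · exact monic_X_pow_sub_C c hd.ne'
  · simp [h]
  · rw [degree_X_pow_sub_C hd c, Polynomial.degree_eq_natDegree (minpoly.ne_zero hz)]

theorem monomN_integral {K : Type*} [Field K] {B : Type*} [Ring B] [Algebra K B]
    (z : B) (k : ℕ) (hk : 0 < k) (h : z ^ k ∈ (algebraMap K B).range) : IsIntegral K z := by
  obtain ⟨c, hc⟩ := h
  exact ⟨X ^ k - C c, monic_X_pow_sub_C c hk.ne', by simp [hc]⟩

theorem monomN_trace {K : Type*} [Field K] {L : Type*} [Field L] [Algebra K L]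
    [FiniteDimensional K L] (z : L) (k : ℕ) (hk : 0 < k)
    (hz : z ^ k ∈ (algebraMap K L).range)
    (hex : z ^ (minpoly K z).natDegree ∈ (algebraMap K L).range)
    (hz' : z ∉ (algebraMap K L).range) : Algebra.trace K L z = 0 := by
  have hint : IsIntegral K z := monomN_integral z k hk hz
  obtain ⟨c, hc⟩ := hex
  have h1 := monomN_minpoly z c hint hc.symm
  have hd : 0 < (minpoly K z).natDegree := minpoly.natDegree_pos hint
  have hd1 : (minpoly K z).natDegree ≠ 1 := by
    intro h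
    exact hz' ((minpoly.natDegree_eq_one_iff).1 h)
  rw [trace_eq_finrank_mul_minpoly_nextCoeff]
  have h2 : (minpoly K z).nextCoeff = 0 := by
    rw [nextCoeff_of_natDegree_pos hd]
    set d := (minpoly K z).natDegree with hdd
    rw [← h1]
    rw [coeff_sub, coeff_X_pow, coeff_C]
    rw [if_neg (by omega), if_neg (by omega)]
    simp
  rw [h2]
  simp

theorem monomN_gen {K : Type*} [Field K] {D : Type*} [DivisionRing D] [Algebra K D]
    (Q : D → Prop) (hQ1 : Q 1) (hQmul : ∀ a b, Q a → Q b → Q (a * b)) (hQinv : ∀ a, Q a → Q a⁻¹)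
    (hex : ∀ z : D, Q z → ∀ k : ℕ, 0 < k → z ^ k ∈ (algebraMap K D).range →
      z ^ (minpoly K z).natDegree ∈ (algebraMap K D).range)
    (hMp : ∀ p : ℕ, p.Prime → (p : K) = 0 → ∀ v : D, Q v → v ^ p ∈ (algebraMap K D).range →
      v ∈ (algebraMap K D).range)
    (n y : D) (hQn : Q n) (hQy : Q y) (hn0 : n ≠ 0) (N : ℕ) (hN : 0 < N) (hn : n ^ N ∈ (algebraMap K D).range)
    (hy : y ∈ Algebra.adjoin K {n}) (hy0 : y ≠ 0) (M : ℕ) (hM : 0 < M)
    (hyM : y ^ M ∈ (algebraMap K D).range) :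
    ∃ j : ℕ, j < (minpoly K n).natDegree ∧ ∃ c : K, y = algebraMap K D c * n ^ j := by
  classical
  have hint : IsIntegral K n := monomN_integral n N hN hn
  have hirr : Irreducible (minpoly K n) := minpoly.irreducible hint
  have : Fact (Irreducible (minpoly K n)) := ⟨hirr⟩
  let L := AdjoinRoot (minpoly K n)
  have hker : ∀ a : K[X], a ∈ Ideal.span {minpoly K n} → aeval n a = 0 := by
    intro a ha
    rw [Ideal.mem_span_singleton] at ha
    obtain ⟨b, rfl⟩ := ha
    simp
  let φ : L →ₐ[K] D := Ideal.Quotient.liftₐ (Ideal.span {minpoly K n}) (aeval n) hker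
  have hφ : ∀ p : K[X], φ (AdjoinRoot.mk (minpoly K n) p) = aeval n p := fun p => rfl
  have hφinj : Function.Injective φ := φ.toRingHom.injective
  have hφalg : ∀ c : K, φ (algebraMap K L c) = algebraMap K D c := fun c => φ.commutes c
  have hrange : ∀ z : L, z ∈ (algebraMap K L).range ↔ φ z ∈ (algebraMap K D).range := by
    intro z
    constructor
    · rintro ⟨c, rfl⟩
      exact ⟨c, (hφalg c).symm⟩
    · rintro ⟨c, hc⟩
      exact ⟨c, hφinj (by rw [hφalg, hc])⟩
  let pb : PowerBasis K L := AdjoinRoot.powerBasis hirr.ne_zero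
  have : FiniteDimensional K L := pb.finite
  have hpbdim : pb.dim = (minpoly K n).natDegree := rfl
  let ν : L := AdjoinRoot.root (minpoly K n)
  have hpbgen : pb.gen = ν := rfl
  have hν : φ ν = n := by
    show φ (AdjoinRoot.mk (minpoly K n) X) = n
    rw [hφ]; simp
  have hν0 : ν ≠ 0 := by
    intro h
    apply hn0
    rw [← hν, h, map_zero]
  obtain ⟨Y, hY⟩ : ∃ Y : L, φ Y = y := by
    rw [Algebra.adjoin_singleton_eq_range_aeval] at hy
    obtain ⟨p, hp⟩ := hy
    exact ⟨AdjoinRoot.mk (minpoly K n) p, by rw [hφ]; exact hp⟩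
  have hY0 : Y ≠ 0 := by
    intro h
    apply hy0
    rw [← hY, h, map_zero]
  have hQpow : ∀ a : D, Q a → ∀ i : ℕ, Q (a ^ i) := by
    intro a ha i
    induction i with
    | zero => rw [pow_zero]; exact hQ1
    | succ i ih => rw [pow_succ]; exact hQmul _ _ ih ha
  have hQν : ∀ i : ℕ, Q (φ (ν ^ i)) := by
    intro i
    rw [map_pow, hν]
    exact hQpow n hQn i
  have hQνi : ∀ i : ℕ, Q (φ ((ν⁻¹) ^ i)) := by
    intro i
    rw [map_pow, map_inv₀, hν]
    exact hQpow _ (hQinv n hQn) i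
  have hQY : Q (φ Y) := by rw [hY]; exact hQy
  have hexL : ∀ z : L, Q (φ z) → ∀ k : ℕ, 0 < k → z ^ k ∈ (algebraMap K L).range →
      z ^ (minpoly K z).natDegree ∈ (algebraMap K L).range := by
    intro z hQz k hk hz
    rw [hrange, map_pow] at hz ⊢
    have := hex (φ z) hQz k hk hz
    rwa [minpoly.algHom_eq φ hφinj z] at this
  have hMpL : ∀ p : ℕ, p.Prime → (p : K) = 0 → ∀ v : L, Q (φ v) → v ^ p ∈ (algebraMap K L).range →
      v ∈ (algebraMap K L).range := by
    intro p hp hp0 v hQv hv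
    rw [hrange] at hv ⊢
    rw [map_pow] at hv
    exact hMp p hp hp0 _ hQv hv
  have htr : ∀ z : L, Q (φ z) → ∀ k : ℕ, 0 < k → z ^ k ∈ (algebraMap K L).range →
      z ∉ (algebraMap K L).range → Algebra.trace K L z = 0 :=
    fun z hQz k hk hz hz' => monomN_trace z k hk hz (hexL z hQz k hk hz) hz'
  set d := (minpoly K n).natDegree with hd
  have hminν : minpoly K ν = minpoly K n := by
    have h := minpoly.algHom_eq φ hφinj ν
    rw [hν] at h
    exact h.symm
  have hd0 : 0 < d := minpoly.natDegree_pos hint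
  have hνN : ν ^ N ∈ (algebraMap K L).range := by
    rw [hrange, map_pow, hν]; exact hn
  have hYM : Y ^ M ∈ (algebraMap K L).range := by
    rw [hrange, map_pow, hY]; exact hyM
  have hνd : ν ^ d ∈ (algebraMap K L).range := by
    have hQν1 : Q (φ ν) := by rw [hν]; exact hQn
    have := hexL ν hQν1 N hN hνN
    rwa [hminν] at this
  -- (iii) small powers are not scalars
  have hsmall : ∀ i : ℕ, 0 < i → i < d → ν ^ i ∉ (algebraMap K L).range := by
    rintro i hi0 hid ⟨c, hc⟩
    have h1 : aeval ν (X ^ i - C c) = 0 := by simp [hc]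
    have h2 := minpoly.min K ν (monic_X_pow_sub_C c hi0.ne') h1
    rw [hminν, degree_X_pow_sub_C hi0 c, Polynomial.degree_eq_natDegree hirr.ne_zero] at h2
    have h3 : d ≤ i := by exact_mod_cast h2
    omega
  -- (ii) d is invertible
  have hdK : (d : K) ≠ 0 := by
    intro hdz
    have hdvd : ringChar K ∣ d := (ringChar.spec K d).1 hdz
    have hne : ringChar K ≠ 0 := by
      intro h
      rw [h, zero_dvd_iff] at hdvd
      omega
    have hprime : (ringChar K).Prime := by
      rcases CharP.char_is_prime_or_zero K (ringChar K) with h | h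
      · exact h
      · exact absurd h hne
    obtain ⟨e, he⟩ := hdvd
    have hch0 : ((ringChar K : ℕ) : K) = 0 := ringChar.Nat.cast_ringChar
    have hv : (ν ^ e) ^ (ringChar K) ∈ (algebraMap K L).range := by
      rw [← pow_mul, mul_comm, ← he]; exact hνd
    have hv2 := hMpL _ hprime hch0 (ν ^ e) (hQν e) hv
    have he0 : 0 < e := by
      rcases Nat.eq_zero_or_pos e with h | h
      · rw [h, mul_zero] at he; omega
      · exact h
    have hed : e < d := by
      rw [he]
      have := hprime.two_le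
      nlinarith
    exact hsmall e he0 hed hv2
  have hinvrange : ∀ z : L, z ∈ (algebraMap K L).range → z⁻¹ ∈ (algebraMap K L).range := by
    rintro z ⟨c, rfl⟩
    exact ⟨c⁻¹, by simp⟩
  by_cases hcase : ∃ i : ℕ, i < d ∧ Y * (ν⁻¹) ^ i ∈ (algebraMap K L).range
  · obtain ⟨i, hid, c, hc⟩ := hcase
    refine ⟨i, hid, c, ?_⟩
    have h1 : Y = algebraMap K L c * ν ^ i := by
      rw [hc, mul_assoc, ← mul_pow, inv_mul_cancel₀ hν0, one_pow, mul_one]
    rw [← hY, h1, map_mul, map_pow, hν, hφalg]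
  · exfalso
    push Not at hcase
    -- all the coordinates vanish
    have hcoord : ∀ i : ℕ, i < d → Algebra.trace K L (Y * (ν⁻¹) ^ i) = 0 := by
      intro i hi
      have hQYi : Q (φ (Y * (ν⁻¹) ^ i)) := by
        rw [map_mul]; exact hQmul _ _ hQY (hQνi i)
      apply htr _ hQYi (M * N) (Nat.mul_pos hM hN) _ (hcase i hi)
      have h1 : (Y * (ν⁻¹) ^ i) ^ (M * N) = (Y ^ M) ^ N * ((ν ^ N)⁻¹) ^ (i * M) := by
        rw [mul_pow, ← pow_mul, ← pow_mul, ← inv_pow, ← pow_mul]
        congr 2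
        ring
      rw [h1]
      exact (algebraMap K L).range.mul_mem ((algebraMap K L).range.pow_mem hYM N)
        ((algebraMap K L).range.pow_mem (hinvrange _ hνN) _)
    have hsum : Y = ∑ j : Fin pb.dim, pb.basis.repr Y j • ν ^ (j : ℕ) := by
      conv_lhs => rw [← pb.basis.sum_repr Y]
      simp [pb.basis_eq_pow, hpbgen]
    have hzero : ∀ i : Fin pb.dim, pb.basis.repr Y i = 0 := by
      intro i
      have hi : (i : ℕ) < d := i.2
      have h1 := hcoord i hi
      rw [hsum, Finset.sum_mul, map_sum] at h1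
      have h2 : ∀ j : Fin pb.dim, Algebra.trace K L ((pb.basis.repr Y j • ν ^ (j : ℕ)) * (ν⁻¹) ^ (i : ℕ)) =
          if j = i then pb.basis.repr Y i * d else 0 := by
        intro j
        rw [smul_mul_assoc, map_smul]
        split_ifs with hji
        · subst hji
          rw [← mul_pow, mul_inv_cancel₀ hν0, one_pow]
          have h3 : Algebra.trace K L 1 = (d : K) := by
            have := Algebra.trace_algebraMap (R := K) (S := L) (1 : K)
            rw [map_one] at this
            rw [this, pb.finrank]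
            simp [hpbdim]
          rw [h3, smul_eq_mul]
        · have h4 : Algebra.trace K L (ν ^ (j : ℕ) * (ν⁻¹) ^ (i : ℕ)) = 0 := by
            have hQji : Q (φ (ν ^ (j : ℕ) * (ν⁻¹) ^ (i : ℕ))) := by
              rw [map_mul]; exact hQmul _ _ (hQν j) (hQνi i)
            apply htr _ hQji N hN
            · rw [mul_pow, ← pow_mul, ← pow_mul, mul_comm (j : ℕ) N, mul_comm (i : ℕ) N, pow_mul,
                pow_mul, inv_pow]
              exact (algebraMap K L).range.mul_mem ((algebraMap K L).range.pow_mem hνN _)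
                ((algebraMap K L).range.pow_mem (hinvrange _ hνN) _)
            · intro hmem
              have hne : (j : ℕ) ≠ (i : ℕ) := fun h => hji (Fin.ext h)
              rcases lt_or_gt_of_ne hne with hlt | hgt
              · have h5 : (ν ^ (j : ℕ) * (ν⁻¹) ^ (i : ℕ))⁻¹ = ν ^ ((i : ℕ) - j) := by
                  rw [inv_pow, mul_inv, inv_inv, pow_sub₀ ν hν0 hlt.le, mul_comm]
                have h6 := hinvrange _ hmem
                rw [h5] at h6
                exact hsmall _ (by omega) (by omega) h6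
              · have h5 : (ν ^ (j : ℕ) * (ν⁻¹) ^ (i : ℕ)) = ν ^ ((j : ℕ) - i) := by
                  rw [inv_pow, pow_sub₀ ν hν0 hgt.le]
                rw [h5] at hmem
                exact hsmall _ (by omega) (by have : (j : ℕ) < d := j.2
                                              omega) hmem
          rw [h4, smul_zero]
      rw [Finset.sum_congr rfl (fun j _ => h2 j), Finset.sum_ite_eq' Finset.univ i] at h1
      simp only [Finset.mem_univ, if_true] at h1
      rcases mul_eq_zero.1 h1 with h | h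
      · exact h
      · exact absurd h hdK
    apply hY0
    rw [hsum]
    apply Finset.sum_eq_zero
    intro j _
    rw [hzero j, zero_smul]

theorem monomN (D : Type u) [DivisionRing D] (P : D → Prop) (H : NS D P) (R : RN D P)
    (hMp : ∀ p : ℕ, p.Prime → (p : D) = 0 → ∀ v : D, P v → v ^ p ∈ Subring.center D →
      v ∈ Subring.center D)
    (n y : D) (hPn : P n)
    (hy : y ∈ Algebra.adjoin (Subring.center D) {n}) (hPy : P y) :
    ∃ j : ℕ, j < (minpoly (Subring.center D) n).natDegree ∧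
      ∃ c : D, c ∈ Subring.center D ∧ y = c * n ^ j := by
  have hcr : ∀ z : D, z ∈ Subring.center D ↔ z ∈ (algebraMap (Subring.center D) D).range := by
    intro z
    constructor
    · intro h
      exact ⟨⟨z, h⟩, rfl⟩
    · rintro ⟨c, rfl⟩
      exact c.2
  obtain ⟨N, hN, hn⟩ := H.rad n hPn
  obtain ⟨M, hM, hyM⟩ := H.rad y hPy
  obtain ⟨j, hj, c, hc⟩ := monomN_gen (K := Subring.center D) (D := D) P
    (H.cen 1 (Subring.one_mem _) one_ne_zero) H.mul H.inv
    (by
      intro z hPz k hk hz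
      rw [← hcr] at hz ⊢
      exact exactN D P H R z z k hk hz (Algebra.self_mem_adjoin_singleton _ _) hPz)
    (by
      intro p hp hp0 v hPv hv
      rw [← hcr] at hv ⊢
      refine hMp p hp ?_ v hPv hv
      have := congrArg (algebraMap (Subring.center D) D) hp0
      simpa using this)
    n y hPn hPy (H.ne n hPn) N hN ((hcr _).1 hn) hy (H.ne y hPy) M hM ((hcr _).1 hyM)
  exact ⟨j, hj, algebraMap (Subring.center D) D c, c.2, hc⟩

theorem moebN (D : Type u) [DivisionRing D] (P : D → Prop) (H : NS D P) (R : RN D P)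
    (hMp : ∀ p : ℕ, p.Prime → (p : D) = 0 → ∀ v : D, P v → v ^ p ∈ Subring.center D →
      v ∈ Subring.center D)
    (n : D) (hPn : P n)
    (hd : 3 ≤ (minpoly (Subring.center D) n).natDegree) (a b c : D)
    (ha : a ∈ Subring.center D) (hb : b ∈ Subring.center D) (hc : c ∈ Subring.center D)
    (hc0 : c ≠ 0) (hab : a ≠ 0 ∨ b ≠ 0) (hdet : a * b + c ≠ 0)
    (hy : P ((b * n + c) * (n - a)⁻¹)) : False := by
  classical
  obtain ⟨N, hN, hn⟩ := H.rad n hPn
  set F := Subring.center D with hF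
  set d := (minpoly F n).natDegree with hdd
  have hint : IsIntegral F n := by
    refine ⟨X ^ N - C (⟨n ^ N, hn⟩ : F), monic_X_pow_sub_C _ hN.ne', ?_⟩
    rw [← aeval_def]
    simp only [map_sub, map_pow, aeval_X, aeval_C]
    exact sub_self (n ^ N)
  have hind : ∀ Q : F[X], Q.natDegree < d → aeval n Q = 0 → Q = 0 := by
    intro Q hQ h0
    by_contra hne
    have := minpoly.degree_le_of_ne_zero F n hne h0
    have h2 := natDegree_le_natDegree this
    omega
  have hcomm : ∀ z ∈ F, ∀ w : D, z * w = w * z := fun z hz w => ((Subring.mem_center_iff.1 hz) w).symm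
  have hCa : ∀ (z : D) (hz : z ∈ F), aeval n (C (⟨z, hz⟩ : F)) = z := fun z hz => by
    rw [aeval_C]; rfl
  have hna : n - a ≠ 0 := by
    intro h
    have h1 : aeval n (X - C (⟨a, ha⟩ : F)) = 0 := by
      rw [map_sub, aeval_X, hCa, h]
    have h2 := hind _ (by rw [natDegree_X_sub_C]; omega) h1
    exact X_sub_C_ne_zero _ h2
  have hlin : ∀ (z w : D) (hz : z ∈ F) (hw : w ∈ F), z * n + w = 0 → z = 0 ∧ w = 0 := by
    intro z w hz hw h
    have h1 : aeval n (C (⟨z, hz⟩ : F) * X + C (⟨w, hw⟩ : F)) = 0 := by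
      rw [map_add, map_mul, aeval_X, hCa, hCa, h]
    have h2 := hind _ (lt_of_le_of_lt (natDegree_linear_le) (by omega)) h1
    have c1 : (⟨z, hz⟩ : F) = 0 := by
      have := congrArg (fun Q => Q.coeff 1) h2
      rw [coeff_add, coeff_C_mul, coeff_X_one, mul_one, coeff_C, if_neg one_ne_zero, add_zero] at this
      exact this
    have c0 : (⟨w, hw⟩ : F) = 0 := by
      have := congrArg (fun Q => Q.coeff 0) h2
      rw [coeff_add, coeff_C_mul, coeff_X_zero, mul_zero, zero_add, coeff_C_zero] at this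
      exact this
    exact ⟨congrArg Subtype.val c1, congrArg Subtype.val c0⟩
  have hbnc : b * n + c ≠ 0 := fun h => hc0 (hlin b c hb hc h).2
  have hinv : (n - a)⁻¹ ∈ Algebra.adjoin F {n} := by
    set p := minpoly F n with hp
    obtain ⟨q, hq⟩ := X_sub_C_dvd_sub_C_eval (p := p) (a := (⟨a, ha⟩ : F))
    have hp0 : aeval n p = 0 := minpoly.aeval F n
    have hev : -(algebraMap F D (eval (⟨a, ha⟩ : F) p)) = (n - a) * aeval n q := by
      have h0 := congrArg (aeval n) hq
      rw [map_sub, map_mul, map_sub, aeval_X, aeval_C, aeval_C, hp0, zero_sub] at h0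
      exact h0
    by_cases he : eval (⟨a, ha⟩ : F) p = 0
    · exfalso
      rw [he, map_zero, neg_zero] at hev
      rw [he, map_zero, sub_zero] at hq
      have hq0 : aeval n q = 0 := by
        rcases mul_eq_zero.1 hev.symm with h | h
        · exact absurd h hna
        · exact h
      have hpne : p ≠ 0 := minpoly.ne_zero hint
      have hqne : q ≠ 0 := by
        rintro rfl
        rw [mul_zero] at hq
        exact hpne hq
      have hdeg : p.natDegree = 1 + q.natDegree := by
        rw [hq, natDegree_mul (X_sub_C_ne_zero _) hqne, natDegree_X_sub_C]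
      exact hqne (hind q (by omega) hq0)
    · set e := eval (⟨a, ha⟩ : F) p with hee
      have he' : algebraMap F D e ≠ 0 := by
        intro h
        exact he ((map_eq_zero (algebraMap F D)).1 h)
      have h3 : (n - a)⁻¹ = aeval n q * algebraMap F D (-e⁻¹) := by
        apply inv_eq_of_mul_eq_one_right
        rw [← mul_assoc, ← hev, map_neg, map_inv₀, neg_mul_neg, mul_inv_cancel₀ he']
      rw [h3]
      exact Subalgebra.mul_mem _ (aeval_mem_adjoin_singleton F n) (Subalgebra.algebraMap_mem _ _)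
  have hymem : (b * n + c) * (n - a)⁻¹ ∈ Algebra.adjoin F {n} := by
    refine Subalgebra.mul_mem _ (Subalgebra.add_mem _ (Subalgebra.mul_mem _ ?_ (Algebra.self_mem_adjoin_singleton F n)) ?_) hinv
    · exact Subalgebra.algebraMap_mem (Algebra.adjoin F {n}) (⟨b, hb⟩ : F)
    · exact Subalgebra.algebraMap_mem (Algebra.adjoin F {n}) (⟨c, hc⟩ : F)
  have hy0 : (b * n + c) * (n - a)⁻¹ ≠ 0 := mul_ne_zero hbnc (inv_ne_zero hna)
  obtain ⟨j, hj, g, hg, hyg⟩ := monomN D P H R hMp n _ hPn hymem hy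
  have hg0 : g ≠ 0 := by
    rintro rfl
    rw [zero_mul] at hyg
    exact hy0 hyg
  have hkey : b * n + c = g * n ^ (j + 1) - g * a * n ^ j := by
    have h1 : b * n + c = g * n ^ j * (n - a) := by
      rw [← hyg, mul_assoc, inv_mul_cancel₀ hna, mul_one]
    rw [h1, mul_sub, pow_succ, mul_assoc g (n ^ j) n, mul_assoc g (n ^ j) a, ← hcomm a ha (n ^ j), ← mul_assoc g a]
  have hga : g * a ∈ F := F.mul_mem hg ha
  rcases Nat.eq_zero_or_pos j with hj0 | hjpos
  · subst hj0
    have h1 : (b - g) * n + (c + g * a) = 0 := by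
      have h2 := hkey
      rw [zero_add, pow_one, pow_zero, mul_one] at h2
      have : (b - g) * n + (c + g * a) = (b * n + c) - (g * n - g * a) := by noncomm_ring
      rw [this, h2, sub_self]
    obtain ⟨h3, h4⟩ := hlin _ _ (F.sub_mem hb hg) (F.add_mem hc hga) h1
    apply hdet
    have h5 : b = g := sub_eq_zero.1 h3
    rw [hcomm a ha b, h5]
    rw [add_comm] at h4
    exact h4
  · rcases Nat.lt_or_ge (j + 1) d with hjd | hjd
    · set Q : F[X] := C (⟨b, hb⟩ : F) * X + C (⟨c, hc⟩ : F) - C (⟨g, hg⟩ : F) * X ^ (j + 1) +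
        C (⟨g * a, hga⟩ : F) * X ^ j with hQ
      have h1 : aeval n Q = 0 := by
        rw [hQ]
        simp only [map_add, map_sub, map_mul, map_pow, aeval_X, hCa]
        rw [hkey]
        abel
      have h2 : Q.natDegree < d := by
        refine lt_of_le_of_lt ?_ hjd
        rw [hQ]
        compute_degree
      have h3 : (⟨c, hc⟩ : F) = 0 := by
        have := congrArg (fun Q => Q.coeff 0) (hind Q h2 h1)
        rw [hQ] at this
        simpa [coeff_X_pow, hjpos.ne, hjpos.ne'] using this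
      exact hc0 (congrArg Subtype.val h3)
    · have hjj : j < d := hj
      have hjd' : j + 1 = d := by omega
      have hnd : n ^ d ∈ F := exactN D P H R n n N hN hn (Algebra.self_mem_adjoin_singleton F n) hPn
      have hβ : c - g * n ^ d ∈ F := F.sub_mem hc (F.mul_mem hg hnd)
      set Q : F[X] := C (⟨b, hb⟩ : F) * X + C (⟨c - g * n ^ d, hβ⟩ : F) +
        C (⟨g * a, hga⟩ : F) * X ^ j with hQ
      have h1 : aeval n Q = 0 := by
        rw [hQ]
        simp only [map_add, map_mul, map_pow, aeval_X, hCa]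
        have : b * n + (c - g * n ^ d) + g * a * n ^ j = (b * n + c) - (g * n ^ d - g * a * n ^ j) := by abel
        rw [this, hkey, hjd', sub_self]
      have h2 : Q.natDegree < d := by
        refine lt_of_le_of_lt (b := j) ?_ (by omega)
        rw [hQ]
        compute_degree
        omega
      have hQ0 := hind Q h2 h1
      have hj1 : j ≠ 1 := by omega
      have hj0 : j ≠ 0 := by omega
      have h3 : (⟨g * a, hga⟩ : F) = 0 := by
        have := congrArg (fun Q => Q.coeff j) hQ0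
        simp only [hQ, coeff_add, coeff_C_mul, coeff_X, coeff_C, coeff_X_pow, coeff_zero, if_true,
          mul_one, if_neg hj1.symm, if_neg hj0, mul_zero, add_zero, zero_add] at this
        exact this
      have h4 : (⟨b, hb⟩ : F) = 0 := by
        have := congrArg (fun Q => Q.coeff 1) hQ0
        simp only [hQ, coeff_add, coeff_C_mul, coeff_X, coeff_C, coeff_X_pow, coeff_zero, if_true,
          mul_one, if_neg hj1.symm, if_neg one_ne_zero, mul_zero, add_zero] at this
        exact this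
      have h5 : g * a = 0 := congrArg Subtype.val h3
      have h6 : b = 0 := congrArg Subtype.val h4
      rcases hab with h | h
      · exact h ((mul_eq_zero.1 h5).resolve_left hg0)
      · exact h h6

theorem deg2N (D : Type u) [DivisionRing D] (P : D → Prop) (H : NS D P) (R : RN D P)
    (hMp : ∀ p : ℕ, p.Prime → (p : D) = 0 → ∀ v : D, P v → v ^ p ∈ Subring.center D →
      v ∈ Subring.center D)
    (n : D) (hPn : P n)
    (hd : (minpoly (Subring.center D) n).natDegree ≤ 2) : n ∈ Subring.center D := by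
  obtain ⟨N, hN, hn⟩ := H.rad n hPn
  have hint : IsIntegral (Subring.center D) n := by
    have h1 : IsIntegral (Subring.center D) (n ^ N) :=
      isIntegral_algebraMap (x := (⟨n ^ N, hn⟩ : Subring.center D))
    exact IsIntegral.of_pow hN h1
  have hpos : 0 < (minpoly (Subring.center D) n).natDegree := minpoly.natDegree_pos hint
  have hex := exactN D P H R n n N hN hn (Algebra.self_mem_adjoin_singleton _ _) hPn
  interval_cases hcase : (minpoly (Subring.center D) n).natDegree
  · simpa using hex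
  · by_contra hnc
    by_cases h2 : (2 : D) = 0
    · exact hnc (hMp 2 Nat.prime_two (by exact_mod_cast h2) n hPn hex)
    · have hn0 : n ≠ 0 := by
        rintro rfl
        exact hnc (Subring.zero_mem _)
      rw [Subring.mem_center_iff] at hnc
      push Not at hnc
      obtain ⟨a, ha⟩ := hnc
      have hw : n * a - a * n ≠ 0 := by
        intro h
        exact ha (sub_eq_zero.mp h).symm
      have hc := (Subring.mem_center_iff.mp hex) a
      refine eigFalseN D P H R n (n * a - a * n) (-1) hPn hw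
        (Subring.neg_mem _ (Subring.one_mem _)) (neg_ne_zero.mpr one_ne_zero) ?_ ?_
      · intro h
        apply h2
        have : (1 : D) + 1 = 0 := by
          nth_rewrite 1 [← h]
          simp
        rw [← one_add_one_eq_two]
        exact this
      · have e1 : n * (n * a - a * n) = n ^ 2 * a - n * a * n := by noncomm_ring
        have e2 : (-1) * (n * a - a * n) * n = a * n ^ 2 - n * a * n := by noncomm_ring
        rw [e1, e2, hc]

theorem hM3bN (D : Type u) [DivisionRing D] (P : D → Prop) (H : NS D P) (R : RN D P)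
    (hMp : ∀ p : ℕ, p.Prime → (p : D) = 0 → ∀ v : D, P v → v ^ p ∈ Subring.center D →
      v ∈ Subring.center D) (p : ℕ) (hp : p.Prime)
    (hpD : (p : D) ≠ 0) (g : (Subring.center D)[X]) (hg : g.natDegree = 3)
    (hgd : g ∣ cyclotomic p (Subring.center D)) (v : D) (hPv : P v)
    (hnc : v ∉ Subring.center D) (x : D) (hx : x ≠ 0)
    (h : ∑ k ∈ Finset.range (g.natDegree + 1),
        (g.coeff k : D) * (v ^ k * x * (v ^ k)⁻¹) = 0) : False := by
  have hv : v ≠ 0 := H.ne v hPv
  have hPv2 : P (v ^ 2) := by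
    rw [pow_two]
    exact H.mul v v hPv hPv
  have hPv3 : P (v ^ 3) := by
    rw [pow_succ]
    exact H.mul _ v hPv2 hPv
  have hcommP : ∀ a y : D, P a → y ≠ 0 → P (a * y * a⁻¹ * y⁻¹) := by
    intro a y ha hy
    have h1 := H.mul a _ ha (H.conj a⁻¹ y (H.inv a ha) hy)
    have h2 : a * (y * a⁻¹ * y⁻¹) = a * y * a⁻¹ * y⁻¹ := by simp only [mul_assoc]
    rwa [h2] at h1
  haveI : Fact p.Prime := ⟨hp⟩
  obtain ⟨q, hq⟩ := hgd
  have hc0 : g.coeff 0 ≠ 0 := by
    intro h0
    have h1 : (cyclotomic p (Subring.center D)).coeff 0 = 1 :=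
      cyclotomic_coeff_zero _ hp.one_lt
    rw [hq, mul_coeff_zero, h0, zero_mul] at h1
    exact zero_ne_one h1
  have hg1 : g.eval 1 ≠ 0 := by
    intro h0
    have h1 : eval 1 (cyclotomic p (Subring.center D)) = (p : Subring.center D) :=
      eval_one_cyclotomic_prime
    rw [hq, eval_mul, h0, zero_mul] at h1
    apply hpD
    have h2 := congrArg Subtype.val h1
    have h3 : ((p : Subring.center D) : D) = (p : D) := by simp
    rw [← h3]
    exact h2.symm
  have hc3 : g.coeff 3 ≠ 0 := by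
    intro h0
    have h1 : g.leadingCoeff = 0 := by rw [leadingCoeff, hg, h0]
    rw [leadingCoeff_eq_zero] at h1
    rw [h1, natDegree_zero] at hg
    omega
  rw [eval_eq_sum_range, hg] at hg1
  simp only [Finset.sum_range_succ, Finset.sum_range_zero, one_pow, mul_one, zero_add] at hg1
  rw [hg] at h
  simp only [Finset.sum_range_succ, Finset.sum_range_zero, zero_add, pow_zero, one_mul, inv_one,
    mul_one, pow_one] at h
  have m0 := (g.coeff 0).2
  have m1 := (g.coeff 1).2
  have m2 := (g.coeff 2).2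
  have m3 := (g.coeff 3).2
  have hg1D : ((g.coeff 0 : D) + (g.coeff 1 : D) + (g.coeff 2 : D) + (g.coeff 3 : D)) ≠ 0 := by
    intro h0
    apply hg1
    apply Subtype.ext
    simpa using h0
  have hc0D : (g.coeff 0 : D) ≠ 0 := fun h0 => hc0 (Subtype.ext h0)
  have hc3D : (g.coeff 3 : D) ≠ 0 := fun h0 => hc3 (Subtype.ext h0)
  generalize (g.coeff 0 : D) = e0 at *
  generalize (g.coeff 1 : D) = e1 at *
  generalize (g.coeff 2 : D) = e2 at *
  generalize (g.coeff 3 : D) = e3 at *
  have m3i : e3⁻¹ ∈ Subring.center D := by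
    rw [Subring.mem_center_iff] at m3 ⊢
    intro y
    exact ((show Commute y e3 from m3 y).inv_right₀).eq
  obtain ⟨a, ha⟩ : ∃ a, a = -(e3⁻¹ * e2) := ⟨_, rfl⟩
  obtain ⟨b, hb⟩ : ∃ b, b = -(e3⁻¹ * e1) := ⟨_, rfl⟩
  obtain ⟨c, hc⟩ : ∃ c, c = -(e3⁻¹ * e0) := ⟨_, rfl⟩
  have haC : a ∈ Subring.center D := by
    rw [ha]
    exact Subring.neg_mem _ (Subring.mul_mem _ m3i m2)
  have hbC : b ∈ Subring.center D := by
    rw [hb]
    exact Subring.neg_mem _ (Subring.mul_mem _ m3i m1)
  have hcC : c ∈ Subring.center D := by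
    rw [hc]
    exact Subring.neg_mem _ (Subring.mul_mem _ m3i m0)
  have hcne : c ≠ 0 := by
    rw [hc]
    exact neg_ne_zero.mpr (mul_ne_zero (inv_ne_zero hc3D) hc0D)
  have h1abc : 1 - a - b - c ≠ 0 := by
    intro h0
    apply hg1D
    have h2 : e3 * (1 - a - b - c) = e0 + e1 + e2 + e3 := by
      rw [ha, hb, hc, mul_sub, mul_sub, mul_sub, mul_neg, mul_neg, mul_neg,
        mul_inv_cancel_left₀ hc3D, mul_inv_cancel_left₀ hc3D, mul_inv_cancel_left₀ hc3D, mul_one]
      abel
    rw [← h2, h0, mul_zero]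
  have hx3 : v ^ 3 * x * (v ^ 3)⁻¹ = a * (v ^ 2 * x * (v ^ 2)⁻¹) + b * (v * x * v⁻¹) + c * x := by
    have h' : e3⁻¹ * (e0 * x + e1 * (v * x * v⁻¹) + e2 * (v ^ 2 * x * (v ^ 2)⁻¹) +
        e3 * (v ^ 3 * x * (v ^ 3)⁻¹)) = 0 := by rw [h, mul_zero]
    generalize v ^ 3 * x * (v ^ 3)⁻¹ = X3 at *
    generalize v ^ 2 * x * (v ^ 2)⁻¹ = X2 at *
    generalize v * x * v⁻¹ = X1 at *
    rw [mul_add, mul_add, mul_add, inv_mul_cancel_left₀ hc3D] at h'
    rw [eq_neg_of_add_eq_zero_right h', ha, hb, hc]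
    simp only [neg_mul, mul_assoc]
    abel
  have comm : ∀ {z : D}, z ∈ Subring.center D → ∀ y : D, z * y = y * z := fun hz y =>
    (Subring.mem_center_iff.mp hz y).symm
  obtain ⟨n, hn⟩ : ∃ n, n = v * x * v⁻¹ * x⁻¹ := ⟨_, rfl⟩
  have hn0 : n ≠ 0 := by
    rw [hn]
    exact mul_ne_zero (mul_ne_zero (mul_ne_zero hv hx) (inv_ne_zero hv)) (inv_ne_zero hx)
  have hPn : P n := by
    rw [hn]
    exact hcommP v x hPv hx
  have hnx : n * x = v * x * v⁻¹ := by
    rw [hn, inv_mul_cancel_right₀ hx]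
  have hnv : v * x = n * x * v := by
    rw [hnx, inv_mul_cancel_right₀ hv]
  have hnC : n ∉ Subring.center D := by
    intro hnC
    by_cases hn1 : n = 1
    · rw [hn1, one_mul] at hnv
      have hcv : Commute v x := hnv
      have k1 : v * x * v⁻¹ = x := by rw [hcv.eq, mul_inv_cancel_right₀ hv]
      have k2 : v ^ 2 * x * (v ^ 2)⁻¹ = x := by
        rw [(hcv.pow_left 2).eq, mul_inv_cancel_right₀ (pow_ne_zero 2 hv)]
      have k3 : v ^ 3 * x * (v ^ 3)⁻¹ = x := by
        rw [(hcv.pow_left 3).eq, mul_inv_cancel_right₀ (pow_ne_zero 3 hv)]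
      rw [k1, k2, k3] at hx3
      have h4 : (1 - a - b - c) * x = 0 := by
        rw [sub_mul, sub_mul, sub_mul, one_mul]
        nth_rewrite 1 [hx3]
        abel
      rcases mul_eq_zero.mp h4 with h5 | h5
      · exact h1abc h5
      · exact hx h5
    · exact eigFalseN D P H R v x n hPv hx hnC hn0 hn1 hnv
  have hdeg : 3 ≤ (minpoly (Subring.center D) n).natDegree := by
    by_contra hlt
    exact hnC (deg2N D P H R hMp n hPn (by omega))
  have hna : n - a ≠ 0 := by
    intro h0
    rw [sub_eq_zero] at h0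
    exact hnC (h0 ▸ haC)
  obtain ⟨t, ht⟩ : ∃ t, t = (n - a) * x := ⟨_, rfl⟩
  have ht0 : t ≠ 0 := by
    rw [ht]
    exact mul_ne_zero hna hx
  have hv2 : v ^ 2 ≠ 0 := pow_ne_zero 2 hv
  have hv3 : v ^ 3 ≠ 0 := pow_ne_zero 3 hv
  have hs2 : v ^ 2 * t * (v ^ 2)⁻¹ = (b * n + c) * x := by
    have e1 : t = v * x * v⁻¹ - a * x := by rw [ht, sub_mul, hnx]
    have e2 : v ^ 2 * (v * x * v⁻¹) * (v ^ 2)⁻¹ = v ^ 3 * x * (v ^ 3)⁻¹ := by
      have : v ^ 3 = v ^ 2 * v := pow_succ v 2
      rw [this, mul_inv_rev]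
      simp only [mul_assoc]
    have e3 : v ^ 2 * (a * x) * (v ^ 2)⁻¹ = a * (v ^ 2 * x * (v ^ 2)⁻¹) := by
      rw [← mul_assoc (v ^ 2) a x, ← comm haC (v ^ 2)]
      simp only [mul_assoc]
    rw [e1, mul_sub, sub_mul, e2, e3, hx3, add_mul, mul_assoc b n x, hnx]
    abel
  have hMc := hcommP (v ^ 2) t hPv2 ht0
  have hcom : v ^ 2 * t * (v ^ 2)⁻¹ * t⁻¹ = (b * n + c) * (n - a)⁻¹ := by
    rw [hs2, ht, mul_inv_rev, mul_assoc, ← mul_assoc x, mul_inv_cancel₀ hx, one_mul]
  rw [hcom] at hMc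
  have hab : a ≠ 0 ∨ b ≠ 0 := by
    by_contra hcon
    push Not at hcon
    obtain ⟨ha0, hb0⟩ := hcon
    rw [ha0, hb0, zero_mul, zero_mul, zero_add, zero_add] at hx3
    have hc1 : c ≠ 1 := by
      intro hc1
      apply h1abc
      rw [ha0, hb0, hc1]
      simp
    have h5 : v ^ 3 * x = c * x * v ^ 3 := by
      rw [← hx3, inv_mul_cancel_right₀ hv3]
    exact eigFalseN D P H R (v ^ 3) x c hPv3 hx hcC hcne hc1 h5
  have hdet : a * b + c ≠ 0 := by
    intro h0
    have hc' : c = -(a * b) := eq_neg_of_add_eq_zero_right h0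
    have hb0 : b ≠ 0 := by
      intro hb0
      apply hcne
      rw [hc', hb0, mul_zero, neg_zero]
    have hb1 : b ≠ 1 := by
      intro hb1
      apply h1abc
      rw [hc', hb1, mul_one]
      abel
    have h5 : b * n + c = b * (n - a) := by
      rw [hc', mul_sub, comm haC b]
      abel
    have h6 : v ^ 2 * t = b * t * v ^ 2 := by
      have h7 : v ^ 2 * t * (v ^ 2)⁻¹ = b * t := by
        rw [hs2, h5, ht, mul_assoc]
      rw [← h7, inv_mul_cancel_right₀ hv2]
    exact eigFalseN D P H R (v ^ 2) t b hPv2 ht0 hbC hb0 hb1 h6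
  exact moebN D P H R hMp n hPn hdeg a b c haC hbC hcC hcne hab hdet hMc


theorem torsQ_pow (D : Type u) [DivisionRing D] (w x : D) (j : ℕ) (hj : x * w = w ^ j * x)
    (i : ℕ) : x ^ i * w = w ^ (j ^ i) * x ^ i := by
  induction i with
  | zero => simp
  | succ i ih =>
    have hs : SemiconjBy x w (w ^ j) := hj
    have h2 := (hs.pow_right (j ^ i)).eq
    rw [pow_succ' x, mul_assoc, ih, ← mul_assoc, h2, mul_assoc, ← pow_mul, ← pow_succ' j]

theorem torsQ_s (D : Type u) [DivisionRing D] (w x : D) (hx : x ≠ 0) (k : ℕ) (hk : 0 < k)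
    (hw : w ^ k = 1) (j : ℕ) (hj : x * w = w ^ j * x) : ∃ s, 0 < s ∧ x ^ s * w = w * x ^ s := by
  have key : ∀ i1 i2 : ℕ, i1 < i2 → w ^ (j ^ i1) = w ^ (j ^ i2) →
      ∃ s, 0 < s ∧ x ^ s * w = w * x ^ s := by
    intro i1 i2 h12 he
    refine ⟨i2 - i1, by omega, ?_⟩
    have h1 := torsQ_pow D w x j hj i1
    have h2 := torsQ_pow D w x j hj i2
    have h3 : x ^ i2 = x ^ i1 * x ^ (i2 - i1) := by
      rw [← pow_add]; congr 1; omega
    rw [← he, h3, mul_assoc, ← mul_assoc (w ^ (j ^ i1)), ← h1, mul_assoc (x ^ i1) w] at h2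
    exact mul_left_cancel₀ (pow_ne_zero i1 hx) h2
  obtain ⟨i1, i2, hne, he⟩ := Finite.exists_ne_map_eq_of_infinite
    (fun i : ℕ => (⟨j ^ i % k, Nat.mod_lt _ hk⟩ : Fin k))
  have he' : j ^ i1 % k = j ^ i2 % k := congrArg Fin.val he
  have hww : w ^ (j ^ i1) = w ^ (j ^ i2) := by
    rw [pow_eq_pow_mod (j ^ i1) hw, pow_eq_pow_mod (j ^ i2) hw, he']
  rcases lt_or_gt_of_ne hne with h | h
  · exact key i1 i2 h hww
  · exact key i2 i1 h hww.symm

theorem torsQ_E {D : Type u} [DivisionRing D] {K : Type u} [Field K] [Module K D]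
    (hsm : ∀ (c : K) (d e : D), c • (d * e) = (c • d) * e) (V : Submodule K D)
    [FiniteDimensional K V] (a : D) (ha0 : a ≠ 0) (ha : ∀ v ∈ V, v * a ∈ V) :
    ∃ T : V ≃ₗ[K] V, (∀ v : V, ((T v : V) : D) = v * a) ∧
      ∀ v : V, ((T.symm v : V) : D) = v * a⁻¹ := by
  let T : V →ₗ[K] V :=
    { toFun := fun v => ⟨v * a, ha v v.2⟩
      map_add' := by
        intro v v'
        apply Subtype.ext
        show ((v + v' : V) : D) * a = v * a + v' * a
        rw [Submodule.coe_add, add_mul]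
      map_smul' := by
        intro c v
        apply Subtype.ext
        show ((c • v : V) : D) * a = c • ((v : D) * a)
        rw [Submodule.coe_smul, hsm] }
  have hT : ∀ v : V, ((T v : V) : D) = v * a := fun v => rfl
  have hinj : Function.Injective T := by
    intro v v' h
    apply Subtype.ext
    have h1 := congrArg (fun z : V => (z : D)) h
    exact mul_right_cancel₀ ha0 h1
  have hsurj : Function.Surjective T := (LinearMap.injective_iff_surjective (f := T)).1 hinj
  refine ⟨LinearEquiv.ofBijective T ⟨hinj, hsurj⟩, fun v => rfl, fun v => ?_⟩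
  have h2 := (LinearEquiv.ofBijective T ⟨hinj, hsurj⟩).apply_symm_apply v
  have h3 : (((LinearEquiv.ofBijective T ⟨hinj, hsurj⟩).symm v : V) : D) * a = v :=
    congrArg (fun z : V => (z : D)) h2
  exact (eq_mul_inv_iff_mul_eq₀ ha0).2 h3

theorem torsQ_det {D : Type u} [DivisionRing D] {K : Type u} [Field K] [Module K D]
    (hsm : ∀ (c : K) (d e : D), c • (d * e) = (c • d) * e) (V : Submodule K D)
    [FiniteDimensional K V] (w y : D) (hw0 : w ≠ 0) (hy0 : y ≠ 0)
    (hwV : ∀ v ∈ V, v * w ∈ V) (hyV : ∀ v ∈ V, v * y ∈ V) (n : ℕ) (z : K)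
    (hz : ∀ v ∈ V, v * (w * y * w⁻¹ * y⁻¹) ^ n = z • v) :
    z ^ Module.finrank K V = 1 := by
  obtain ⟨Tw, hTw, hTw'⟩ := torsQ_E hsm V w hw0 hwV
  obtain ⟨Ty, hTy, hTy'⟩ := torsQ_E hsm V y hy0 hyV
  obtain ⟨Q, hQ⟩ : ∃ Q : V →ₗ[K] V, Q = (Ty.symm : V →ₗ[K] V) * (Tw.symm : V →ₗ[K] V) *
    (Ty : V →ₗ[K] V) * (Tw : V →ₗ[K] V) := ⟨_, rfl⟩
  have hQv : ∀ v : V, ((Q v : V) : D) = v * (w * y * w⁻¹ * y⁻¹) := by
    intro v
    have h1 : Q v = Ty.symm (Tw.symm (Ty (Tw v))) := by rw [hQ]; rfl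
    rw [h1, hTy', hTw', hTy, hTw]
    simp only [mul_assoc]
  have hQn : ∀ (m : ℕ) (v : V), (((Q ^ m) v : V) : D) = v * (w * y * w⁻¹ * y⁻¹) ^ m := by
    intro m
    induction m with
    | zero => intro v; simp
    | succ m ih =>
      intro v
      rw [pow_succ, Module.End.mul_apply, ih, hQv, mul_assoc, ← pow_succ']
  have hdet : LinearMap.det Q = 1 := by
    rw [hQ, map_mul, map_mul, map_mul]
    have e1 := LinearEquiv.det_symm_mul_det Ty
    have e2 := LinearEquiv.det_symm_mul_det Tw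
    calc _ = (LinearMap.det (Ty.symm : V →ₗ[K] V) * LinearMap.det (Ty : V →ₗ[K] V)) *
          (LinearMap.det (Tw.symm : V →ₗ[K] V) * LinearMap.det (Tw : V →ₗ[K] V)) := by ring
      _ = 1 := by rw [e1, e2, one_mul]
  have hQz : Q ^ n = z • (LinearMap.id : V →ₗ[K] V) := by
    apply LinearMap.ext
    intro v
    apply Subtype.ext
    rw [hQn, hz v v.2]
    rfl
  have h4 : LinearMap.det (Q ^ n) = z ^ Module.finrank K V := by
    rw [hQz, LinearMap.det_smul, LinearMap.det_id, mul_one]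
  rw [← h4, map_pow, hdet, one_pow]

theorem torsQ (D : Type u) [DivisionRing D] (w x : D) (hx : x ≠ 0) (k : ℕ) (hk : 0 < k)
    (hw : w ^ k = 1) (j : ℕ) (hj : x * w = w ^ j * x) (l : D) (hl : l ∈ Subring.center D)
    (hxl : x + l ≠ 0) (n : ℕ) (hn : 0 < n)
    (h : (w * (x + l) * w⁻¹ * (x + l)⁻¹) ^ n ∈ Subring.center D) :
    ∃ m : ℕ, 0 < m ∧ (w * (x + l) * w⁻¹ * (x + l)⁻¹) ^ m = 1 := by
  have hw0 : w ≠ 0 := by
    rintro rfl
    rw [zero_pow hk.ne'] at hw
    exact zero_ne_one hw
  obtain ⟨s, hs, hsw⟩ := torsQ_s D w x hx k hk hw j hj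
  obtain ⟨K, _, f, hfS, hfc⟩ := exField D {w, x ^ s} (by
    intro a ha b hb
    rcases ha with rfl | ha
    · rcases hb with rfl | hb
      · rfl
      · rw [Set.mem_singleton_iff.1 hb]; exact hsw.symm
    · rcases hb with rfl | hb
      · rw [Set.mem_singleton_iff.1 ha]; exact hsw
      · rw [Set.mem_singleton_iff.1 ha, Set.mem_singleton_iff.1 hb])
  obtain ⟨zw, hzw⟩ := hfS w (Or.inl rfl)
  obtain ⟨zs, hzs⟩ := hfS (x ^ s) (Or.inr rfl)
  obtain ⟨zl, hzl⟩ := hfc l hl
  obtain ⟨zc, hzc⟩ := hfc _ h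
  letI : Module K D := Module.compHom D f
  have hsmul : ∀ (a : K) (d : D), a • d = f a * d := fun _ _ => rfl
  have hsm : ∀ (c : K) (d e : D), c • (d * e) = (c • d) * e := by
    intro c d e
    rw [hsmul, hsmul, mul_assoc]
  obtain ⟨V, hV⟩ : ∃ V : Submodule K D,
      V = Submodule.span K (Set.range (fun i : Fin s => x ^ (i : ℕ))) := ⟨_, rfl⟩
  haveI : FiniteDimensional K V := by
    rw [hV]
    exact FiniteDimensional.span_of_finite K (Set.finite_range _)
  have hxi : ∀ i, i < s → x ^ i ∈ V := by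
    intro i hi
    rw [hV]
    exact Submodule.subset_span ⟨⟨i, hi⟩, rfl⟩
  have hR : ∀ a : D, (∀ i, i < s → x ^ i * a ∈ V) → ∀ v ∈ V, v * a ∈ V := by
    intro a ha v hv
    rw [hV] at hv
    induction hv using Submodule.span_induction with
    | mem v hv =>
      obtain ⟨i, rfl⟩ := hv
      exact ha i i.2
    | zero => rw [zero_mul]; exact V.zero_mem
    | add u v _ _ hu hv => rw [add_mul]; exact V.add_mem hu hv
    | smul c v _ hv => rw [← hsm]; exact V.smul_mem c hv
  have hwV : ∀ v ∈ V, v * w ∈ V := by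
    apply hR
    intro i hi
    rw [torsQ_pow D w x j hj i]
    have : w ^ (j ^ i) * x ^ i = (zw ^ (j ^ i)) • x ^ i := by
      rw [hsmul, map_pow, hzw]
    rw [this]
    exact V.smul_mem _ (hxi i hi)
  have hyV : ∀ v ∈ V, v * (x + l) ∈ V := by
    apply hR
    intro i hi
    rw [mul_add]
    apply V.add_mem
    · rw [← pow_succ]
      rcases lt_or_eq_of_le (Nat.succ_le_of_lt hi) with h1 | h1
      · exact hxi (i + 1) h1
      · have h2 : x ^ (i + 1) = zs • x ^ 0 := by
          rw [hsmul, hzs, pow_zero, mul_one]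
          congr 1
        rw [h2]
        exact V.smul_mem _ (hxi 0 hs)
    · have h3 : x ^ i * l = zl • x ^ i := by
        rw [hsmul, hzl]
        exact Subring.mem_center_iff.1 hl (x ^ i)
      rw [h3]
      exact V.smul_mem _ (hxi i hi)
  have hz : ∀ v ∈ V, v * (w * (x + l) * w⁻¹ * (x + l)⁻¹) ^ n = zc • v := by
    intro v _
    rw [hsmul, hzc]
    exact Subring.mem_center_iff.1 h v
  have hfin := torsQ_det hsm V w (x + l) hw0 hxl hwV hyV n zc hz
  have hne : V ≠ ⊥ := by
    intro hbot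
    have h1 := hxi 0 hs
    rw [hbot, Submodule.mem_bot, pow_zero] at h1
    exact one_ne_zero h1
  haveI : Nontrivial V := Submodule.nontrivial_iff_ne_bot.2 hne
  have hpos : 0 < Module.finrank K V := Module.finrank_pos
  refine ⟨n * Module.finrank K V, Nat.mul_pos hn hpos, ?_⟩
  rw [pow_mul, ← hzc, ← map_pow, hfin, map_one]

lemma tot_dvd (t N : ℕ) (ht : 0 < t) (h : t.totient ≤ N) : t ∣ (2 * N).factorial := by
  rw [Nat.dvd_iff_prime_pow_dvd_dvd]
  intro r a hr ha
  rcases Nat.eq_zero_or_pos a with h0 | h0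
  · subst h0; simp
  have h1 : (r ^ a).totient = r ^ (a - 1) * (r - 1) := Nat.totient_prime_pow hr h0
  have h2 : r ^ a ≤ 2 * (r ^ a).totient := by
    rw [h1]
    obtain ⟨b, rfl⟩ : ∃ b, a = b + 1 := ⟨a - 1, by omega⟩
    have := hr.two_le
    simp only [Nat.add_sub_cancel]
    calc r ^ (b + 1) = r ^ b * r := pow_succ _ _
      _ ≤ r ^ b * (2 * (r - 1)) := Nat.mul_le_mul_left _ (by omega)
      _ = 2 * (r ^ b * (r - 1)) := by ring
  have h3 : (r ^ a).totient ≤ t.totient := Nat.le_of_dvd (Nat.totient_pos.2 ht) (Nat.totient_dvd_of_dvd ha)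
  exact Nat.dvd_factorial (pow_pos hr.pos _) (by omega)

lemma torsion_bound (D : Type u) [DivisionRing D] [CharZero D] (E : Subalgebra ℚ D) [FiniteDimensional ℚ E]
    (q : D) (hq : q ∈ E) (m : ℕ) (hm : 0 < m) (hqm : q ^ m = 1) :
    q ^ (2 * Module.finrank ℚ E).factorial = 1 := by
  have hfo : IsOfFinOrder q := isOfFinOrder_iff_pow_eq_one.2 ⟨m, hm, hqm⟩
  have ht : 0 < orderOf q := hfo.orderOf_pos
  have hint : IsIntegral ℚ q := IsIntegral.of_pow hm (by rw [hqm]; exact isIntegral_one)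
  have hdeg : (minpoly ℚ q).natDegree ≤ Module.finrank ℚ E := by
    have h1 : minpoly ℚ (E.val ⟨q, hq⟩) = minpoly ℚ (⟨q, hq⟩ : E) :=
      minpoly.algHom_eq E.val Subtype.val_injective _
    have h2 : E.val ⟨q, hq⟩ = q := rfl
    rw [h2] at h1
    rw [h1]
    exact minpoly.natDegree_le _
  have hdvd : minpoly ℚ q ∣ (X ^ (orderOf q) - 1 : ℚ[X]) := by
    apply minpoly.dvd
    simp [pow_orderOf_eq_one]
  have hprime : Prime (minpoly ℚ q) := (minpoly.irreducible hint).prime
  rw [← prod_cyclotomic_eq_X_pow_sub_one ht ℚ, hprime.dvd_finsetProd_iff] at hdvd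
  obtain ⟨d, hd, hpd⟩ := hdvd
  have hd' := Nat.dvd_of_mem_divisors hd
  have hd0 : 0 < d := Nat.pos_of_dvd_of_pos hd' ht
  have hroot : aeval q (cyclotomic d ℚ) = 0 := by
    obtain ⟨r, hr⟩ := hpd
    rw [hr, map_mul, minpoly.aeval, zero_mul]
  have hqd : q ^ d = 1 := by
    obtain ⟨r, hr⟩ := cyclotomic.dvd_X_pow_sub_one d ℚ
    have := congrArg (aeval q) hr
    rw [map_mul, hroot, zero_mul] at this
    simpa [sub_eq_zero] using this
  have htd : orderOf q ∣ d := orderOf_dvd_of_pow_eq_one hqd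
  have hmin : cyclotomic d ℚ = minpoly ℚ q :=
    minpoly.eq_of_irreducible_of_monic (cyclotomic.irreducible_rat hd0) hroot (cyclotomic.monic d ℚ)
  rw [← hmin, natDegree_cyclotomic] at hdeg
  exact orderOf_dvd_iff_pow_eq_one.1 (htd.trans (tot_dvd d _ hd0 hdeg))

lemma exists_E (D : Type u) [DivisionRing D] [CharZero D] (w x : D) (k : ℕ)
    (hk : 0 < k) (hw : w ^ k = 1) (j : ℕ) (hj : x * w = w ^ j * x) (halg : IsAlgebraic ℚ x) :
    ∃ E : Subalgebra ℚ D, FiniteDimensional ℚ E ∧ w ∈ E ∧ x ∈ E := by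
  have hintw : IsIntegral ℚ w := IsIntegral.of_pow hk (by rw [hw]; exact isIntegral_one)
  have hintx : IsIntegral ℚ x := halg.isIntegral
  let Sw : Submodule ℚ D := Subalgebra.toSubmodule (Algebra.adjoin ℚ {w})
  let Sx : Submodule ℚ D := Subalgebra.toSubmodule (Algebra.adjoin ℚ {x})
  have hSw : Sw = Submodule.span ℚ (Set.range fun a : ℕ => w ^ a) := by
    change Subalgebra.toSubmodule (Algebra.adjoin ℚ {w}) = _
    rw [Algebra.adjoin_eq_span]
    congr 1
    ext y
    simp [Submonoid.mem_closure_singleton]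
  have hSx : Sx = Submodule.span ℚ (Set.range fun a : ℕ => x ^ a) := by
    change Subalgebra.toSubmodule (Algebra.adjoin ℚ {x}) = _
    rw [Algebra.adjoin_eq_span]
    congr 1
    ext y
    simp [Submonoid.mem_closure_singleton]
  have hww : Sw * Sw ≤ Sw := Submodule.mul_le.2 (fun a ha b hb => (Algebra.adjoin ℚ {w}).mul_mem ha hb)
  have hxx : Sx * Sx ≤ Sx := Submodule.mul_le.2 (fun a ha b hb => (Algebra.adjoin ℚ {x}).mul_mem ha hb)
  have hwa : ∀ a : ℕ, x * w ^ a = w ^ (j * a) * x := by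
    intro a
    induction a with
    | zero => simp
    | succ a ih =>
      rw [pow_succ, ← mul_assoc, ih, mul_assoc, hj, ← mul_assoc, ← pow_add]
      congr 2
  have hxw : ∀ b a : ℕ, ∃ c : ℕ, x ^ b * w ^ a = w ^ c * x ^ b := by
    intro b
    induction b with
    | zero => intro a; exact ⟨a, by simp⟩
    | succ b ih =>
      intro a
      obtain ⟨c, hc⟩ := ih (j * a)
      refine ⟨c, ?_⟩
      rw [pow_succ, mul_assoc, hwa, ← mul_assoc, hc, mul_assoc]
  have hcomm : Sx * Sw ≤ Sw * Sx := by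
    rw [hSx, hSw, Submodule.span_mul_span, ← hSx, ← hSw, Submodule.span_le]
    rintro _ ⟨_, ⟨b, rfl⟩, _, ⟨a, rfl⟩, rfl⟩
    obtain ⟨c, hc⟩ := hxw b a
    change x ^ b * w ^ a ∈ Sw * Sx
    rw [hc]
    refine Submodule.mul_mem_mul ?_ ?_
    · rw [hSw]; exact Submodule.subset_span ⟨c, rfl⟩
    · rw [hSx]; exact Submodule.subset_span ⟨b, rfl⟩
  have hpp : (Sw * Sx) * (Sw * Sx) ≤ Sw * Sx := by
    calc (Sw * Sx) * (Sw * Sx) = Sw * (Sx * Sw) * Sx := by simp only [mul_assoc]
      _ ≤ Sw * (Sw * Sx) * Sx := by gcongr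
      _ = (Sw * Sw) * (Sx * Sx) := by simp only [mul_assoc]
      _ ≤ Sw * Sx := by gcongr
  have h1w : (1 : D) ∈ Sw := (Algebra.adjoin ℚ {w}).one_mem
  have h1x : (1 : D) ∈ Sx := (Algebra.adjoin ℚ {x}).one_mem
  refine ⟨(Sw * Sx).toSubalgebra ?_ ?_, ?_, ?_, ?_⟩
  · simpa using Submodule.mul_mem_mul h1w h1x
  · intro a b ha hb
    exact hpp (Submodule.mul_mem_mul ha hb)
  · have hfg : (Sw * Sx).FG := Submodule.FG.mul hintw.fg_adjoin_singleton hintx.fg_adjoin_singleton
    exact Module.Finite.iff_fg.2 hfg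
  · change w ∈ Sw * Sx
    have : w ∈ Sw := Algebra.self_mem_adjoin_singleton ℚ w
    simpa using Submodule.mul_mem_mul this h1x
  · change x ∈ Sw * Sx
    have : x ∈ Sx := Algebra.self_mem_adjoin_singleton ℚ x
    simpa using Submodule.mul_mem_mul h1w this

lemma inv_mem_E (D : Type u) [DivisionRing D] [CharZero D] (E : Subalgebra ℚ D) [FiniteDimensional ℚ E]
    (a : D) (ha : a ∈ E) (h0 : a ≠ 0) : a⁻¹ ∈ E := by
  obtain ⟨y, hy⟩ := FiniteDimensional.exists_mul_eq_one ℚ (K := E) (x := ⟨a, ha⟩) (by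
    intro h; exact h0 (congrArg Subtype.val h))
  have h1 : a * (y : D) = 1 := congrArg Subtype.val hy
  have h2 : a⁻¹ = y := by
    rw [← mul_one a⁻¹, ← h1, ← mul_assoc, inv_mul_cancel₀ h0, one_mul]
  rw [h2]
  exact y.2

section an
open Filter Topology
attribute [local instance] Matrix.linftyOpNormedRing Matrix.linftyOpNormedAlgebra

lemma analytic {ι : Type*} [Fintype ι] [DecidableEq ι] [Nonempty ι] (X Y : Matrix ι ι ℝ) (u : ℕ → Matrix ι ι ℝ)
    (l0 : ℕ) (hu : ∀ l > l0, (X + (l : Matrix ι ι ℝ)) * u l = 1) (M : ℕ) (hM : 0 < M)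
    (hz : ∀ l > l0, ∑ i ∈ Finset.range M, (1 + Y * u l) ^ i = 0) : False := by
  have hul : ∀ l > l0, (l : ℝ) • u l = 1 - X * u l := by
    intro l hl
    have := hu l hl
    rw [add_mul] at this
    rw [← this]
    have e : ((l : Matrix ι ι ℝ)) * u l = (l : ℝ) • u l := by
      rw [← nsmul_eq_mul, Nat.cast_smul_eq_nsmul]
    rw [e]
    abel
  have hbd : ∀ l > l0, ‖u l‖ * ((l : ℝ) - ‖X‖) ≤ ‖(1 : Matrix ι ι ℝ)‖ := by
    intro l hl
    have h1 : ‖(l : ℝ) • u l‖ ≤ ‖(1 : Matrix ι ι ℝ)‖ + ‖X‖ * ‖u l‖ := by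
      rw [hul l hl]
      exact (norm_sub_le _ _).trans (by gcongr; exact norm_mul_le _ _)
    rw [norm_smul, Real.norm_of_nonneg (Nat.cast_nonneg l)] at h1
    linarith
  have hlim0 : Tendsto (fun l : ℕ => ‖u l‖) atTop (𝓝 0) := by
    have h1 : Tendsto (fun l : ℕ => ‖(1 : Matrix ι ι ℝ)‖ / ((l : ℝ) - ‖X‖)) atTop (𝓝 0) := by
      apply Tendsto.div_atTop tendsto_const_nhds
      exact tendsto_atTop_add_const_right _ (-‖X‖) tendsto_natCast_atTop_atTop
    refine squeeze_zero' (Eventually.of_forall fun _ => norm_nonneg _) ?_ h1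
    filter_upwards [eventually_gt_atTop l0, eventually_gt_atTop (⌈‖X‖⌉₊)] with l hl hl2
    have h3 : ‖X‖ < l := (Nat.le_ceil _).trans_lt (by exact_mod_cast hl2)
    rw [le_div_iff₀ (by linarith)]
    exact hbd l hl
  have hlim : Tendsto u atTop (𝓝 0) := tendsto_zero_iff_norm_tendsto_zero.2 hlim0
  have h2 : Tendsto (fun l => ∑ i ∈ Finset.range M, (1 + Y * u l) ^ i) atTop
      (𝓝 (∑ i ∈ Finset.range M, (1 + Y * (0 : Matrix ι ι ℝ)) ^ i)) := by
    refine tendsto_finsetSum _ fun i _ => ?_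
    exact (tendsto_const_nhds.add (hlim.const_mul Y)).pow i
  have h3 : Tendsto (fun l => ∑ i ∈ Finset.range M, (1 + Y * u l) ^ i) atTop (𝓝 0) := by
    refine tendsto_const_nhds.congr' ?_
    filter_upwards [eventually_gt_atTop l0] with l hl
    exact (hz l hl).symm
  have h4 := tendsto_nhds_unique h2 h3
  simp only [mul_zero, add_zero, one_pow, Finset.sum_const, Finset.card_range] at h4
  obtain ⟨i⟩ := (inferInstance : Nonempty ι)
  have h5 := congrFun (congrFun h4 i) i
  simp [Matrix.smul_apply] at h5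
  omega

end an

theorem caseAlg (D : Type u) [DivisionRing D] [CharZero D] (w x : D) (hx : x ≠ 0) (k : ℕ)
    (hk : 0 < k) (hw : w ^ k = 1) (j : ℕ) (hj : x * w = w ^ j * x) (halg : IsAlgebraic ℚ x)
    (h : ∀ l : ℕ, x + (l : D) ≠ 0 →
      ∃ m : ℕ, 0 < m ∧ (w * (x + (l : D)) * w⁻¹ * (x + (l : D))⁻¹) ^ m = 1) :
    w ^ j = w := by
  by_contra hne
  have hw0 : w ≠ 0 := by
    rintro rfl
    rw [zero_pow hk.ne'] at hw
    exact zero_ne_one hw
  have hwj0 : w ^ j ≠ 0 := pow_ne_zero _ hw0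
  obtain ⟨E, hE, hwE, hxE⟩ := exists_E D w x k hk hw j hj halg
  set z : D := w * (w ^ j)⁻¹ * x - x with hzdef
  have hwinvE : w⁻¹ ∈ E := inv_mem_E D E w hwE hw0
  have hzE : z ∈ E := by
    refine sub_mem (mul_mem (mul_mem hwE ?_) hxE) hxE
    exact inv_mem_E D E _ (pow_mem hwE j) hwj0
  have hconj : w * x * w⁻¹ = z + x := by
    rw [hzdef, sub_add_cancel]
    have h1 : (w ^ j)⁻¹ * x = x * w⁻¹ := by
      calc (w ^ j)⁻¹ * x = (w ^ j)⁻¹ * ((x * w) * w⁻¹) := by rw [mul_assoc x, mul_inv_cancel₀ hw0, mul_one]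
        _ = (w ^ j)⁻¹ * ((w ^ j * x) * w⁻¹) := by rw [hj]
        _ = x * w⁻¹ := by
          rw [mul_assoc (w ^ j), ← mul_assoc, inv_mul_cancel₀ hwj0, one_mul]
    rw [mul_assoc w _ x, h1, mul_assoc]
  have hz0 : z ≠ 0 := by
    intro h0
    rw [hzdef, sub_eq_zero] at h0
    have h1 : w * (w ^ j)⁻¹ = 1 := mul_right_cancel₀ hx (by rw [h0, one_mul])
    apply hne
    calc w ^ j = (w * (w ^ j)⁻¹) * w ^ j := by rw [h1, one_mul]
      _ = w := by rw [mul_assoc, inv_mul_cancel₀ hwj0, mul_one]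
  have hq : ∀ l : ℕ, x + (l : D) ≠ 0 →
      w * (x + (l : D)) * w⁻¹ * (x + (l : D))⁻¹ = 1 + z * (x + (l : D))⁻¹ := by
    intro l hl
    have h1 : w * (x + (l : D)) * w⁻¹ = z + (x + (l : D)) := by
      rw [mul_add, add_mul, hconj, (Nat.cast_commute l w).symm.eq, mul_assoc, mul_inv_cancel₀ hw0, mul_one,
        add_assoc]
    rw [h1, add_mul, mul_inv_cancel₀ hl, add_comm]
  have hinvE : ∀ l : ℕ, (x + (l : D))⁻¹ ∈ E := by
    intro l
    by_cases hl : x + (l : D) = 0
    · rw [hl, inv_zero]; exact zero_mem _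
    · exact inv_mem_E D E _ (add_mem hxE (natCast_mem E l)) hl
  obtain ⟨l0, hl0⟩ : ∃ l0 : ℕ, ∀ l > l0, x + (l : D) ≠ 0 := by
    by_cases hex : ∃ l1 : ℕ, x + (l1 : D) = 0
    · obtain ⟨l1, hl1⟩ := hex
      refine ⟨l1, fun l hl h0 => ?_⟩
      have : (l : D) = (l1 : D) := add_left_cancel (h0.trans hl1.symm)
      have := Nat.cast_injective this
      omega
    · push Not at hex
      exact ⟨0, fun l _ => hex l⟩
  set M := (2 * Module.finrank ℚ E).factorial with hM
  have hM0 : 0 < M := Nat.factorial_pos _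
  have hsum : ∀ l > l0, ∑ i ∈ Finset.range M, (1 + z * (x + (l : D))⁻¹) ^ i = 0 := by
    intro l hl
    obtain ⟨m, hm, hqm⟩ := h l (hl0 l hl)
    rw [hq l (hl0 l hl)] at hqm
    have h1 := torsion_bound D E (1 + z * (x + (l : D))⁻¹)
      (add_mem (one_mem _) (mul_mem hzE (hinvE l))) m hm hqm
    rw [← hM] at h1
    have h2 := mul_geom_sum (1 + z * (x + (l : D))⁻¹) M
    rw [h1, sub_self] at h2
    rcases mul_eq_zero.1 h2 with h3 | h3
    · exfalso
      rw [add_sub_cancel_left] at h3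
      rcases mul_eq_zero.1 h3 with h4 | h4
      · exact hz0 h4
      · exact hl0 l hl (inv_eq_zero.1 h4)
    · exact h3
  let b := Module.finBasis ℚ E
  have hfr : 0 < Module.finrank ℚ E := Module.finrank_pos
  have : Nonempty (Fin (Module.finrank ℚ E)) := ⟨⟨0, hfr⟩⟩
  let Φ : E →+* Matrix (Fin (Module.finrank ℚ E)) (Fin (Module.finrank ℚ E)) ℝ :=
    ((algebraMap ℚ ℝ).mapMatrix).comp (Algebra.leftMulMatrix b).toRingHom
  refine analytic (Φ ⟨x, hxE⟩) (Φ ⟨z, hzE⟩) (fun l => Φ ⟨(x + (l : D))⁻¹, hinvE l⟩) l0 ?_ M hM0 ?_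
  · intro l hl
    rw [← map_natCast Φ l, ← map_add, ← map_mul, ← map_one Φ]
    congr 1
    apply Subtype.ext
    change (x + ((l : E) : D)) * (x + (l : D))⁻¹ = 1
    rw [show ((l : E) : D) = (l : D) from rfl]
    exact mul_inv_cancel₀ (hl0 l hl)
  · intro l hl
    have h1 : ∀ i : ℕ, (1 + Φ ⟨z, hzE⟩ * Φ ⟨(x + (l : D))⁻¹, hinvE l⟩) ^ i =
        Φ ((1 + ⟨z, hzE⟩ * ⟨(x + (l : D))⁻¹, hinvE l⟩) ^ i) := by
      intro i
      rw [map_pow, map_add, map_one, map_mul]
    simp only [h1]
    rw [← map_sum, ← map_zero Φ]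
    congr 1
    apply Subtype.ext
    have h2 := hsum l hl
    have h3 : ((∑ i ∈ Finset.range M, (1 + (⟨z, hzE⟩ : E) * ⟨(x + (l : D))⁻¹, hinvE l⟩) ^ i : E) : D)
        = ∑ i ∈ Finset.range M, (1 + z * (x + (l : D))⁻¹) ^ i := by
      push_cast
      rfl
    rw [h3, h2]
    rfl

theorem caseTr_inv (k₀ : Type) [Field k₀] (D : Type u) [DivisionRing D] [Algebra k₀ D]
    (B : Subalgebra k₀ D) (hB : (Subalgebra.toSubmodule B).FG) (b : D) (hb : b ∈ B) (h0 : b ≠ 0) :
    b⁻¹ ∈ B := by
  haveI : Module.Finite k₀ (Subalgebra.toSubmodule B) := Module.Finite.iff_fg.mpr hB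
  haveI : Module.Finite k₀ B := this
  let f : B →ₗ[k₀] B := LinearMap.mulLeft k₀ (⟨b, hb⟩ : B)
  have hinj : Function.Injective f := by
    intro u v huv
    have h1 : b * (u : D) = b * (v : D) := congrArg Subtype.val huv
    exact Subtype.ext (mul_left_cancel₀ h0 h1)
  obtain ⟨z, hz⟩ := LinearMap.injective_iff_surjective.mp hinj 1
  have h2 : b * (z : D) = 1 := congrArg Subtype.val hz
  have h3 : (z : D) = b⁻¹ := eq_inv_of_mul_eq_one_right h2
  rw [← h3]
  exact z.2

theorem caseTr_xw (D : Type u) [DivisionRing D] (w x : D) (j : ℕ) (hj : x * w = w ^ j * x) (i b : ℕ) :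
    x ^ i * w ^ b = w ^ (b * j ^ i) * x ^ i := by
  have h1 : ∀ b, x * w ^ b = w ^ (b * j) * x := by
    intro b
    induction b with
    | zero => simp
    | succ b ih =>
      rw [pow_succ, ← mul_assoc, ih, mul_assoc, hj, ← mul_assoc, ← pow_add]
      congr 2
      ring
  induction i with
  | zero => simp
  | succ i ih =>
    rw [pow_succ', mul_assoc, ih, ← mul_assoc, h1, mul_assoc]
    congr 2
    rw [pow_succ, mul_assoc]

/-- filtration -/
def caseTr_M (k₀ : Type) [Field k₀] (D : Type u) [DivisionRing D] [Algebra k₀ D] (w x : D) (n : ℕ) :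
    Submodule k₀ D := Submodule.span k₀ {z | ∃ a i : ℕ, n ≤ i ∧ z = w ^ a * x ^ i}

theorem caseTr_mul (k₀ : Type) [Field k₀] (D : Type u) [DivisionRing D] [Algebra k₀ D] (w x : D)
    (j : ℕ) (hj : x * w = w ^ j * x) (n m : ℕ) (z z' : D) (hz : z ∈ caseTr_M k₀ D w x n)
    (hz' : z' ∈ caseTr_M k₀ D w x m) : z * z' ∈ caseTr_M k₀ D w x (n + m) := by
  have h1 : caseTr_M k₀ D w x n * caseTr_M k₀ D w x m ≤ caseTr_M k₀ D w x (n + m) := by
    unfold caseTr_M
    rw [Submodule.span_mul_span, Submodule.span_le]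
    rintro _ ⟨_, ⟨a, i, hi, rfl⟩, _, ⟨b, l, hl, rfl⟩, rfl⟩
    apply Submodule.subset_span
    refine ⟨a + b * j ^ i, i + l, by omega, ?_⟩
    show w ^ a * x ^ i * (w ^ b * x ^ l) = _
    calc w ^ a * x ^ i * (w ^ b * x ^ l) = w ^ a * (x ^ i * w ^ b) * x ^ l := by
          simp only [mul_assoc]
      _ = _ := by rw [caseTr_xw D w x j hj, pow_add, pow_add]; simp only [mul_assoc]
  exact h1 (Submodule.mul_mem_mul hz hz')

theorem caseTr_mono (k₀ : Type) [Field k₀] (D : Type u) [DivisionRing D] [Algebra k₀ D] (w x : D)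
    (n m : ℕ) (h : m ≤ n) : caseTr_M k₀ D w x n ≤ caseTr_M k₀ D w x m := by
  apply Submodule.span_mono
  rintro z ⟨a, i, hi, rfl⟩
  exact ⟨a, i, by omega, rfl⟩

theorem caseTr_alg (k₀ : Type) [Field k₀] (D : Type u) [DivisionRing D] [Algebra k₀ D] (w x : D)
    (k : ℕ) (hk : 0 < k) (hw : w ^ k = 1) (hx0 : x ≠ 0)
    (hx : x ∈ caseTr_M k₀ D w x 2) : IsIntegral k₀ x := by
  have hwmod : ∀ a, w ^ a = w ^ (a % k) := by
    intro a
    conv_lhs => rw [← Nat.mod_add_div a k, pow_add, pow_mul, hw, one_pow, mul_one]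
  obtain ⟨y, hy⟩ : ∃ y : D, y = x⁻¹ := ⟨_, rfl⟩
  have hxy : x * y = 1 := by rw [hy]; exact mul_inv_cancel₀ hx0
  have hyx : y * x = 1 := by rw [hy]; exact inv_mul_cancel₀ hx0
  have hy0 : y ≠ 0 := by rw [hy]; exact inv_ne_zero hx0
  have hc : Commute x y := by unfold Commute SemiconjBy; rw [hxy, hyx]
  have hxyn : ∀ i N, i ≤ N → x ^ i * y ^ N = y ^ (N - i) := by
    intro i N hi
    conv_lhs => rw [← Nat.add_sub_cancel' hi, pow_add, ← mul_assoc, ← hc.mul_pow, hxy, one_pow, one_mul]
  -- y in W N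
  have h1 : ∀ z ∈ caseTr_M k₀ D w x 2, ∃ N, 2 ≤ N ∧ z ∈ Submodule.span k₀ {z | ∃ a i : ℕ, 2 ≤ i ∧ i ≤ N ∧ z = w ^ a * x ^ i} := by
    intro z hz
    unfold caseTr_M at hz
    induction hz using Submodule.span_induction with
    | mem z hz =>
      obtain ⟨a, i, hi, rfl⟩ := hz
      exact ⟨i, hi, Submodule.subset_span ⟨a, i, hi, le_rfl, rfl⟩⟩
    | zero => exact ⟨2, le_rfl, Submodule.zero_mem _⟩
    | add z z' _ _ ih ih' =>
      obtain ⟨N, hN, h⟩ := ih
      obtain ⟨N', hN', h'⟩ := ih'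
      refine ⟨max N N', le_max_of_le_left hN, Submodule.add_mem _ ?_ ?_⟩
      · refine Submodule.span_mono ?_ h
        rintro z ⟨a, i, h1, h2, rfl⟩
        exact ⟨a, i, h1, le_max_of_le_left h2, rfl⟩
      · refine Submodule.span_mono ?_ h'
        rintro z ⟨a, i, h1, h2, rfl⟩
        exact ⟨a, i, h1, le_max_of_le_right h2, rfl⟩
    | smul r z _ ih =>
      obtain ⟨N, hN, h⟩ := ih
      exact ⟨N, hN, Submodule.smul_mem _ _ h⟩
  obtain ⟨N, hN2, hxN⟩ := h1 x hx
  -- V
  obtain ⟨V, hV⟩ : ∃ V : Submodule k₀ D, V = Submodule.span k₀ {z | ∃ a t : ℕ, t ≤ N ∧ z = w ^ a * y ^ t} := ⟨_, rfl⟩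
  have hmul : ∀ z ∈ Submodule.span k₀ {z | ∃ a i : ℕ, 2 ≤ i ∧ i ≤ N ∧ z = w ^ a * x ^ i},
      z * y ^ N ∈ Submodule.span k₀ {z | ∃ a t : ℕ, t ≤ N - 2 ∧ z = w ^ a * y ^ t} := by
    intro z hz
    induction hz using Submodule.span_induction with
    | mem z hz =>
      obtain ⟨a, i, hi, hi2, rfl⟩ := hz
      apply Submodule.subset_span
      refine ⟨a, N - i, by omega, ?_⟩
      rw [mul_assoc, hxyn i N hi2]
    | zero => rw [zero_mul]; exact Submodule.zero_mem _
    | add z z' _ _ ih ih' => rw [add_mul]; exact Submodule.add_mem _ ih ih'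
    | smul r z _ ih => rw [smul_mul_assoc]; exact Submodule.smul_mem _ _ ih
  have hyN1 : y ^ (N - 1) ∈ Submodule.span k₀ {z | ∃ a t : ℕ, t ≤ N - 2 ∧ z = w ^ a * y ^ t} := by
    have := hmul x hxN
    have e := hxyn 1 N (by omega)
    rw [pow_one] at e
    rwa [e] at this
  obtain ⟨V, hV⟩ : ∃ V : Submodule k₀ D,
    V = Submodule.span k₀ {z | ∃ a t : ℕ, t ≤ N - 2 ∧ z = w ^ a * y ^ t} := ⟨_, rfl⟩
  rw [← hV] at hyN1
  have hwV : ∀ (b : ℕ), ∀ z ∈ V, w ^ b * z ∈ V := by
    intro b z hz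
    rw [hV] at hz ⊢
    induction hz using Submodule.span_induction with
    | mem z hz =>
      obtain ⟨a, t, ht, rfl⟩ := hz
      apply Submodule.subset_span
      exact ⟨b + a, t, ht, by rw [← mul_assoc, ← pow_add]⟩
    | zero => rw [mul_zero]; exact Submodule.zero_mem _
    | add z z' _ _ ih ih' => rw [mul_add]; exact Submodule.add_mem _ ih ih'
    | smul r z _ ih => rw [mul_smul_comm]; exact Submodule.smul_mem _ _ ih
  have hVy : ∀ z ∈ V, z * y ∈ V := by
    intro z hz
    rw [hV] at hz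
    induction hz using Submodule.span_induction with
    | mem z hz =>
      obtain ⟨a, t, ht, rfl⟩ := hz
      rw [mul_assoc, ← pow_succ]
      by_cases h : t + 1 ≤ N - 2
      · rw [hV]; exact Submodule.subset_span ⟨a, t + 1, h, rfl⟩
      · have : t + 1 = N - 1 := by omega
        rw [this]
        exact hwV a _ hyN1
    | zero => rw [zero_mul]; exact Submodule.zero_mem _
    | add z z' _ _ ih ih' => rw [add_mul]; exact Submodule.add_mem _ ih ih'
    | smul r z _ ih => rw [smul_mul_assoc]; exact Submodule.smul_mem _ _ ih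
  have hyV : ∀ n, y ^ n ∈ V := by
    intro n
    induction n with
    | zero =>
      rw [hV]; exact Submodule.subset_span ⟨0, 0, by omega, by simp⟩
    | succ n ih => rw [pow_succ]; exact hVy _ ih
  have hVfg : V.FG := by
    rw [hV]
    apply Submodule.fg_span
    apply Set.Finite.subset (s := Set.image2 (fun a t => w ^ a * y ^ t) (Set.Iio k) (Set.Iic (N - 2)))
    · exact Set.Finite.image2 _ (Set.finite_Iio k) (Set.finite_Iic _)
    · rintro z ⟨a, t, ht, rfl⟩
      exact ⟨a % k, Nat.mod_lt _ hk, t, ht, by rw [hwmod a]⟩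
  obtain ⟨B, hB⟩ : ∃ B : Subalgebra k₀ D, B = Algebra.adjoin k₀ {y} := ⟨_, rfl⟩
  have hBV : Subalgebra.toSubmodule B ≤ V := by
    rw [hB, Algebra.adjoin_singleton_eq_range_aeval]
    rintro _ ⟨p, rfl⟩
    show Polynomial.aeval y p ∈ V
    rw [Polynomial.aeval_eq_sum_range]
    exact Submodule.sum_mem _ fun i _ => Submodule.smul_mem _ _ (hyV i)
  have hBfg : (Subalgebra.toSubmodule B).FG := by
    haveI : Module.Finite k₀ V := Module.Finite.iff_fg.mpr hVfg
    haveI : FiniteDimensional k₀ (Subalgebra.toSubmodule B) := Submodule.finiteDimensional_of_le hBV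
    exact Module.Finite.iff_fg.mp this
  have hyB : y ∈ B := by rw [hB]; exact Algebra.self_mem_adjoin_singleton k₀ y
  have hxB : x ∈ B := by
    have := caseTr_inv k₀ D B hBfg y hyB hy0
    rwa [hy, inv_inv] at this
  exact IsIntegral.of_mem_of_fg B hBfg x hxB


theorem caseTr (k₀ : Type) [Field k₀] (D : Type u) [DivisionRing D] [Algebra k₀ D] (w x : D)
    (hx : Transcendental k₀ x) (k : ℕ)
    (hk : 0 < k) (hw : w ^ k = 1) (j : ℕ) (hj : x * w = w ^ j * x)
    (h : ∃ m : ℕ, 0 < m ∧ (w * (x + 1) * w⁻¹ * (x + 1)⁻¹) ^ m = 1) :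
    w ^ j = w := by
  classical
  by_contra hne
  have hx0 : x ≠ 0 := by
    rintro rfl
    exact hx isAlgebraic_zero
  have hw0 : w ≠ 0 := by
    rintro rfl
    rw [zero_pow hk.ne'] at hw
    exact zero_ne_one hw
  have hx1 : x + 1 ≠ 0 := by
    intro h1
    have h2 : x = algebraMap k₀ D (-1) := by
      rw [map_neg, map_one]; exact eq_neg_of_add_eq_zero_left h1
    apply hx
    rw [h2]
    exact isAlgebraic_algebraMap _
  obtain ⟨e, he⟩ : ∃ e : ℕ, e = 1 + (k - 1) * j := ⟨_, rfl⟩
  have hwinv : w⁻¹ = w ^ (k - 1) := by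
    symm
    apply eq_inv_of_mul_eq_one_right
    rw [← pow_succ', Nat.sub_add_cancel hk, hw]
  have hwx : w * x * w⁻¹ = w ^ e * x := by
    have h1 := caseTr_xw D w x j hj 1 (k - 1)
    rw [pow_one, pow_one] at h1
    rw [hwinv, mul_assoc, h1, ← mul_assoc, ← pow_succ', he]
    congr 2
    ring
  have hhne : w ^ e ≠ 1 := by
    intro h1
    apply hne
    have h2 : w ^ j = w ^ (j + e) := by rw [pow_add, h1, mul_one]
    obtain ⟨k', rfl⟩ : ∃ k', k = k' + 1 := ⟨k - 1, by omega⟩
    have h3 : j + e = (k' + 1) * j + 1 := by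
      rw [he]; simp only [Nat.add_sub_cancel]; ring
    rw [h2, h3, pow_succ, pow_mul, hw, one_pow, one_mul]
  have hwmod : ∀ a, w ^ a = w ^ (a % k) := by
    intro a
    conv_lhs => rw [← Nat.mod_add_div a k, pow_add, pow_mul, hw, one_pow, mul_one]
  have key : ∀ a b : ℕ, a < b → j ^ a % k = j ^ b % k →
      ∃ s, 2 ≤ s ∧ Even s ∧ Commute (x ^ s) w := by
    intro a b hab hf
    have h0 : w ^ (j ^ a) = w ^ (j ^ b) := by rw [hwmod (j ^ a), hwmod (j ^ b), hf]
    have e1 := caseTr_xw D w x j hj a 1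
    have e2 := caseTr_xw D w x j hj b 1
    rw [pow_one, one_mul] at e1 e2
    have e3 : x ^ a * (x ^ (b - a) * w) = x ^ a * (w * x ^ (b - a)) := by
      calc x ^ a * (x ^ (b - a) * w) = x ^ b * w := by
            rw [← mul_assoc, ← pow_add, Nat.add_sub_cancel' hab.le]
        _ = w ^ (j ^ a) * x ^ b := by rw [e2, h0]
        _ = w ^ (j ^ a) * (x ^ a * x ^ (b - a)) := by
            rw [← pow_add, Nat.add_sub_cancel' hab.le]
        _ = x ^ a * w * x ^ (b - a) := by rw [← mul_assoc, e1]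
        _ = _ := by rw [mul_assoc]
    have e4 : Commute (x ^ (b - a)) w := mul_left_cancel₀ (pow_ne_zero a hx0) e3
    refine ⟨(b - a) * 2, by omega, by simp, ?_⟩
    rw [pow_mul]
    exact e4.pow_left 2
  obtain ⟨s, hs2, hseven, hsw⟩ : ∃ s, 2 ≤ s ∧ Even s ∧ Commute (x ^ s) w := by
    obtain ⟨a, b, hab, hf⟩ := Finite.exists_ne_map_eq_of_infinite
      (fun a : ℕ => (⟨j ^ a % k, Nat.mod_lt _ hk⟩ : Fin k))
    have hf' : j ^ a % k = j ^ b % k := congrArg Fin.val hf
    rcases lt_or_gt_of_ne hab with h1 | h1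
    · exact key a b h1 hf'
    · exact key b a h1 hf'.symm
  obtain ⟨c, hc⟩ : ∃ c : D, c = 1 - x ^ s := ⟨_, rfl⟩
  obtain ⟨y', hy'⟩ : ∃ y' : D, y' = ∑ i ∈ Finset.range s, (-x) ^ i := ⟨_, rfl⟩
  have hyc : (x + 1) * y' = c := by
    have h1 := mul_neg_geom_sum (-x) s
    rw [sub_neg_eq_add, hseven.neg_pow, add_comm] at h1
    rw [hy', hc]; exact h1
  obtain ⟨q, hq⟩ : ∃ q : D, q = w * (x + 1) * w⁻¹ * (x + 1)⁻¹ := ⟨_, rfl⟩
  rw [← hq] at h
  obtain ⟨A, hA⟩ : ∃ A : D, A = (w ^ e * x + 1) * y' := ⟨_, rfl⟩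
  have hqc : q * c = A := by
    rw [hq, ← hyc, mul_assoc (w * (x + 1) * w⁻¹), ← mul_assoc (x + 1)⁻¹, inv_mul_cancel₀ hx1,
      one_mul, mul_add, add_mul, mul_one, mul_inv_cancel₀ hw0, hwx, hA]
  have hcx : Commute c x := by
    rw [hc]; exact (Commute.one_left _).sub_left ((Commute.refl x).pow_left s)
  have hcw : Commute c w := by
    rw [hc]; exact (Commute.one_left _).sub_left hsw
  have hcx1 : Commute c (x + 1) := hcx.add_right (Commute.one_right c)
  have hcq : Commute c q := by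
    rw [hq]
    exact ((hcw.mul_right hcx1).mul_right hcw.inv_right₀).mul_right hcx1.inv_right₀
  obtain ⟨m, hm0, hqm, hmin⟩ : ∃ m : ℕ, 0 < m ∧ q ^ m = 1 ∧ ∀ m', 0 < m' → q ^ m' = 1 → m ≤ m' :=
    ⟨Nat.find h, (Nat.find_spec h).1, (Nat.find_spec h).2, fun m' h1 h2 => Nat.find_min' h ⟨h1, h2⟩⟩
  have hmD : (m : D) ≠ 0 := by
    intro h0
    have hch : CharP D (ringChar D) := ringChar.charP D
    have hdvd := (CharP.cast_eq_zero_iff D (ringChar D) m).mp h0
    have hp0 : ringChar D ≠ 0 := by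
      intro h1
      rw [h1, zero_dvd_iff] at hdvd
      omega
    have hp := (CharP.char_is_prime_or_zero D (ringChar D)).resolve_right hp0
    have hfp : Fact (ringChar D).Prime := ⟨hp⟩
    obtain ⟨m', hm'⟩ := hdvd
    have h1 : (q ^ m' - 1) ^ (ringChar D) = 0 := by
      rw [sub_pow_char_of_commute _ (Commute.one_right _), one_pow, ← pow_mul, mul_comm, ← hm', hqm, sub_self]
    have h2 : q ^ m' = 1 := sub_eq_zero.mp (pow_eq_zero_iff hp0 |>.mp h1)
    have hm'0 : 0 < m' := by
      rcases Nat.eq_zero_or_pos m' with h3 | h3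
      · rw [h3, mul_zero] at hm'; omega
      · exact h3
    have h3 := hmin m' hm'0 h2
    have h4 := hp.two_le
    nlinarith
  have hAm : A ^ m = c ^ m := by rw [← hqc, hcq.symm.mul_pow, hqm, one_mul]
  have hmul := caseTr_mul k₀ D w x j hj
  have hmono := caseTr_mono k₀ D w x
  have hwM : ∀ a, w ^ a ∈ caseTr_M k₀ D w x 0 := fun a =>
    Submodule.subset_span ⟨a, 0, le_rfl, by simp⟩
  have hone : (1 : D) ∈ caseTr_M k₀ D w x 0 := by simpa using hwM 0
  have hxM : x ∈ caseTr_M k₀ D w x 1 := Submodule.subset_span ⟨0, 1, le_rfl, by simp⟩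
  have hnx : ∀ n, (-x) ^ n ∈ caseTr_M k₀ D w x n := by
    intro n
    induction n with
    | zero => simpa using hone
    | succ n ih => rw [pow_succ]; exact hmul n 1 _ _ ih (Submodule.neg_mem _ hxM)
  obtain ⟨r, hr, hry⟩ : ∃ r ∈ caseTr_M k₀ D w x 2, y' = 1 - x + r := by
    obtain ⟨s', rfl⟩ : ∃ s', s = s' + 2 := ⟨s - 2, by omega⟩
    refine ⟨∑ i ∈ Finset.range s', (-x) ^ (i + 1 + 1), ?_, ?_⟩
    · exact Submodule.sum_mem _ fun i _ => hmono (i + 1 + 1) 2 (by omega) (hnx _)
    · rw [hy', Finset.sum_range_succ', Finset.sum_range_succ']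
      simp only [zero_add, pow_one, pow_zero]
      abel
  obtain ⟨u, hu⟩ : ∃ u : D, u = (w ^ e - 1) * x := ⟨_, rfl⟩
  have hwe : w ^ e * x ∈ caseTr_M k₀ D w x 1 := by simpa using hmul 0 1 _ _ (hwM e) hxM
  have huM : u ∈ caseTr_M k₀ D w x 1 := by
    simpa [hu] using hmul 0 1 _ _ (Submodule.sub_mem _ (hwM e) hone) hxM
  have hA1 : A - (1 + u) ∈ caseTr_M k₀ D w x 2 := by
    have h1 : A - (1 + u) = -(w ^ e * x * x) + (w ^ e * x + 1) * r := by
      rw [hA, hu, hry]; noncomm_ring
    rw [h1]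
    refine Submodule.add_mem _ (Submodule.neg_mem _ (hmul 1 1 _ _ hwe hxM)) ?_
    have := hmul 0 2 _ _ (Submodule.add_mem _ (hmono 1 0 (by omega) hwe) hone) hr
    simpa using this
  have hu0 : u ∈ caseTr_M k₀ D w x 0 := hmono 1 0 (by omega) huM
  have hA0 : A ∈ caseTr_M k₀ D w x 0 := by
    have h1 : A = (A - (1 + u)) + (1 + u) := by abel
    rw [h1]
    exact Submodule.add_mem _ (hmono 2 0 (by omega) hA1) (Submodule.add_mem _ hone hu0)
  have hpow : ∀ n : ℕ, A ^ n - (1 + n • u) ∈ caseTr_M k₀ D w x 2 := by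
    intro n
    induction n with
    | zero => simp
    | succ n ih =>
      have h1 : A ^ (n + 1) - (1 + (n + 1) • u) = (A ^ n - (1 + n • u)) * A +
          (1 + n • u) * (A - (1 + u)) + n • (u * u) := by
        rw [pow_succ, succ_nsmul]
        simp only [sub_mul, mul_sub, add_mul, mul_add, one_mul, mul_one, smul_mul_assoc]
        abel
      rw [h1]
      refine Submodule.add_mem _ (Submodule.add_mem _ ?_ ?_) ?_
      · simpa using hmul 2 0 _ _ ih hA0
      · have := hmul 0 2 _ _ (Submodule.add_mem _ hone (nsmul_mem hu0 n)) hA1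
        simpa using this
      · exact nsmul_mem (hmul 1 1 _ _ huM huM) n
  have hcM : c - 1 ∈ caseTr_M k₀ D w x 2 := by
    have h1 : c - 1 = -((-x) ^ s) := by rw [hc, hseven.neg_pow]; abel
    rw [h1]
    exact Submodule.neg_mem _ (hmono s 2 hs2 (hnx s))
  have hc0 : c ∈ caseTr_M k₀ D w x 0 := by
    have h1 : c = (c - 1) + 1 := by abel
    rw [h1]
    exact Submodule.add_mem _ (hmono 2 0 (by omega) hcM) hone
  have hcpow : ∀ n : ℕ, c ^ n - 1 ∈ caseTr_M k₀ D w x 2 := by
    intro n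
    induction n with
    | zero => simp
    | succ n ih =>
      have h1 : c ^ (n + 1) - 1 = (c ^ n - 1) * c + (c - 1) := by rw [pow_succ]; noncomm_ring
      rw [h1]
      refine Submodule.add_mem _ ?_ hcM
      simpa using hmul 2 0 _ _ ih hc0
  have hmu : m • u ∈ caseTr_M k₀ D w x 2 := by
    have h1 : m • u = (c ^ m - 1) - (A ^ m - (1 + m • u)) := by rw [hAm]; abel
    rw [h1]
    exact Submodule.sub_mem _ (hcpow m) (hpow m)
  obtain ⟨l, hl⟩ : ∃ l : D, l = (m : D) * (w ^ e - 1) := ⟨_, rfl⟩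
  have hl0 : l ≠ 0 := by rw [hl]; exact mul_ne_zero hmD (sub_ne_zero.mpr hhne)
  have hmu' : m • u = l * x := by rw [hl, hu, nsmul_eq_mul, mul_assoc]
  obtain ⟨B, hB⟩ : ∃ B : Subalgebra k₀ D, B = Algebra.adjoin k₀ {w} := ⟨_, rfl⟩
  have hwB : w ∈ B := by rw [hB]; exact Algebra.self_mem_adjoin_singleton k₀ w
  have hlB : l ∈ B := by
    rw [hl]
    exact B.mul_mem (natCast_mem B m) (B.sub_mem (B.pow_mem hwB e) B.one_mem)
  have hBM : Subalgebra.toSubmodule B ≤ caseTr_M k₀ D w x 0 := by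
    rw [hB, Algebra.adjoin_singleton_eq_range_aeval]
    rintro _ ⟨p, rfl⟩
    show Polynomial.aeval w p ∈ _
    rw [Polynomial.aeval_eq_sum_range]
    exact Submodule.sum_mem _ fun i _ => Submodule.smul_mem _ _ (hwM i)
  have hBfg : (Subalgebra.toSubmodule B).FG := by
    rw [hB]
    apply IsIntegral.fg_adjoin_singleton
    refine ⟨X ^ k - C 1, monic_X_pow_sub_C _ hk.ne', ?_⟩
    simp [hw]
  have hlinv : l⁻¹ ∈ caseTr_M k₀ D w x 0 := hBM (caseTr_inv k₀ D B hBfg l hlB hl0)
  have hxM2 : x ∈ caseTr_M k₀ D w x 2 := by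
    have h1 := hmul 0 2 _ _ hlinv hmu
    rw [hmu', ← mul_assoc, inv_mul_cancel₀ hl0, one_mul] at h1
    simpa using h1
  exact hx (caseTr_alg k₀ D w x k hk hw hx0 hxM2).isAlgebraic

theorem caseFin_semi {D : Type u} [DivisionRing D] {w x : D} {j : ℕ} (hj : x * w = w ^ j * x)
    (b c : ℕ) : x ^ b * w ^ c = w ^ (c * j ^ b) * x ^ b := by
  have h : SemiconjBy x w (w ^ j) := hj
  induction b with
  | zero => simp
  | succ b ih =>
    have h2 : x * w ^ (c * j ^ b) = (w ^ j) ^ (c * j ^ b) * x := h.pow_right _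
    calc x ^ (b + 1) * w ^ c = x * (x ^ b * w ^ c) := by rw [pow_succ', mul_assoc]
      _ = x * w ^ (c * j ^ b) * x ^ b := by rw [ih, mul_assoc]
      _ = w ^ (c * j ^ (b + 1)) * x ^ (b + 1) := by
        rw [h2, ← pow_mul, mul_assoc, ← pow_succ']
        congr 2
        ring

theorem caseFin_fin {D : Type u} [DivisionRing D] (p : ℕ) (hp : p.Prime) [CharP D p] {w x : D} {j : ℕ}
    (hj : x * w = w ^ j * x) (k m : ℕ) (hk : 0 < k) (hm : 0 < m) (hw : w ^ k = 1)
    (hxm : x ^ m = 1) : w * x = x * w := by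
  classical
  have : Fact p.Prime := ⟨hp⟩
  letI : Algebra (ZMod p) D := ZMod.algebra D p
  let M : Submonoid D :=
    { carrier := {g | ∃ a b : ℕ, g = w ^ a * x ^ b}
      one_mem' := ⟨0, 0, by simp⟩
      mul_mem' := by
        rintro _ _ ⟨a, b, rfl⟩ ⟨c, d, rfl⟩
        refine ⟨a + c * j ^ b, b + d, ?_⟩
        calc w ^ a * x ^ b * (w ^ c * x ^ d) = w ^ a * (x ^ b * w ^ c) * x ^ d := by
              simp only [mul_assoc]
          _ = w ^ (a + c * j ^ b) * x ^ (b + d) := by
              rw [caseFin_semi hj, pow_add, pow_add]; simp only [mul_assoc] }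
  have hMf : (M : Set D).Finite := by
    refine ((Finset.range k ×ˢ Finset.range m).image fun q => w ^ q.1 * x ^ q.2).finite_toSet.subset ?_
    rintro _ ⟨a, b, rfl⟩
    simp only [Finset.coe_image, Set.mem_image, Finset.mem_coe, Finset.mem_product,
      Finset.mem_range, Prod.exists]
    refine ⟨a % k, b % m, ⟨Nat.mod_lt _ hk, Nat.mod_lt _ hm⟩, ?_⟩
    rw [← pow_eq_pow_mod a hw, ← pow_eq_pow_mod b hxm]
  let A := Algebra.adjoin (ZMod p) ({w, x} : Set D)
  have hcl : (Submonoid.closure ({w, x} : Set D) : Set D) ⊆ M := by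
    have : Submonoid.closure ({w, x} : Set D) ≤ M := by
      rw [Submonoid.closure_le]
      rintro g (rfl | rfl)
      · exact ⟨1, 0, by simp⟩
      · exact ⟨0, 1, by simp⟩
    exact this
  have hfm : (Subalgebra.toSubmodule A).FG := by
    rw [Algebra.adjoin_eq_span]
    exact Submodule.fg_span (hMf.subset hcl)
  haveI : Module.Finite (ZMod p) (Subalgebra.toSubmodule A) := Module.Finite.iff_fg.2 hfm
  haveI hfin : Finite (Subalgebra.toSubmodule A) := Module.finite_of_finite (ZMod p)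
  haveI : Finite A := hfin
  haveI : IsDomain A := inferInstance
  have hF : IsField A := Finite.isDomain_to_isField A
  have hwA : w ∈ A := Algebra.subset_adjoin (by simp)
  have hxA : x ∈ A := Algebra.subset_adjoin (by simp)
  have := hF.mul_comm ⟨w, hwA⟩ ⟨x, hxA⟩
  exact congrArg Subtype.val this


theorem caseFin (D : Type u) [DivisionRing D] (p : ℕ) [Fact p.Prime] [CharP D p] [Algebra (ZMod p) D]
    (w x : D) (hx : x ≠ 0) (halg : IsAlgebraic (ZMod p) x) (k : ℕ) (hk : 0 < k) (hw : w ^ k = 1)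
    (j : ℕ) (hj : x * w = w ^ j * x) : w ^ j = w := by
  obtain ⟨m, hm, hxm⟩ : ∃ m : ℕ, 0 < m ∧ x ^ m = 1 := by
    have hfg := halg.isIntegral.fg_adjoin_singleton
    haveI : Module.Finite (ZMod p) (Subalgebra.toSubmodule (Algebra.adjoin (ZMod p) {x})) :=
      Module.Finite.iff_fg.2 hfg
    haveI hfin : Finite (Subalgebra.toSubmodule (Algebra.adjoin (ZMod p) {x})) :=
      Module.finite_of_finite (ZMod p)
    have hmem : ∀ i : ℕ, x ^ i ∈ Subalgebra.toSubmodule (Algebra.adjoin (ZMod p) {x}) := fun i =>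
      (pow_mem (Algebra.self_mem_adjoin_singleton (ZMod p) x) i :
        x ^ i ∈ Algebra.adjoin (ZMod p) {x})
    obtain ⟨a, b, hab, he⟩ := Finite.exists_ne_map_eq_of_infinite
      (fun i : ℕ => (⟨x ^ i, hmem i⟩ :
        (Subalgebra.toSubmodule (Algebra.adjoin (ZMod p) {x}))))
    have he' : x ^ a = x ^ b := congrArg Subtype.val he
    have key : ∀ a b : ℕ, a < b → x ^ a = x ^ b → ∃ m : ℕ, 0 < m ∧ x ^ m = 1 := by
      intro a b h he'
      refine ⟨b - a, by omega, ?_⟩
      have h2 : x ^ b = x ^ a * x ^ (b - a) := by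
        rw [← pow_add]
        congr 1
        omega
      rw [h2] at he'
      exact mul_left_cancel₀ (pow_ne_zero a hx) (he'.symm.trans (mul_one _).symm)
    rcases lt_or_gt_of_ne hab with h | h
    · exact key a b h he'
    · exact key b a h he'.symm
  have hwx := caseFin_fin p (Fact.out) hj k m hk hm hw hxm
  rw [← hwx] at hj
  exact (mul_right_cancel₀ hx hj).symm

theorem NS.pow {D : Type u} [DivisionRing D] {P : D → Prop} (H : NS D P) {a : D} (ha : P a)
    (i : ℕ) : P (a ^ i) := by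
  induction i with
  | zero => rw [pow_zero]; exact H.cen 1 (Subring.one_mem _) one_ne_zero
  | succ i ih => rw [pow_succ]; exact H.mul _ _ ih ha

theorem hRN (D : Type u) [DivisionRing D] (P : D → Prop) (H : NS D P) : RN D P := by
  intro w k hPw hk hw
  by_contra hnc
  obtain ⟨x, hx, j, hj, hne⟩ := hB D w k hk hw hnc
  apply hne
  have hq : ∀ l : D, l ∈ Subring.center D → x + l ≠ 0 →
      ∃ m : ℕ, 0 < m ∧ (w * (x + l) * w⁻¹ * (x + l)⁻¹) ^ m = 1 := by
    intro l hl hxl
    have hP : P (w * (x + l) * w⁻¹ * (x + l)⁻¹) := by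
      have h1 : P ((x + l) * w⁻¹ * (x + l)⁻¹) := H.conj _ _ (H.inv _ hPw) hxl
      have h2 := H.mul _ _ hPw h1
      have h3 : w * ((x + l) * w⁻¹ * (x + l)⁻¹) = w * (x + l) * w⁻¹ * (x + l)⁻¹ := by
        simp only [mul_assoc]
      rwa [h3] at h2
    obtain ⟨n, hn, h⟩ := H.rad _ hP
    exact torsQ D w x hx k hk hw j hj l hl hxl n hn h
  obtain ⟨q, hq'⟩ := CharP.exists D
  rcases CharP.char_is_prime_or_zero D q with hp | h0
  · have : Fact q.Prime := ⟨hp⟩
    letI : Algebra (ZMod q) D := ZMod.algebra D q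
    by_cases halg : IsAlgebraic (ZMod q) x
    · exact caseFin D q w x hx halg k hk hw j hj
    · refine caseTr (ZMod q) D w x halg k hk hw j hj (hq 1 (Subring.one_mem _) ?_)
      intro h1
      apply halg
      have h2 : x = algebraMap (ZMod q) D (-1) := by
        rw [map_neg, map_one]
        exact eq_neg_of_add_eq_zero_left h1
      rw [h2]
      exact isAlgebraic_algebraMap _
  · subst h0
    have : CharZero D := CharP.charP_to_charZero D
    by_cases halg : IsAlgebraic ℚ x
    · exact caseAlg D w x hx k hk hw j hj halg (fun l hl => hq l (natCast_mem _ l) hl)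
    · refine caseTr ℚ D w x halg k hk hw j hj (hq 1 (Subring.one_mem _) ?_)
      intro h1
      apply halg
      have h2 : x = algebraMap ℚ D (-1) := by
        rw [map_neg, map_one]
        exact eq_neg_of_add_eq_zero_left h1
      rw [h2]
      exact isAlgebraic_algebraMap _

theorem hMpN (D : Type u) [DivisionRing D] (P : D → Prop) (H : NS D P) (R : RN D P) (p : ℕ)
    (hp : p.Prime) (hpD : (p : D) = 0) (v : D) (hPv : P v)
    (hv : v ^ p ∈ Subring.center D) : v ∈ Subring.center D := by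
  by_contra hnc
  have : CharP D p := by
    obtain ⟨q, hq⟩ := CharP.exists D
    have h1 : q ∣ p := (CharP.cast_eq_zero_iff D q p).1 hpD
    rcases (Nat.dvd_prime hp).1 h1 with h | h
    · subst h
      exact absurd rfl (CharP.char_ne_one D 1)
    · subst h; exact hq
  obtain ⟨u, hu⟩ := hMpa D p hp v hv hnc
  exact hMpbN D P H R v u hPv hu

theorem hM3N (D : Type u) [DivisionRing D] (P : D → Prop) (H : NS D P) (R : RN D P) (p : ℕ)
    (hp : p.Prime)
    (hpD : (p : D) ≠ 0) (g : (Subring.center D)[X]) (hg : 1 ≤ g.natDegree)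
    (hg3 : g.natDegree ≤ 3) (hgd : g ∣ cyclotomic p (Subring.center D)) (v : D) (hPv : P v)
    (hv : v ^ p ∈ Subring.center D) : v ∈ Subring.center D := by
  by_contra hnc
  obtain ⟨i, hi, x, hx, h⟩ := hM2a D p hp hpD g hg hgd v hv hnc
  have hvi : (v ^ i) ^ p ∈ Subring.center D := by
    rw [← pow_mul, mul_comm, pow_mul]
    exact Subring.pow_mem _ hv i
  rcases (by omega : g.natDegree ≤ 2 ∨ g.natDegree = 3) with h2 | h3
  · exact hM2bN D P H R p hp hpD g hg h2 hgd (v ^ i) (H.pow hPv i) hvi hi x hx h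
  · exact hM3bN D P H R (fun q hq h0 w hPw hw => hMpN D P H R q hq h0 w hPw hw) p hp hpD g h3
      hgd (v ^ i) (H.pow hPv i) hi x hx h

theorem mainN (D : Type u) [DivisionRing D] (N : Subgroup Dˣ) (hN : N.Normal)
    (H : ∀ u ∈ N, ∃ n : ℕ, 0 < n ∧ (u : D) ^ n ∈ Subring.center D ∧
        ∀ p : ℕ, p.Prime → p ∣ n → (p : D) = 0 ∨
          ∃ g : (Subring.center D)[X], 1 ≤ g.natDegree ∧ g.natDegree ≤ 3 ∧
            g ∣ cyclotomic p (Subring.center D)) :
    ∀ u ∈ N, (u : D) ∈ Subring.center D := by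
  set P : D → Prop := fun a => ∃ f : D, f ∈ Subring.center D ∧ f ≠ 0 ∧
    ∃ u : Dˣ, u ∈ N ∧ a = f * u with hP
  have hNS : NS D P := by
    refine ⟨?_, ?_, ?_, ?_, ?_, ?_⟩
    · rintro a ⟨f, hf, hf0, u, hu, rfl⟩
      exact mul_ne_zero hf0 u.ne_zero
    · rintro a b ⟨f, hf, hf0, u, hu, rfl⟩ ⟨f', hf', hf0', u', hu', rfl⟩
      refine ⟨f * f', Subring.mul_mem _ hf hf', mul_ne_zero hf0 hf0', u * u',
        N.mul_mem hu hu', ?_⟩
      have := Subring.mem_center_iff.1 hf' (u : D)
      rw [Units.val_mul, mul_assoc, mul_assoc, ← mul_assoc (u : D) f', this]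
      simp only [mul_assoc]
    · rintro a ⟨f, hf, hf0, u, hu, rfl⟩
      refine ⟨f⁻¹, Subring.mem_center_iff.2 fun g => ?_, inv_ne_zero hf0, u⁻¹, N.inv_mem hu, ?_⟩
      · exact ((show Commute g f from Subring.mem_center_iff.1 hf g).inv_right₀)
      · rw [mul_inv_rev, Units.val_inv_eq_inv_val]
        exact ((show Commute (u : D)⁻¹ f from Subring.mem_center_iff.1 hf _).inv_right₀)
    · rintro a x ⟨f, hf, hf0, u, hu, rfl⟩ hx
      refine ⟨f, hf, hf0, Units.mk0 x hx * u * (Units.mk0 x hx)⁻¹, hN.conj_mem u hu _, ?_⟩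
      have := Subring.mem_center_iff.1 hf x
      rw [Units.val_mul, Units.val_mul, Units.val_inv_eq_inv_val, Units.val_mk0, ← mul_assoc x f,
        this]
      simp only [mul_assoc]
    · intro a ha ha0
      exact ⟨a, ha, ha0, 1, N.one_mem, by simp⟩
    · rintro a ⟨f, hf, hf0, u, hu, rfl⟩
      obtain ⟨n, hn, h, -⟩ := H u hu
      refine ⟨n, hn, ?_⟩
      have hc : Commute f (u : D) := (show Commute (u : D) f from Subring.mem_center_iff.1 hf _).symm
      rw [hc.mul_pow]
      exact Subring.mul_mem _ (Subring.pow_mem _ hf n) h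
  have R : RN D P := hRN D P hNS
  intro u hu
  obtain ⟨n, hn, hc, hp⟩ := H u hu
  have hPu : P (u : D) := ⟨1, Subring.one_mem _, one_ne_zero, u, hu, by simp⟩
  have key : ∀ m : ℕ, 0 < m → m ∣ n → (u : D) ^ m ∈ Subring.center D →
      (u : D) ∈ Subring.center D := by
    intro m
    induction m using Nat.strong_induction_on with
    | _ m ih =>
      intro hm hmn hcm
      by_cases h1 : m = 1
      · subst h1; simpa using hcm
      obtain ⟨p, hpp, hpm⟩ := Nat.exists_prime_and_dvd h1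
      obtain ⟨m', rfl⟩ := hpm
      have hm' : 0 < m' := by
        rcases Nat.eq_zero_or_pos m' with h0 | h0
        · subst h0; simp at hm
        · exact h0
      have hlt : m' < p * m' := by
        have := hpp.two_le
        nlinarith
      have hdvd : m' ∣ n := (Dvd.intro_left p rfl).trans hmn
      have hpn : p ∣ n := (Dvd.intro m' rfl).trans hmn
      have hv : ((u : D) ^ m') ^ p ∈ Subring.center D := by
        rw [← pow_mul, mul_comm]; exact hcm
      apply ih m' hlt hm' hdvd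
      rcases hp p hpp hpn with h0 | ⟨g, hg1, hg2, hgd⟩
      · exact hMpN D P hNS R p hpp h0 _ (hNS.pow hPu m') hv
      · by_cases hpD : (p : D) = 0
        · exact hMpN D P hNS R p hpp hpD _ (hNS.pow hPu m') hv
        · exact hM3N D P hNS R p hpp hpD g hg1 hg2 hgd _ (hNS.pow hPu m') hv
  exact key n hn dvd_rfl hc

end Pool.Agent.Helper656.Her
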